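import Pool.Agent.Lib.MP_b347ba_lc.LevelData

/-!
# Sweeping a hub graph
-/

namespace Pool.MP_b347ba_lc

section general

variable {V : Type} {up dn : V → List V}

theorem Run.move_right {L₁ A B : List (Strand V)} {a : Strand V} {vs : List V}
    {C : List (Strand V × Strand V)} {L' : List (Strand V)}
    (h : Run up dn (L₁ ++ A ++ a :: B) vs C L') :
    Run up dn (L₁ ++ a :: (A ++ B)) vs (A.map (fun b => (a, b)) ++ C) L' := by
  induction A generalizing L₁ with
  | nil => simpa using h
  | cons b A ih =>
    have h1 := ih (L₁ := L₁ ++ [b]) (by simpa using h)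
    have h2 := Run.swap (up := up) (dn := dn) L₁ (A ++ B) a b vs (A.map (fun b => (a, b)) ++ C) L'
      (by simpa using h1)
    simpa using h2

theorem Run.move_left {L₁ B L₂ : List (Strand V)} {c : Strand V} {vs : List V}
    {C : List (Strand V × Strand V)} {L' : List (Strand V)}
    (h : Run up dn (L₁ ++ c :: (B ++ L₂)) vs C L') :
    Run up dn (L₁ ++ B ++ c :: L₂) vs (B.reverse.map (fun b => (b, c)) ++ C) L' := by
  induction B generalizing L₁ C with
  | nil => simpa using h
  | cons b B ih =>
    have h1 := Run.swap (up := up) (dn := dn) L₁ (B ++ L₂) b c vs C L' (by simpa using h)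
    have h2 := ih (L₁ := L₁ ++ [b]) (C := (b, c) :: C) (by simpa using h1)
    simpa using h2

end general

variable {X : Type} {lev : X → ℕ} {lv : List X} {up dn : X → List X}

/-- An edge of the inner graph as an edge of the hub graph. -/
def inn (e : Strand X) : Strand (HV X) := (.x e.1, .x e.2)

theorem inn_inj : Function.Injective (inn (X := X)) := by
  rintro ⟨a, b⟩ ⟨c, d⟩ h
  simpa [inn] using h

/-- The possible crossings in a sweep of the hub graph. -/
def HubX (C : List (Strand X × Strand X)) (vs : List X) (q : Strand (HV X) × Strand (HV X)) :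
    Prop :=
  (∃ p ∈ C, q = (inn p.1, inn p.2)) ∨
    (∃ v ∈ vs, ∃ e : Strand X, q = ((.P, .x v), inn e) ∧ e.1 ≠ v ∧ e.2 ≠ v) ∨
    ∃ v ∈ vs, ∃ e : Strand X, q = (inn e, (.Q, .x v)) ∧ e.1 ≠ v ∧ e.2 ≠ v

theorem hub_run_aux (h : IsLeveled lev lv up dn) {L : List (Strand X)} {vs : List X}
    {C : List (Strand X × Strand X)} {L' : List (Strand X)} (hrun : Run up dn L vs C L') :
    L' = [] → vs.Pairwise (fun a b => lev a < lev b) →
    (∀ u v, v ∈ up u → u ∈ vs → v ∈ vs) → L.Nodup →
    (∀ e ∈ L, e.2 ∈ up e.1 ∧ e.1 ∉ vs ∧ e.2 ∈ vs) →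
    (C.Pairwise fun p p' => p' ≠ p ∧ p' ≠ p.swap) →
    ∃ C', Run (hubUp lv up) (hubDn dn) (vs.reverse.map (fun v => (HV.P, HV.x v)) ++
      L.map inn ++ vs.map (fun v => (HV.Q, HV.x v))) (vs.map .x) C' [] ∧
      (C'.Pairwise fun p p' => p' ≠ p ∧ p' ≠ p.swap) ∧ ∀ q ∈ C', HubX C vs q := by
  induction hrun with
  | nil L =>
    rintro rfl - - - - -
    exact ⟨[], by simpa using Run.nil [], List.Pairwise.nil, by simp⟩
  | swap A B a b vs C L' _ ih =>
    intro hL' hvs hcl hnd hinv hC
    rw [List.pairwise_cons] at hC
    obtain ⟨C', h1, h2, h3⟩ := ih hL' hvs hcl (by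
      rw [List.nodup_append] at hnd ⊢
      obtain ⟨n1, n2, n3⟩ := hnd
      refine ⟨n1, ?_, ?_⟩
      · simp only [List.nodup_cons, List.mem_cons, not_or] at n2 ⊢
        exact ⟨⟨Ne.symm n2.1.1, n2.2.1⟩, n2.1.2, n2.2.2⟩
      · intro x hx y hy
        exact n3 x hx y (by
          simp only [List.mem_cons] at hy ⊢
          tauto)) (by
      intro e he
      refine hinv e ?_
      simp only [List.mem_append, List.mem_cons] at he ⊢
      tauto) hC.2
    refine ⟨(inn a, inn b) :: C', ?_, ?_, ?_⟩
    · have := Run.swap (up := hubUp lv up) (dn := hubDn dn)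
        (vs.reverse.map (fun v => (HV.P, HV.x v)) ++ A.map inn)
        (B.map inn ++ vs.map (fun v => (HV.Q, HV.x v))) (inn a) (inn b) (vs.map .x) C' []
        (by simpa using h1)
      simpa using this
    · rw [List.pairwise_cons]
      refine ⟨fun q hq => ?_, h2⟩
      rcases h3 q hq with ⟨p, hp, rfl⟩ | ⟨v, _, e, rfl, _⟩ | ⟨v, _, e, rfl, _⟩
      · have := hC.1 p hp
        constructor
        · intro he
          apply this.1
          simp only [Prod.mk.injEq] at he
          exact Prod.ext (inn_inj he.1) (inn_inj he.2)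
        · intro he
          apply this.2
          simp only [Prod.swap_prod_mk, Prod.mk.injEq] at he
          exact Prod.ext (inn_inj he.1) (inn_inj he.2)
      · constructor <;> simp [inn]
      · constructor <;> simp [inn]
    · intro q hq
      rcases List.mem_cons.1 hq with rfl | hq
      · exact Or.inl ⟨(a, b), by simp, rfl⟩
      · rcases h3 q hq with ⟨p, hp, e⟩ | h4
        · exact Or.inl ⟨p, List.mem_cons_of_mem _ hp, e⟩
        · exact Or.inr h4
  | vert A B v vs C L' _ ih =>
    intro hL' hvs hcl hnd hinv hC
    rw [List.pairwise_cons] at hvs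
    have hv : v ∉ vs := fun hv => lt_irrefl _ (hvs.1 v hv)
    have hAB : ∀ e, e ∈ A ∨ e ∈ B → e.2 ∈ up e.1 ∧ e.1 ≠ v ∧ e.1 ∉ vs ∧ e.2 ≠ v ∧ e.2 ∈ vs := by
      intro e he
      have h1 := hinv e (by
        simp only [List.mem_append]
        tauto)
      have h2 : e.2 ≠ v := by
        intro hev
        have hd : e.1 ∈ dn v := (h.symm _ _).1 (hev ▸ h1.1)
        have hm : e ∈ (dn v).map (fun w => (w, v)) := by
          rw [List.mem_map]
          exact ⟨e.1, hd, by rw [← hev]⟩
        rw [List.append_assoc, List.nodup_append] at hnd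
        obtain ⟨_, n2, n3⟩ := hnd
        rw [List.nodup_append] at n2
        rcases he with he | he
        · exact n3 e he e (by simp only [List.mem_append]; exact Or.inl hm) rfl
        · exact n2.2.2 e hm e he rfl
      have h3 : e.1 ≠ v ∧ e.1 ∉ vs := by simpa using h1.2.1
      have h4 : e.2 = v ∨ e.2 ∈ vs := by simpa using h1.2.2
      exact ⟨h1.1, h3.1, h3.2, h2, h4.resolve_left h2⟩
    have hnA : A.Nodup := by
      rw [List.append_assoc, List.nodup_append] at hnd
      exact hnd.1
    have hnB : B.Nodup := by
      rw [List.nodup_append] at hnd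
      exact hnd.2.1
    have hdAB : ∀ e ∈ A, ∀ e' ∈ B, e ≠ e' := by
      intro e he e' he'
      rw [List.nodup_append] at hnd
      exact hnd.2.2 e (by simp only [List.mem_append]; exact Or.inl he) e' he'
    obtain ⟨C', h1, h2, h3⟩ := ih hL' hvs.2
      (by
        intro u w hw hu
        have h1 := hcl u w hw (List.mem_cons_of_mem _ hu)
        rcases List.mem_cons.1 h1 with rfl | h1
        · have h2 := h.mono _ _ hw
          have h3 := hvs.1 u hu
          omega
        · exact h1)
      (by
        rw [List.append_assoc, List.nodup_append]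
        refine ⟨hnA, ?_, ?_⟩
        · rw [List.nodup_append]
          refine ⟨(h.up_nodup v).map fun a b hab => by simpa using hab, hnB, ?_⟩
          intro e he e' he' hee
          obtain ⟨w, -, rfl⟩ := List.mem_map.1 he
          exact (hAB e' (Or.inr he')).2.1 (by rw [← hee])
        · intro e he e' he' hee
          rcases List.mem_append.1 he' with he' | he'
          · obtain ⟨w, -, rfl⟩ := List.mem_map.1 he'
            exact (hAB e (Or.inl he)).2.1 (by rw [hee])
          · exact hdAB e he e' he' hee)
      (by
        intro e he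
        simp only [List.mem_append, List.mem_map] at he
        rcases he with (he | ⟨w, hw, rfl⟩) | he
        · have := hAB e (Or.inl he)
          exact ⟨this.1, this.2.2.1, this.2.2.2.2⟩
        · refine ⟨hw, hv, ?_⟩
          have h1 := hcl v w hw (by simp)
          rcases List.mem_cons.1 h1 with rfl | h1
          · exact absurd (h.mono _ _ hw) (lt_irrefl _)
          · exact h1
        · have := hAB e (Or.inr he)
          exact ⟨this.1, this.2.2.1, this.2.2.2.2⟩) hC
    -- the sweep step at v
    have r1 : Run (hubUp lv up) (hubDn dn)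
        ((vs.reverse.map (fun v => (HV.P, HV.x v)) ++ A.map inn) ++
          (hubDn dn (.x v)).map (fun w => (w, .x v)) ++
          (B.map inn ++ vs.map (fun v => (HV.Q, HV.x v)))) (.x v :: vs.map .x) C' [] := by
      refine Run.vert _ _ _ _ _ _ ?_
      have e : (hubUp lv up (.x v)).map (fun w => ((.x v : HV X), w)) =
          ((up v).map (fun w => (v, w))).map inn := by
        simp [hubUp, inn, Function.comp_def]
      rw [e]
      simpa using h1
    have e2 : (hubDn dn (.x v)).map (fun w => (w, (.x v : HV X))) =
        (.P, .x v) :: (((dn v).map (fun w => (w, v))).map inn ++ [(.Q, .x v)]) := by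
      simp [hubDn, inn, Function.comp_def]
    rw [e2] at r1
    have r2 := Run.move_left (L₁ := vs.reverse.map (fun v => (HV.P, HV.x v)) ++ A.map inn ++
        (.P, .x v) :: ((dn v).map (fun w => (w, v))).map inn) (c := (.Q, .x v))
      (B := B.map inn) (L₂ := vs.map (fun v => (HV.Q, HV.x v))) (by simpa using r1)
    have r3 := Run.move_right (L₁ := vs.reverse.map (fun v => (HV.P, HV.x v)))
      (A := A.map inn) (a := (.P, .x v)) (B := ((dn v).map (fun w => (w, v))).map inn ++
        B.map inn ++ (.Q, .x v) :: vs.map (fun v => (HV.Q, HV.x v)))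
      (C := (B.map inn).reverse.map (fun b => (b, (HV.Q, HV.x v))) ++ C')
      (by simpa using r2)
    refine ⟨(A.map inn).map (fun b => ((HV.P, HV.x v), b)) ++
      ((B.map inn).reverse.map (fun b => (b, (HV.Q, HV.x v))) ++ C'), ?_, ?_, ?_⟩
    rotate_left 1
    · rw [List.pairwise_append]
      refine ⟨?_, ?_, ?_⟩
      · rw [List.map_map, List.pairwise_map]
        refine hnA.imp ?_
        intro e e' hne
        constructor
        · intro he
          simp only [Function.comp, Prod.mk.injEq, true_and] at he
          exact hne (inn_inj he).symm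
        · simp [inn]
      · rw [List.pairwise_append]
        refine ⟨?_, h2, ?_⟩
        · rw [← List.map_reverse, List.map_map, List.pairwise_map]
          refine (List.nodup_reverse.2 hnB).imp ?_
          intro e e' hne
          constructor
          · intro he
            simp only [Function.comp, Prod.mk.injEq, and_true] at he
            exact hne (inn_inj he).symm
          · simp [inn]
        · intro p hp q hq
          rw [← List.map_reverse, List.map_map, List.mem_map] at hp
          obtain ⟨e, he, rfl⟩ := hp
          rcases h3 q hq with ⟨p, hp, rfl⟩ | ⟨u, hu, e', rfl, _⟩ | ⟨u, hu, e', rfl, _⟩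
          · constructor <;> simp [inn]
          · constructor <;> simp [inn]
          · constructor
            · intro he
              simp only [Function.comp, Prod.mk.injEq, HV.x.injEq, true_and] at he
              exact hv (he.2 ▸ hu)
            · simp [inn]
      · intro p hp q hq
        rw [List.map_map, List.mem_map] at hp
        obtain ⟨e, he, rfl⟩ := hp
        rcases List.mem_append.1 hq with hq | hq
        · rw [← List.map_reverse, List.map_map, List.mem_map] at hq
          obtain ⟨e', he', rfl⟩ := hq
          constructor <;> simp [inn]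
        · rcases h3 q hq with ⟨p, hp, rfl⟩ | ⟨u, hu, e', rfl, _⟩ | ⟨u, hu, e', rfl, _⟩
          · constructor <;> simp [inn]
          · constructor
            · intro he
              simp only [Function.comp, Prod.mk.injEq, HV.x.injEq, true_and] at he
              exact hv (he.1 ▸ hu)
            · simp [inn]
          · constructor <;> simp [inn]
    · intro q hq
      rcases List.mem_append.1 hq with hq | hq
      · rw [List.map_map, List.mem_map] at hq
        obtain ⟨e, he, rfl⟩ := hq
        have := hAB e (Or.inl he)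
        exact Or.inr (Or.inl ⟨v, by simp, e, rfl, this.2.1, this.2.2.2.1⟩)
      · rcases List.mem_append.1 hq with hq | hq
        · rw [← List.map_reverse, List.map_map, List.mem_map] at hq
          obtain ⟨e, he, rfl⟩ := hq
          have := hAB e (Or.inr (List.mem_reverse.1 he))
          exact Or.inr (Or.inr ⟨v, by simp, e, rfl, this.2.1, this.2.2.2.1⟩)
        · rcases h3 q hq with h4 | ⟨u, hu, h4⟩ | ⟨u, hu, h4⟩
          · exact Or.inl h4
          · exact Or.inr (Or.inl ⟨u, List.mem_cons_of_mem _ hu, h4⟩)
          · exact Or.inr (Or.inr ⟨u, List.mem_cons_of_mem _ hu, h4⟩)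
    · simpa using r3

/-- From a sweep of the inner graph to a sweep of the hub graph. -/
theorem hub_run (h : IsLeveled lev lv up dn) (C : List (Strand X × Strand X))
    (hrun : Run up dn [] lv C []) (hC : GoodX C) :
    ∃ C', Run (hubUp lv up) (hubDn dn) [] (.P :: .Q :: lv.map .x) C' [] ∧ GoodX C' := by
  obtain ⟨C', h1, h2, h3⟩ := hub_run_aux h hrun rfl h.sorted (fun u v _ _ => h.all v)
    List.nodup_nil (by simp) hC.once
  refine ⟨C', ?_, ?_, h2⟩
  · have r1 : Run (hubUp lv up) (hubDn dn) (lv.reverse.map (fun v => (HV.P, HV.x v)) ++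
        (hubDn dn .Q).map (fun w => (w, .Q)) ++ []) (.Q :: lv.map .x) C' [] := by
      refine Run.vert _ _ _ _ _ _ ?_
      simpa [hubUp, Function.comp_def] using h1
    have r2 : Run (hubUp lv up) (hubDn dn) ([] ++ (hubDn dn .P).map (fun w => (w, .P)) ++ [])
        (.P :: .Q :: lv.map .x) C' [] := by
      refine Run.vert _ _ _ _ _ _ ?_
      simpa [hubUp, hubDn, Function.comp_def] using r1
    simpa [hubDn] using r2
  · intro q hq
    rcases h3 q hq with ⟨p, hp, rfl⟩ | ⟨v, -, e, rfl, h4, h5⟩ | ⟨v, -, e, rfl, h4, h5⟩
    · have := hC.indep p hp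
      simpa [inn] using this
    · simp only [inn, ne_eq, reduceCtorEq, not_false_eq_true, HV.x.injEq, true_and]
      exact ⟨Ne.symm h4, Ne.symm h5⟩
    · simp only [inn, ne_eq, reduceCtorEq, not_false_eq_true, HV.x.injEq, true_and]
      exact ⟨h4, h5⟩

end Pool.MP_b347ba_lc
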