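import Pool.Agent.Lib.MP_b347ba_lc_h80.Lam

/-!
# Level data of a good drawing of a hub graph
-/

namespace Pool.MP_b347ba_lc

open Set Filter Topology

variable {X : Type} {lev : X → ℕ} {lv : List X} {up dn : X → List X}
variable (D : GoodDrawing (hubRot lv up dn))

/-- The edge from `c` to `u` meets the level of `z` exactly once. -/
structure Meets (H K : HV X) (z c u : X) (s τ : ℝ) : Prop where
  adj : HV.x u ∈ hubRot lv up dn (.x c)
  s_mem : s ∈ Ioc (0 : ℝ) 1
  t_mem : τ ∈ Ioo (0 : ℝ) 2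
  eq : D.arc (.x c) (.x u) s = lam D H K z τ
  uniq : ∀ s' ∈ Icc (0 : ℝ) 1, ∀ τ' ∈ Icc (0 : ℝ) 2,
    D.arc (.x c) (.x u) s' = lam D H K z τ' → s' = s ∧ τ' = τ

theorem Meets.swap (h : IsLeveled lev lv up dn) {H K : HV X} (hH : Hubs H K) {z c u : X}
    {s τ : ℝ} (m : Meets D H K z c u s τ) : Meets D K H z c u s (2 - τ) where
  adj := m.adj
  s_mem := m.s_mem
  t_mem := ⟨by linarith [m.t_mem.2], by linarith [m.t_mem.1]⟩
  eq := by
    rw [m.eq, lam_rev D h hH (by linarith [m.t_mem.2]) (by linarith [m.t_mem.1]), sub_sub_cancel]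
  uniq := by
    intro s' hs' τ' hτ' e
    rw [lam_rev D h hH hτ'.1 hτ'.2] at e
    have := m.uniq s' hs' (2 - τ') ⟨by linarith [hτ'.2], by linarith [hτ'.1]⟩ e
    exact ⟨this.1, by linarith [this.2]⟩

theorem Pass.meets_up {z y x : X} {s τ : ℝ} (hx : x ∈ up y) (p : Pass D lev z y x s τ) :
    Meets D .P .Q z y x s τ where
  adj := adj_up hx
  s_mem := ⟨p.s_mem.1, p.s_mem.2.le⟩
  t_mem := p.t_mem
  eq := p.eq
  uniq := p.uniq

theorem Pass.meets_dn (h : IsLeveled lev lv up dn) {z y x : X} {s τ : ℝ} (hx : x ∈ up y)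
    (p : Pass D lev z y x s τ) : Meets D .P .Q z x y (1 - s) τ where
  adj := adj_dn ((h.symm _ _).1 hx)
  s_mem := ⟨by linarith [p.s_mem.2], by linarith [p.s_mem.1]⟩
  t_mem := p.t_mem
  eq := by
    rw [← p.eq, ← D.rev' (adj_up hx) ⟨p.s_mem.1.le, p.s_mem.2.le⟩]
  uniq := by
    intro s' hs' τ' hτ' e
    rw [D.rev' (adj_dn ((h.symm _ _).1 hx)) hs'] at e
    have := p.uniq (1 - s') ⟨by linarith [hs'.2], by linarith [hs'.1]⟩ τ' hτ' e
    exact ⟨by linarith [this.1], this.2⟩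

theorem meets_vert (h : IsLeveled lev lv up dn) {H K : HV X} (hH : Hubs H K) {z c : X}
    (hz : HV.x z ∈ hubRot lv up dn (.x c)) : Meets D H K z c z 1 1 where
  adj := hz
  s_mem := ⟨one_pos, le_rfl⟩
  t_mem := ⟨one_pos, one_lt_two⟩
  eq := by rw [D.tgt (hub_symm h) hz, lam_one D h hH]
  uniq := by
    intro s' hs' τ' hτ' e
    rcases le_total τ' 1 with h1 | h1
    · rw [lam_left D h1] at e
      exact D.meet_tgt (hub_symm h) hz (hH.adj h z) (hH.ne_x c).symm hs' ⟨hτ'.1, h1⟩ e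
    · rw [lam_right D h hH h1] at e
      have := D.meet_tgt_src (hub_symm h) hz (hH.symm.adj' z) (hH.symm.ne_x c).symm hs'
        ⟨by linarith, by linarith [hτ'.2]⟩ e
      exact ⟨this.1, by linarith [this.2]⟩

/-- Edges leaving a common vertex pass the level of `z` in the order given by the rotation. -/
theorem fan (h : IsLeveled lev lv up dn) {H K : HV X} (hH : Hubs H K) {z c u u' : X}
    (hzc : z ≠ c) (huu : u ≠ u') {s τ s' τ' : ℝ} (m : Meets D H K z c u s τ)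
    (m' : Meets D H K z c u' s' τ') (hlt : τ' < τ)
    (hS : Sep (D.pos (.x c)) (D.arc (.x c) (.x u')) (D.arc (.x c) (.x u)) (D.arc (.x c) H)
      (D.arc (.x c) K)) : False := by
  have hsy := hub_symm h
  have hcH : H ∈ hubRot lv up dn (.x c) := hH.adj' c
  have hcK : K ∈ hubRot lv up dn (.x c) := hH.symm.adj' c
  have hHc := hH.adj h c
  have hKc := hH.symm.adj h c
  have hxx : HV.x u ≠ HV.x u' := by simpa using huu
  have hs' : s' ∈ Icc (0 : ℝ) 1 := ⟨m'.s_mem.1.le, m'.s_mem.2⟩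
  have hs : s ∈ Icc (0 : ℝ) 1 := ⟨m.s_mem.1.le, m.s_mem.2⟩
  have subτ : uIcc 0 τ' ⊆ Icc (0 : ℝ) 2 := by
    rw [uIcc_of_le m'.t_mem.1.le]
    exact Icc_subset_Icc le_rfl m'.t_mem.2.le
  have subs : uIcc s' 0 ⊆ Icc (0 : ℝ) 1 := uIcc_subset_Icc hs' i0
  -- hub edge at c and the level of z
  have hcHz : ∀ r ∈ Icc (0 : ℝ) 1, ∀ t ∈ Icc (0 : ℝ) 2,
      D.arc (.x c) H r = lam D H K z t → r = 1 ∧ t = 0 := by
    intro r hr t ht e
    rw [D.rev' hcH hr] at e
    have := lam_meet_H D h hH hzc ht ⟨by linarith [hr.2], by linarith [hr.1]⟩ e.symm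
    exact ⟨by linarith [this.2], this.1⟩
  have hcKz : ∀ r ∈ Icc (0 : ℝ) 1, ∀ t ∈ Icc (0 : ℝ) 2,
      D.arc (.x c) K r = lam D H K z t → r = 1 ∧ t = 2 := by
    intro r hr t ht e
    rw [D.rev' hcK hr] at e
    have := lam_meet_K D h hH hzc ht ⟨by linarith [hr.2], by linarith [hr.1]⟩ e.symm
    exact ⟨by linarith [this.2], this.1⟩
  obtain ⟨χ, h1, ⟨h2, h3, h4⟩, -, -, -⟩ := tri (g₁ := lam D H K z)
    (g₂ := D.arc (.x c) (.x u')) (g₃ := D.arc (.x c) H) (a₁ := 0) (b₁ := τ') (a₂ := s')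
    (b₂ := 0) (a₃ := 0) (b₃ := 1) m'.t_mem.1.ne m'.s_mem.1.ne' zero_ne_one
    ((lam_cont D h hH z).mono subτ) (D.contOn m'.adj hs' i0) (D.contOn hcH i0 i1)
    ((lam_inj D h hH z).mono subτ) (D.injOn m'.adj hs' i0) (D.injOn hcH i0 i1) m'.eq.symm
    (by rw [D.src _ _ m'.adj, D.src _ _ hcH]) (by rw [D.tgt hsy hcH, lam_zero D h hH])
    (fun r hr t ht e => (m'.uniq t (subs ht) r (subτ hr) e.symm).2)
    (fun r hr t ht e => (D.meet_src m'.adj hcH (hH.ne_x u').symm (subs hr) (uIcc01 ▸ ht) e).1)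
    (fun r hr t ht e => (hcHz r (uIcc01 ▸ hr) t (subτ ht) e).1)
  rw [uIcc_of_le m'.t_mem.1.le, uIcc_of_ge m'.s_mem.1.le, uIcc01] at h1
  obtain ⟨v, hv1, hv2⟩ : ∃ v : Bool, Lim χ (D.arc (.x c) (.x u)) v ∧
      Lim χ (D.arc (.x c) K) (!v) := by
    rw [D.src _ _ hcH, dir_zero_one] at h4
    refine h4.opp (hS.along ?_ (Along.refl _) (Along.refl _) (Along.refl _))
      (D.tendsto_src m.adj) (D.tendsto_src hcK)
    have := dir_along_dir (g := D.arc (.x c) (.x u')) (a := 0) (c := s') (c' := 1)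
      (by nlinarith [m'.s_mem.1])
    rwa [dir_zero_one] at this
  -- the hub K
  have eK : χ (D.pos K) = !v := by
    have l0 : Lim χ (dir (D.arc (.x c) K) 0 1) (χ (D.arc (.x c) K 1)) := by
      refine h1.lim (D.contOn hcK i0 i1) (fun r hr hne => ?_) zero_ne_one
      rw [uIcc01] at hr
      rintro ((⟨t, ht, e⟩ | ⟨t, ht, e⟩) | ⟨t, ht, e⟩)
      · have := (hcKz r hr t ⟨ht.1, ht.2.trans m'.t_mem.2.le⟩ e.symm).2
        linarith [ht.2, m'.t_mem.2]
      · exact hne (D.meet_src hcK m'.adj (hH.symm.ne_x u') hr ⟨ht.1, ht.2.trans hs'.2⟩ e.symm).1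
      · exact hne (D.meet_src hcK hcH hH.ne.symm hr ht e.symm).1
    rw [dir_zero_one, D.tgt hsy hcK] at l0
    exact l0.unique hv2
  -- the point where the edge passes the level
  have eτ : χ (lam D H K z τ) = !v := by
    have := h1.path (isPreconnected_Icc (a := τ) (b := 2))
      ((lam_cont D h hH z).mono (Icc_subset_Icc m.t_mem.1.le le_rfl))
      (fun r hr => by
        have hr2 : r ∈ Icc (0 : ℝ) 2 := ⟨by linarith [hr.1, m.t_mem.1], hr.2⟩
        rintro ((⟨t, ht, e⟩ | ⟨t, ht, e⟩) | ⟨t, ht, e⟩)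
        · have := lam_inj D h hH z ⟨ht.1, by linarith [ht.2, m'.t_mem.2]⟩ hr2 e
          linarith [ht.2, hr.1]
        · have := (m'.uniq t ⟨ht.1, ht.2.trans hs'.2⟩ r hr2 e).2
          linarith [hr.1]
        · have := (hcHz t ht r hr2 e).2
          linarith [hr.1, m.t_mem.1]) ⟨le_rfl, m.t_mem.2.le⟩ ⟨m.t_mem.2.le, le_rfl⟩
    rw [this, lam_two D h hH, eK]
  have eu : χ (D.arc (.x c) (.x u) s) = v := by
    have l0 : Lim χ (dir (D.arc (.x c) (.x u)) 0 s) (χ (D.arc (.x c) (.x u) s)) := by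
      refine h1.lim (D.contOn m.adj i0 hs) (fun r hr hne => ?_) m.s_mem.1.ne
      rw [uIcc_of_le hs.1] at hr
      have hr1 : r ∈ Icc (0 : ℝ) 1 := ⟨hr.1, hr.2.trans hs.2⟩
      rintro ((⟨t, ht, e⟩ | ⟨t, ht, e⟩) | ⟨t, ht, e⟩)
      · have := (m.uniq r hr1 t ⟨ht.1, by linarith [ht.2, m'.t_mem.2]⟩ e.symm).2
        linarith [ht.2]
      · exact hne (D.meet_src m.adj m'.adj hxx hr1 ⟨ht.1, ht.2.trans hs'.2⟩ e.symm).1
      · exact hne (D.meet_src m.adj hcH (hH.ne_x u).symm hr1 ht e.symm).1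
    refine l0.unique (hv1.along ?_)
    have := dir_along_dir (g := D.arc (.x c) (.x u)) (a := 0) (c := s) (c' := 1)
      (by nlinarith [m.s_mem.1])
    rwa [dir_zero_one] at this
  rw [m.eq, eτ] at eu
  simp at eu

theorem crosses_lam (h : IsLeveled lev lv up dn) {z y x : X} {s τ : ℝ} (hx : x ∈ up y)
    (p : Pass D lev z y x s τ) :
    Crosses (lam D .P .Q z) τ (D.arc (.x y) (.x x)) s := by
  have hH : Hubs (X := X) .P .Q := Or.inl ⟨rfl, rfl⟩
  have hyx : HV.x x ∈ hubRot lv up dn (.x y) := adj_up hx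
  rcases lt_or_gt_of_ne p.ne_one with h1 | h1
  · have e : lam D .P .Q z τ = D.arc .P (.x z) τ := lam_left D h1.le
    have hX : Sep _ _ _ _ _ := D.proper .P (.x z) (.x y) (.x x) (adj_Pz h z) hyx (by simp) τ
      ⟨p.t_mem.1, h1⟩ s p.s_mem (by rw [← e, p.eq])
    rw [← e] at hX
    refine hX.along (Along.of_eq ⟨1 - τ, by linarith, fun t ht => ?_⟩) (Along.refl _)
      (Along.of_eq ⟨1, one_pos, fun t ht => ?_⟩) (Along.refl _)
    · exact lam_left D (by linarith [ht.2])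
    · exact lam_left D (by linarith [ht.1])
  · have e : lam D .P .Q z τ = D.arc (.x z) .Q (τ - 1) := lam_right D h hH h1.le
    have hX : Sep _ _ _ _ _ := D.proper (.x z) .Q (.x y) (.x x) (adj_zQ z) hyx (by simp) (τ - 1)
      ⟨by linarith, by linarith [p.t_mem.2]⟩ s p.s_mem (by rw [← e, p.eq])
    rw [← e] at hX
    refine hX.along (Along.of_eq ⟨1, one_pos, fun t ht => ?_⟩) (Along.refl _)
      (Along.of_eq ⟨τ - 1, by linarith, fun t ht => ?_⟩) (Along.refl _)
    · rw [lam_right D h hH (by linarith [ht.1])]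
      congr 1
      ring
    · rw [lam_right D h hH (by linarith [ht.2])]
      congr 1
      ring

theorem pass_order (h : IsLeveled lev lv up dn) {z z' y x : X} (hz : lev z' < lev z)
    {s τ s' τ' : ℝ} (p : Pass D lev z y x s τ) (p' : Pass D lev z' y x s' τ') : s' < s := by
  have hH : Hubs (X := X) .P .Q := Or.inl ⟨rfl, rfl⟩
  obtain ⟨χ, hχ⟩ := exists_fence D h z'
  have e1 : χ (D.arc (.x y) (.x x) s) = false := by
    rw [p.eq]
    exact (side_high D h hz hχ).2.2.2 τ p.t_mem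
  rcases lt_trichotomy s s' with h1 | h1 | h1
  · have := p'.before χ hχ s ⟨p.s_mem.1.le, h1⟩
    rw [e1] at this
    simp at this
  · exfalso
    have e2 := p'.eq
    rw [← h1, p.eq] at e2
    rcases lam_meet D h hH (ne_of_lev hz) ⟨p.t_mem.1.le, p.t_mem.2.le⟩
      ⟨p'.t_mem.1.le, p'.t_mem.2.le⟩ e2 with ⟨a, b⟩ | ⟨a, b⟩
    · exact p.t_mem.1.ne' a
    · exact p.t_mem.2.ne a
  · exact h1

/-- If two edges pass two levels in different orders then they cross between these levels. -/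
theorem reversal (h : IsLeveled lev lv up dn) {z z' y x y' x' : X} (hx : x ∈ up y)
    (hx' : x' ∈ up y') (hz : lev z' < lev z) (hy' : lev y' < lev z')
    {s τ s' τ' s₁ τ₁ s₁' τ₁' : ℝ}
    (p : Pass D lev z y x s τ) (p' : Pass D lev z' y x s' τ') (q : Pass D lev z y' x' s₁ τ₁)
    (q' : Pass D lev z' y' x' s₁' τ₁') (h1 : τ < τ₁) (h2 : τ₁' < τ') :
    ∃ r ∈ Ioo s' s, ∃ r' ∈ Icc (0 : ℝ) 1, D.arc (.x y) (.x x) r = D.arc (.x y') (.x x') r' := by
  by_contra hcon
  push Not at hcon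
  have hsy := hub_symm h
  have hH : Hubs (X := X) .P .Q := Or.inl ⟨rfl, rfl⟩
  have hyx : HV.x x ∈ hubRot lv up dn (.x y) := adj_up hx
  have hyx' : HV.x x' ∈ hubRot lv up dn (.x y') := adj_up hx'
  have hQy' := adj_Qz h y'
  have hss : s' < s := pass_order D h hz p p'
  have hss' : s₁' < s₁ := pass_order D h hz q q'
  have hs : s ∈ Icc (0 : ℝ) 1 := ⟨p.s_mem.1.le, p.s_mem.2.le⟩
  have hs' : s' ∈ Icc (0 : ℝ) 1 := ⟨p'.s_mem.1.le, p'.s_mem.2.le⟩
  have hs₁ : s₁ ∈ Icc (0 : ℝ) 1 := ⟨q.s_mem.1.le, q.s_mem.2.le⟩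
  have hs₁' : s₁' ∈ Icc (0 : ℝ) 1 := ⟨q'.s_mem.1.le, q'.s_mem.2.le⟩
  have hτ : τ ∈ Icc (0 : ℝ) 2 := ⟨p.t_mem.1.le, p.t_mem.2.le⟩
  have hτ' : τ' ∈ Icc (0 : ℝ) 2 := ⟨p'.t_mem.1.le, p'.t_mem.2.le⟩
  have h02 : (0 : ℝ) ∈ Icc (0 : ℝ) 2 := ⟨le_rfl, by norm_num⟩
  -- the two edges do not meet between the two levels
  have hnm : ∀ r ∈ Icc s' s, ∀ r' ∈ Icc (0 : ℝ) 1,
      D.arc (.x y) (.x x) r ≠ D.arc (.x y') (.x x') r' := by
    intro r hr r' hr' e
    rcases hr.1.eq_or_lt with g | g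
    · rw [← g, p'.eq] at e
      have := (q'.uniq r' hr' τ' hτ' e.symm).2
      linarith
    · rcases hr.2.eq_or_lt with g' | g'
      · rw [g', p.eq] at e
        have := (q.uniq r' hr' τ hτ e.symm).2
        linarith
      · exact hcon r ⟨g, g'⟩ r' hr' e
  have sub1 : uIcc 0 τ ⊆ Icc (0 : ℝ) 2 := uIcc_subset_Icc h02 hτ
  have sub3 : uIcc τ' 0 ⊆ Icc (0 : ℝ) 2 := uIcc_subset_Icc hτ' h02
  have sub2 : uIcc s s' ⊆ Icc (0 : ℝ) 1 := uIcc_subset_Icc hs hs'
  obtain ⟨χ, c1, -, -, -, c7⟩ := tri (g₁ := lam D .P .Q z)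
    (g₂ := D.arc (.x y) (.x x)) (g₃ := lam D .P .Q z') (a₁ := 0) (b₁ := τ) (a₂ := s)
    (b₂ := s') (a₃ := τ') (b₃ := 0) p.t_mem.1.ne hss.ne' p'.t_mem.1.ne'
    ((lam_cont D h hH z).mono sub1) (D.contOn hyx hs hs') ((lam_cont D h hH z').mono sub3)
    ((lam_inj D h hH z).mono sub1) (D.injOn hyx hs hs') ((lam_inj D h hH z').mono sub3)
    p.eq.symm p'.eq (by rw [lam_zero D h hH, lam_zero D h hH])
    (fun r hr t ht e => (p.uniq t (sub2 ht) r (sub1 hr) e.symm).2)
    (fun r hr t ht e => (p'.uniq r (sub2 hr) t (sub3 ht) e).1)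
    (fun r hr t ht e => by
      rcases lam_meet D h hH (ne_of_lev' hz) (sub3 hr) (sub1 ht) e with ⟨a, b⟩ | ⟨a, b⟩
      · exact a
      · rw [uIcc_of_le p.t_mem.1.le] at ht
        linarith [ht.2, p.t_mem.2])
  rw [uIcc_of_le p.t_mem.1.le, uIcc_of_ge hss.le, uIcc_of_ge p'.t_mem.1.le] at c1
  -- the level of z beyond the first edge
  have e1 : χ (lam D .P .Q z τ₁) = χ (D.pos .Q) := by
    have := c1.path (isPreconnected_Icc (a := τ₁) (b := 2))
      ((lam_cont D h hH z).mono (Icc_subset_Icc q.t_mem.1.le le_rfl))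
      (fun r hr => by
        have hr2 : r ∈ Icc (0 : ℝ) 2 := ⟨by linarith [hr.1, q.t_mem.1], hr.2⟩
        rintro ((⟨t, ht, e⟩ | ⟨t, ht, e⟩) | ⟨t, ht, e⟩)
        · have := lam_inj D h hH z ⟨ht.1, by linarith [ht.2, p.t_mem.2]⟩ hr2 e
          linarith [ht.2, hr.1]
        · have := (p.uniq t ⟨by linarith [ht.1, hs'.1], by linarith [ht.2, hs.2]⟩ r hr2 e).2
          linarith [hr.1]
        · rcases lam_meet D h hH (ne_of_lev' hz) ⟨ht.1, by linarith [ht.2, hτ'.2]⟩ hr2 e with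
            ⟨a, b⟩ | ⟨a, b⟩
          · linarith [hr.1, q.t_mem.1]
          · linarith [ht.2, p'.t_mem.2]) ⟨le_rfl, q.t_mem.2.le⟩ ⟨q.t_mem.2.le, le_rfl⟩
    rw [this, lam_two D h hH]
  -- the second edge crosses the curve exactly once
  have hav : ∀ r ∈ Icc (0 : ℝ) 1, r ≠ s₁' → D.arc (.x y') (.x x') r ∉
      lam D .P .Q z '' Icc 0 τ ∪ D.arc (.x y) (.x x) '' Icc s' s ∪
        lam D .P .Q z' '' Icc 0 τ' := by
    rintro r hr hne ((⟨t, ht, e⟩ | ⟨t, ht, e⟩) | ⟨t, ht, e⟩)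
    · have := (q.uniq r hr t ⟨ht.1, by linarith [ht.2, hτ.2]⟩ e.symm).2
      linarith [ht.2]
    · exact hnm t ht r hr e
    · exact hne (q'.uniq r hr t ⟨ht.1, by linarith [ht.2, hτ'.2]⟩ e.symm).1
  have e2 : χ (D.arc (.x y') (.x x') s₁) = !χ (D.arc (.x y') (.x x') 0) := by
    have hBr := c7 τ₁' (by
      rw [uIcc_of_ge p'.t_mem.1.le]
      exact ⟨q'.t_mem.1.le, h2.le⟩) h2.ne q'.t_mem.1.ne'
    have hX := cross_rule (crosses_lam D h hx' q') hBr (Or.inr ⟨q'.t_mem.1, h2⟩) q'.eq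
      (D.contOn hyx' hs₁' i0) (D.contOn hyx' hs₁' hs₁) q'.s_mem.1 hss'
    exact flip_rule c1 (D.contOn hyx' hs₁' i0) (D.contOn hyx' hs₁' hs₁) q'.s_mem.1 hss' hX
      (fun r hr => hav r ⟨hr.1, by linarith [hr.2, hs₁'.2]⟩ hr.2.ne)
      (fun r hr => hav r ⟨by linarith [hr.1, hs₁'.1], by linarith [hr.2, hs₁.2]⟩ hr.1.ne')
  -- the edge from Q to y'
  obtain ⟨χ', hχ'⟩ := exists_fence D h z'
  have e3 : χ (D.pos .Q) = χ (D.pos (.x y')) := by
    have := c1.path (isPreconnected_Icc (a := (0 : ℝ)) (b := 1)) (D.cont _ _ hQy')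
      (fun r hr => by
        rintro ((⟨t, ht, e⟩ | ⟨t, ht, e⟩) | ⟨t, ht, e⟩)
        · have := (lam_meet_K D h hH (ne_of_lev (hy'.trans hz)) ⟨ht.1, by linarith [ht.2, hτ.2]⟩
            hr e).1
          linarith [ht.2, p.t_mem.2]
        · rcases ht.1.eq_or_lt with g | g
          · rw [← g, p'.eq] at e
            have := (lam_meet_K D h hH (ne_of_lev hy') hτ' hr e).1
            linarith [p'.t_mem.2]
          · have a1 := p'.after χ' hχ' t ⟨g, by linarith [ht.2, hs.2]⟩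
            rw [e] at a1
            rcases hr.1.eq_or_lt with g' | g'
            · rw [← g', D.src _ _ hQy'] at e
              exact D.avoid _ _ hyx t ⟨by linarith [p'.s_mem.1], by linarith [ht.2, p.s_mem.2]⟩
                _ e
            · have a2 := (side_low D h hy' hχ').2.1 r ⟨g', hr.2⟩
              rw [a1] at a2
              simp at a2
        · have := (lam_meet_K D h hH (ne_of_lev hy') ⟨ht.1, by linarith [ht.2, hτ'.2]⟩ hr e).1
          linarith [ht.2, p'.t_mem.2]) i0 i1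
    rwa [D.src _ _ hQy', D.tgt hsy hQy'] at this
  rw [q.eq, e1, D.src _ _ hyx', e3] at e2
  simp at e2

theorem sublist_ne {l : List X} (hl : l.Nodup) {a b : X} (h : [a, b].Sublist l) : a ≠ b := by
  have := hl.sublist h
  simpa using this

theorem rot_dn (D : GoodDrawing (hubRot lv up dn)) {x a b : X} (hs : [a, b].Sublist (dn x)) :
    LeaveCW (D.pos (.x x)) [D.arc (.x x) .Q, D.arc (.x x) (.x b), D.arc (.x x) (.x a),
      D.arc (.x x) .P] := by
  have hl2 : [HV.Q, .x b, .x a, .P].Sublist (hubRot lv up dn (.x x)) := by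
    have h1 : [HV.x b, .x a, .P].Sublist ((dn x).reverse.map .x ++ [.P]) := by
      simpa using (hs.reverse.map HV.x).append_right [HV.P]
    exact (List.Sublist.cons_cons HV.Q h1).trans (List.sublist_append_right _ _)
  simpa using (D.rotation (.x x)).sublist (hl2.map (D.arc (.x x)))

theorem rot_up (D : GoodDrawing (hubRot lv up dn)) {y a b : X} (hs : [a, b].Sublist (up y)) :
    LeaveCW (D.pos (.x y)) [D.arc (.x y) (.x a), D.arc (.x y) (.x b), D.arc (.x y) .Q,
      D.arc (.x y) .P] := by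
  have hl2 : [HV.x a, .x b, .Q, .P].Sublist (hubRot lv up dn (.x y)) := by
    have h1 : [HV.Q, .P].Sublist (.Q :: ((dn y).reverse.map .x ++ [.P])) :=
      List.Sublist.cons_cons HV.Q (by simp)
    have := (hs.map HV.x).append h1
    simpa [hubRot] using this
  simpa using (D.rotation (.x y)).sublist (hl2.map (D.arc (.x y)))

/-- Every good drawing of a hub graph yields level data. -/
theorem exists_levelData (h : IsLeveled lev lv up dn) (hD : Realizable (hubRot lv up dn)) :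
    Nonempty (LevelData lev up dn) := by
  obtain ⟨D⟩ := hD
  have hH : Hubs (X := X) .P .Q := Or.inl ⟨rfl, rfl⟩
  have hH' : Hubs (X := X) .Q .P := Or.inr ⟨rfl, rfl⟩
  have key : ∀ (z : X) (e : X × X), ∃ s τ : ℝ, (e.2 ∈ up e.1 → lev e.1 < lev z →
      lev z < lev e.2 → Pass D lev z e.1 e.2 s τ) := by
    intro z e
    by_cases hc : e.2 ∈ up e.1 ∧ lev e.1 < lev z ∧ lev z < lev e.2
    · obtain ⟨s, τ, p⟩ := exists_pass D h hc.1 hc.2.1 hc.2.2
      exact ⟨s, τ, fun _ _ _ => p⟩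
    · exact ⟨0, 0, fun h1 h2 h3 => absurd ⟨h1, h2, h3⟩ hc⟩
  choose s τ hp using key
  have hpass : ∀ z y x, x ∈ up y → lev y < lev z → lev z < lev x →
      Pass D lev z y x (s z (y, x)) (τ z (y, x)) := fun z y x => hp z (y, x)
  have hinj : ∀ z y x y' x', x ∈ up y → x' ∈ up y' → lev y < lev z → lev z < lev x →
      lev y' < lev z → lev z < lev x' → (y, x) ≠ (y', x') → τ z (y, x) ≠ τ z (y', x') := by
    intro z y x y' x' hx hx' h1 h2 h3 h4 hne he
    have p := hpass z y x hx h1 h2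
    have p' := hpass z y' x' hx' h3 h4
    have n1 : s(HV.x y, HV.x x) ≠ s(HV.x y', HV.x x') := by
      intro hcon
      rw [Sym2.eq_iff] at hcon
      simp only [HV.x.injEq] at hcon
      rcases hcon with ⟨a, b⟩ | ⟨a, b⟩
      · exact hne (by rw [a, b])
      · rw [← b] at h3
        omega
    have e := p'.eq
    rw [← he] at e
    rcases lt_or_gt_of_ne p.ne_one with g | g
    · have e1 := p.eq
      rw [lam_left D g.le] at e e1
      exact D.triple (.x y) (.x x) .P (.x z) (.x y') (.x x') (adj_up hx) (adj_Pz h z)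
        (adj_up hx') (by simp) (by simp) n1.symm _ p.s_mem _ ⟨p.t_mem.1, g⟩ _ p'.s_mem e1
        e.symm
    · have e1 := p.eq
      rw [lam_right D h hH g.le] at e e1
      exact D.triple (.x y) (.x x) (.x z) .Q (.x y') (.x x') (adj_up hx) (adj_zQ z)
        (adj_up hx') (by simp) (by simp) n1.symm _ p.s_mem _
        ⟨by linarith, by linarith [p.t_mem.2]⟩ _ p'.s_mem e1 e.symm
  refine ⟨⟨fun z e => τ z e - 1, ?_, ?_, ?_, ?_, ?_, ?_, ?_, ?_⟩⟩
  · intro z y x y' x' hx hx' h1 h2 h3 h4 hne he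
    exact hinj z y x y' x' hx hx' h1 h2 h3 h4 hne (by linarith)
  · -- top
    intro z x y y' hsub h1 h2 h3
    have hyy := sublist_ne (h.dn_nodup x) hsub
    have hx : x ∈ up y := (h.symm _ _).2 (hsub.subset (by simp))
    have hx' : x ∈ up y' := (h.symm _ _).2 (hsub.subset (by simp))
    have hne := hinj z y x y' x hx hx' h1 h3 h2 h3 (by simpa using hyy)
    by_contra hcon
    have hlt : τ z (y', x) < τ z (y, x) := lt_of_le_of_ne (by linarith) hne.symm
    exact fan D h hH (ne_of_lev' h3) hyy ((hpass z y x hx h1 h3).meets_dn D h hx)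
      ((hpass z y' x hx' h2 h3).meets_dn D h hx') hlt (Or.inl (rot_dn D hsub).turn)
  · -- top_left
    intro x y z hsub h1
    have hyz := sublist_ne (h.dn_nodup x) hsub
    have hx : x ∈ up y := (h.symm _ _).2 (hsub.subset (by simp))
    have hxz : x ∈ up z := (h.symm _ _).2 (hsub.subset (by simp))
    have h3 := h.mono _ _ hxz
    have p := hpass z y x hx h1 h3
    by_contra hcon
    have hlt : 1 < τ z (y, x) := lt_of_le_of_ne (by linarith) p.ne_one.symm
    exact fan D h hH (ne_of_lev' h3) hyz (p.meets_dn D h hx)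
      (meets_vert D h hH (adj_dn ((h.symm _ _).1 hxz))) hlt (Or.inl (rot_dn D hsub).turn)
  · -- top_right
    intro x y z hsub h1
    have hyz := (sublist_ne (h.dn_nodup x) hsub).symm
    have hx : x ∈ up y := (h.symm _ _).2 (hsub.subset (by simp))
    have hxz : x ∈ up z := (h.symm _ _).2 (hsub.subset (by simp))
    have h3 := h.mono _ _ hxz
    have p := hpass z y x hx h1 h3
    by_contra hcon
    have hlt : τ z (y, x) < 1 := lt_of_le_of_ne (by linarith) p.ne_one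
    exact fan D h hH' (ne_of_lev' h3) hyz ((p.meets_dn D h hx).swap D h hH)
      (meets_vert D h hH' (adj_dn ((h.symm _ _).1 hxz))) (by linarith)
      (Or.inr (rot_dn D hsub).turn.turn)
  · -- bot
    intro z y x x' hsub h1 h2 h3
    have hxx := sublist_ne (h.up_nodup y) hsub
    have hx : x ∈ up y := hsub.subset (by simp)
    have hx' : x' ∈ up y := hsub.subset (by simp)
    have hne := hinj z y x y x' hx hx' h1 h2 h1 h3 (by simpa using hxx)
    by_contra hcon
    have hlt : τ z (y, x') < τ z (y, x) := lt_of_le_of_ne (by linarith) hne.symm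
    exact fan D h hH (ne_of_lev h1) hxx ((hpass z y x hx h1 h2).meets_up D hx)
      ((hpass z y x' hx' h1 h3).meets_up D hx') hlt (Or.inr (rot_up D hsub).turn)
  · -- bot_left
    intro y x z hsub h1
    have hxz := sublist_ne (h.up_nodup y) hsub
    have hx : x ∈ up y := hsub.subset (by simp)
    have hz : z ∈ up y := hsub.subset (by simp)
    have h3 := h.mono _ _ hz
    have p := hpass z y x hx h3 h1
    by_contra hcon
    have hlt : 1 < τ z (y, x) := lt_of_le_of_ne (by linarith) p.ne_one.symm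
    exact fan D h hH (ne_of_lev h3) hxz (p.meets_up D hx) (meets_vert D h hH (adj_up hz)) hlt
      (Or.inr (rot_up D hsub).turn)
  · -- bot_right
    intro y x z hsub h1
    have hxz := (sublist_ne (h.up_nodup y) hsub).symm
    have hx : x ∈ up y := hsub.subset (by simp)
    have hz : z ∈ up y := hsub.subset (by simp)
    have h3 := h.mono _ _ hz
    have p := hpass z y x hx h3 h1
    by_contra hcon
    have hlt : τ z (y, x) < 1 := lt_of_le_of_ne (by linarith) p.ne_one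
    exact fan D h hH' (ne_of_lev h3) hxz ((p.meets_up D hx).swap D h hH)
      (meets_vert D h hH' (adj_up hz)) (by linarith) (Or.inl (rot_up D hsub))
  · -- once
    intro y x y' x' z₁ z₂ z₃ hx hx' hyy hxx l1 l2 l3 l4 l5 l6 t1 t2 t3
    have p1 := hpass z₁ y x hx (by omega) (by omega)
    have p2 := hpass z₂ y x hx (by omega) (by omega)
    have p3 := hpass z₃ y x hx (by omega) (by omega)
    have q1 := hpass z₁ y' x' hx' (by omega) (by omega)
    have q2 := hpass z₂ y' x' hx' (by omega) (by omega)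
    have q3 := hpass z₃ y' x' hx' (by omega) (by omega)
    obtain ⟨r, hr, r', hr', e⟩ := reversal D h hx hx' l4 (by omega) p1 p2 q1 q2
      (by linarith) (by linarith)
    obtain ⟨a, ha, a', ha', e'⟩ := reversal D h hx' hx l3 (by omega) q2 q3 p2 p3
      (by linarith) (by linarith)
    have hr1 : r ∈ Icc (0 : ℝ) 1 := ⟨by linarith [hr.1, p2.s_mem.1], by linarith [hr.2, p1.s_mem.2]⟩
    have ha1 : a ∈ Icc (0 : ℝ) 1 := ⟨by linarith [ha.1, q3.s_mem.1], by linarith [ha.2, q2.s_mem.2]⟩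
    have n1 : s(HV.x y, HV.x x) ≠ s(HV.x y', HV.x x') := by
      intro hcon
      rw [Sym2.eq_iff] at hcon
      simp only [HV.x.injEq] at hcon
      rcases hcon with ⟨a, b⟩ | ⟨a, b⟩
      · exact hyy a
      · rw [b] at l5
        omega
    have hu := D.once' (adj_up hx) (adj_up hx') n1 hr1 hr' ha' ha1 e e'.symm
    obtain ⟨χ, hχ⟩ := exists_fence D h z₂
    have c1 := p2.after χ hχ r ⟨hr.1, hr1.2⟩
    have c2 := q2.before χ hχ a ⟨ha1.1, ha.2⟩
    rw [e, hu.2, c2] at c1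
    simp at c1

end Pool.MP_b347ba_lc
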