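import Pool.Agent.Lib.MP_b347ba_lc_h80.Problem
import Pool.Agent.Lib.MP_b347ba_lc_h80.Levels
import Pool.Agent.Lib.MP_b347ba_lc_h80.HubRun
import Pool.Agent.Lib.MP_b347ba_lc_h69.Realize
import Pool.Agent.Lib.MP_b347ba_lc_h71.Code
import Pool.Agent.Lib.MP_b347ba_lc_h79.Leveled
import Pool.Agent.Lib.MP_b347ba_lc_h79.SatOf
import Pool.Agent.Lib.MP_b347ba_lc_h79.SatRun
import Pool.Agent.Lib.MP_75fd85_lc.Final

/-!
# Assembling the reduction
-/

namespace Pool.MP_b347ba_lc

/-- The hub graph of a formula has a good drawing realizing its rotation system if and only if the
formula is satisfiable. -/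
theorem realizable_iff_sat {n m : ℕ} (hn : 0 < n) (cl : Fin m → Finset (Lit n)) :
    Realizable (satRot cl) ↔ Sat cl := by
  have hl := isLeveled cl
  constructor
  · intro h
    obtain ⟨D⟩ := exists_levelData hl h
    exact sat_of_levelData hn cl D
  · intro h
    obtain ⟨C, hC, hG⟩ := sat_run cl h
    obtain ⟨C', hC', hG'⟩ := hub_run hl C hC hG
    have hnd : (lvs n m).Nodup := hl.sorted.imp (by intro a b hab; rintro rfl; omega)
    have := realizable_of_run _ _ _ _ hC'
      (by
        intro v
        cases v with
        | P => simp
        | Q => simp
        | x v => simpa using hl.all v)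
      (by
        simp only [List.nodup_cons, List.mem_cons, List.mem_map, reduceCtorEq, and_false,
          exists_false, or_false, not_false_eq_true, true_and]
        exact hnd.map fun a b hab => by simpa using hab)
      hG'
      (by
        intro v
        cases v with
        | P =>
          simp only [hubUp]
          rw [List.nodup_append]
          refine ⟨(List.nodup_reverse.2 hnd).map fun a b hab => by simpa using hab, by simp, ?_⟩
          simp
        | Q => exact hnd.map fun a b hab => by simpa using hab
        | x v => exact (hl.up_nodup v).map fun a b hab => by simpa using hab)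
      (by
        intro v
        cases v with
        | P => simp [hubDn]
        | Q => simp [hubDn]
        | x v =>
          simp only [hubDn, List.nodup_cons, List.nodup_append]
          refine ⟨by simp, (hl.dn_nodup v).map fun a b hab => by simpa using hab, by simp, ?_⟩
          simp)
      (by
        intro v w
        cases v <;> cases w <;> simp [hubUp, hubDn, hl.all, hl.symm])
    have e : (fun v => hubUp (lvs n m) (up cl) v ++ (hubDn (dn cl) v).reverse) = satRot cl := by
      funext v
      exact hubRot_eq _ _ _ _
    rwa [e] at this

/-- Correctness of the reduction on the level of words. -/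
theorem code_iff_sat {n m : ℕ} (hn : 0 < n) (cl : Fin m → Finset (Lit n)) :
    codeL (.P :: .Q :: (lvs n m).map .x) (satRot cl) ∈ GRR ↔ Sat cl := by
  have hl := isLeveled cl
  have hnd : (lvs n m).Nodup := hl.sorted.imp (by intro a b hab; rintro rfl; omega)
  obtain ⟨R, hR, hRr⟩ := codeL_eq (.P :: .Q :: (lvs n m).map .x) (satRot cl)
    (by
      simp only [List.nodup_cons, List.mem_cons, List.mem_map, reduceCtorEq, and_false,
        exists_false, or_false, not_false_eq_true, true_and]
      exact hnd.map fun a b hab => by simpa using hab)
    (by
      intro v
      cases v with
      | P => simp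
      | Q => simp
      | x v => simpa using hl.all v)
    (by
      intro v
      cases v with
      | P =>
        simp only [satRot, hubRot, List.nodup_append]
        refine ⟨(List.nodup_reverse.2 hnd).map fun a b hab => by simpa using hab, by simp, ?_⟩
        simp
      | Q =>
        simp only [satRot, hubRot, List.nodup_append]
        refine ⟨hnd.map fun a b hab => by simpa using hab, by simp, ?_⟩
        simp
      | x v =>
        simp only [satRot, hubRot, List.nodup_append, List.nodup_cons]
        refine ⟨(hl.up_nodup v).map fun a b hab => by simpa using hab,
          ⟨by simp, (List.nodup_reverse.2 (hl.dn_nodup v)).map fun a b hab => by simpa using hab,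
            by simp, by simp⟩, ?_⟩
        intro a ha b hb hab
        subst hab
        obtain ⟨w, hw, rfl⟩ := List.mem_map.1 ha
        simp only [List.mem_cons, List.mem_append, List.mem_map, List.mem_reverse,
          List.not_mem_nil, or_false, reduceCtorEq, false_or] at hb
        obtain ⟨w', hw', he⟩ := hb
        have he : w' = w := by simpa using he
        subst he
        have h1 := hl.mono _ _ hw
        have h2 := hl.mono _ _ ((hl.symm _ _).2 hw')
        omega)
    (by
      intro v
      cases v with
      | P => simp [satRot, hubRot]
      | Q => simp [satRot, hubRot]
      | x v =>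
        simp only [satRot, hubRot, List.mem_append, List.mem_map, List.mem_cons,
          List.mem_reverse, List.not_mem_nil, or_false, reduceCtorEq, false_or]
        rintro (⟨w, hw, he⟩ | ⟨w, hw, he⟩)
        · have he : w = v := by simpa using he
          subst he
          have h1 := hl.mono _ _ hw
          omega
        · have he : w = v := by simpa using he
          subst he
          have h1 := hl.mono _ _ ((hl.symm _ _).2 hw)
          omega)
    (by
      intro u v
      cases u <;> cases v <;> simp [satRot, hubRot, hl.all]
      rename_i a b
      rintro (h | h)
      · exact Or.inr ((hl.symm _ _).1 h)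
      · exact Or.inl ((hl.symm _ _).2 h))
  rw [← realizable_iff_sat hn cl, ← hRr, ← hR]
  constructor
  · rintro ⟨R', hR', h'⟩
    rw [code_injective hR']
    exact h'
  · intro h
    exact ⟨R, rfl, h⟩

end Pool.MP_b347ba_lc
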