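import Pool.Agent.Lib.MP_b347ba_lc_h80.Wind

/-!
# Winding numbers on both sides of a simple closed curve
-/

namespace Pool.MP_b347ba_lc.J

open Set Complex

theorem log_ray {r α : ℝ} (hr : 0 < r) (h1 : -Real.pi < α) (h2 : α ≤ Real.pi) :
    log (r * exp (α * I)) = Real.log r + α * I := by
  have e : (r * exp (α * I) : ℂ) = exp (Real.log r + α * I) := by
    rw [exp_add, ← ofReal_exp, Real.exp_log hr]
  rw [e, log_exp]
  · simpa using h1
  · simpa using h2

theorem ray_slit {r α : ℝ} (hr : 0 < r) (h1 : -Real.pi < α) (h2 : α < Real.pi) :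
    (r * exp (α * I) : ℂ) ∈ slitPlane := by
  rw [mem_slitPlane_iff_arg]
  constructor
  · rw [arg_real_mul _ hr, arg_exp_mul_I, toIocMod_eq_self _ |>.2 ⟨h1, by linarith⟩]
    exact h2.ne
  · exact mul_ne_zero (by exact_mod_cast hr.ne') (exp_ne_zero _)

/-- A nonnegative combination of `1` and a ray which is not opposite lies in the slit plane. -/
theorem comb_slit {x y α : ℝ} (hx : 0 ≤ x) (hy : 0 ≤ y) (hxy : 0 < x + y) (h1 : -Real.pi < α)
    (h2 : α < Real.pi) : (x + y * exp (α * I) : ℂ) ∈ slitPlane := by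
  rcases hy.eq_or_lt with rfl | hy
  · simp only [ofReal_zero, zero_mul, add_zero]
    exact ofReal_mem_slitPlane.2 (by linarith)
  · have h := ray_slit hy h1 h2
    rw [mem_slitPlane_iff] at h ⊢
    rcases h with h | h
    · left
      simp only [add_re, ofReal_re]
      linarith
    · right
      simpa using h

/-- Winding number near a point where the curve consists of two straight rays. -/
theorem core {γ : ℝ → ℂ} {T : ℝ} (hγ : Loop γ T) {m : ℤ} (hm : IsTurn γ T m)
    {s δ θo θi φ : ℝ} (hδ : 0 < δ)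
    (ho : ∀ t ∈ Ioo 0 δ, ∃ r : ℝ, 0 < r ∧ γ (s + t) = γ s + r * exp (θo * I))
    (hi : ∀ t ∈ Ioo 0 δ, ∃ r : ℝ, 0 < r ∧ γ (s - t) = γ s + r * exp (θi * I))
    (h1 : θo < θi) (h2 : θi < θo + 2 * Real.pi) (β : ℝ) (j : ℤ)
    (hβ : β = θi - φ - Real.pi ∧ j = m ∨ β = θi - φ + Real.pi ∧ j = m - 1)
    (hβ1 : -Real.pi < β) (hβ2 : β < Real.pi) (hφ1 : θo < φ) (hφ2 : φ < θo + 2 * Real.pi) :
    ∃ ε : ℝ, 0 < ε ∧ ∀ ρ ∈ Ioo 0 ε, IsWind γ T (γ s + ρ * exp (φ * I)) j := by
  have hπ := Real.pi_pos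
  have hT := hγ.pos
  have hcont := hγ.cont
  -- choice of d
  obtain ⟨d, hd0, hdδ, hdT⟩ : ∃ d : ℝ, 0 < d ∧ d < δ ∧ 2 * d < T :=
    ⟨min δ T / 3, by positivity, by have := min_le_left δ T; linarith,
      by have := min_le_right δ T; linarith⟩
  have ho' : ∀ t ∈ Icc 0 d, ∃ r : ℝ, 0 ≤ r ∧ (0 < t → 0 < r) ∧
      γ (s + t) = γ s + r * exp (θo * I) := by
    intro t ht
    rcases ht.1.eq_or_lt with h | h
    · refine ⟨0, le_rfl, fun h' => absurd h' (by rw [← h]; exact lt_irrefl _), ?_⟩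
      rw [← h]
      simp
    · obtain ⟨r, hr, e⟩ := ho t ⟨h, by linarith [ht.2]⟩
      exact ⟨r, hr.le, fun _ => hr, e⟩
  have hi' : ∀ t ∈ Icc 0 d, ∃ r : ℝ, 0 ≤ r ∧ (0 < t → 0 < r) ∧
      γ (s - t) = γ s + r * exp (θi * I) := by
    intro t ht
    rcases ht.1.eq_or_lt with h | h
    · refine ⟨0, le_rfl, fun h' => absurd h' (by rw [← h]; exact lt_irrefl _), ?_⟩
      rw [← h]
      simp
    · obtain ⟨r, hr, e⟩ := hi t ⟨h, by linarith [ht.2]⟩
      exact ⟨r, hr.le, fun _ => hr, e⟩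
  obtain ⟨ro, -, hro, ero⟩ := ho' d ⟨hd0.le, le_rfl⟩
  obtain ⟨ri, -, hri, eri⟩ := hi' d ⟨hd0.le, le_rfl⟩
  have hro := hro hd0
  have hri := hri hd0
  -- the far part
  have hKc : IsCompact (γ '' Icc (s + d) (s - d + T)) := isCompact_Icc.image hcont
  have hsK : γ s ∈ (γ '' Icc (s + d) (s - d + T))ᶜ := by
    rintro ⟨t, ht, e⟩
    exact hγ.inj s t (by linarith [ht.1]) (by linarith [ht.2]) e.symm
  obtain ⟨ε, hε, hball⟩ := Metric.isOpen_iff.1 hKc.isClosed.isOpen_compl _ hsK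
  have hfar : ∀ ρ ∈ Icc 0 (ε / 2), ∀ t ∈ Icc (s + d) (s - d + T),
      γ t - (γ s + ρ * exp (φ * I)) ≠ 0 := by
    intro ρ hρ t ht he
    have hmem : γ s + ρ * exp (φ * I) ∈ Metric.ball (γ s) ε := by
      rw [mem_ball_iff_norm, add_sub_cancel_left, norm_mul, norm_exp_ofReal_mul_I, mul_one,
        norm_real, Real.norm_eq_abs, abs_of_nonneg hρ.1]
      linarith [hρ.2]
    exact hball hmem ⟨t, ht, sub_eq_zero.1 he⟩
  -- the near part
  have hexp : ∀ a b : ℝ, exp (a * I) * exp (-(b * I)) = exp (((a - b : ℝ) : ℂ) * I) := by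
    intro a b
    rw [← exp_add]
    congr 1
    push_cast
    ring
  have hneg : ∀ a : ℝ, -exp (a * I) = exp (((a + Real.pi : ℝ) : ℂ) * I) := by
    intro a
    push_cast
    rw [add_mul, exp_add, exp_pi_mul_I]
    ring
  have hneg' : ∀ a : ℝ, -exp (a * I) = exp (((a - Real.pi : ℝ) : ℂ) * I) := by
    intro a
    push_cast
    rw [sub_mul, exp_sub, exp_pi_mul_I]
    ring
  have hnβ : -exp (((θi - φ : ℝ) : ℂ) * I) = exp ((β : ℂ) * I) := by
    rcases hβ with ⟨rfl, -⟩ | ⟨rfl, -⟩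
    · exact hneg' _
    · exact hneg _
  -- the function N
  let N : ℝ → ℝ → ℂ := fun ρ t => log (-(γ t - (γ s + ρ * exp (φ * I))) * exp (-(φ * I)))
  have hNo : ∀ ρ t : ℝ, 0 ≤ ρ → t ∈ Icc 0 d → (0 < ρ ∨ 0 < t) →
      ∃ x : ℝ, 0 ≤ x ∧ (0 < t → 0 < x) ∧
        -(γ (s + t) - (γ s + ρ * exp (φ * I))) * exp (-(φ * I)) =
          ρ + x * exp (((θo - φ + Real.pi : ℝ) : ℂ) * I) := by
    intro ρ t hρ ht _
    obtain ⟨r, hr, hr', e⟩ := ho' t ht
    refine ⟨r, hr, hr', ?_⟩
    rw [e, ← hneg, ← hexp]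
    have : exp (φ * I) * exp (-(φ * I)) = 1 := by rw [← exp_add]; simp
    linear_combination (ρ : ℂ) * this
  have hNi : ∀ ρ t : ℝ, 0 ≤ ρ → t ∈ Icc 0 d → (0 < ρ ∨ 0 < t) →
      ∃ x : ℝ, 0 ≤ x ∧ (0 < t → 0 < x) ∧
        -(γ (s - t) - (γ s + ρ * exp (φ * I))) * exp (-(φ * I)) =
          ρ + x * exp ((β : ℂ) * I) := by
    intro ρ t hρ ht _
    obtain ⟨r, hr, hr', e⟩ := hi' t ht
    refine ⟨r, hr, hr', ?_⟩
    rw [e, ← hnβ, ← hexp]
    have : exp (φ * I) * exp (-(φ * I)) = 1 := by rw [← exp_add]; simp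
    linear_combination (ρ : ℂ) * this
  have hslo : ∀ ρ t : ℝ, 0 ≤ ρ → t ∈ Icc 0 d → (0 < ρ ∨ 0 < t) →
      -(γ (s + t) - (γ s + ρ * exp (φ * I))) * exp (-(φ * I)) ∈ slitPlane := by
    intro ρ t hρ ht h
    obtain ⟨x, hx, hx', e⟩ := hNo ρ t hρ ht h
    rw [e]
    refine comb_slit hρ hx ?_ (by linarith) (by linarith)
    rcases h with h | h
    · linarith
    · linarith [hx' h]
  have hsli : ∀ ρ t : ℝ, 0 ≤ ρ → t ∈ Icc 0 d → (0 < ρ ∨ 0 < t) →
      -(γ (s - t) - (γ s + ρ * exp (φ * I))) * exp (-(φ * I)) ∈ slitPlane := by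
    intro ρ t hρ ht h
    obtain ⟨x, hx, hx', e⟩ := hNi ρ t hρ ht h
    rw [e]
    refine comb_slit hρ hx ?_ hβ1 hβ2
    rcases h with h | h
    · linarith
    · linarith [hx' h]
  have hsl : ∀ ρ t : ℝ, 0 < ρ → t ∈ Icc (s - d) (s + d) →
      -(γ t - (γ s + ρ * exp (φ * I))) * exp (-(φ * I)) ∈ slitPlane := by
    intro ρ t hρ ht
    rcases le_total s t with h | h
    · have := hslo ρ (t - s) hρ.le ⟨by linarith, by linarith [ht.2]⟩ (Or.inl hρ)
      rwa [add_sub_cancel] at this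
    · have := hsli ρ (s - t) hρ.le ⟨by linarith, by linarith [ht.1]⟩ (Or.inl hρ)
      rwa [sub_sub_cancel] at this
  -- joint lift of the far part
  obtain ⟨M, hM, hMf⟩ := exists_log (S := Icc (s + d) (s - d + T) ×ˢ Icc 0 (ε / 2))
    ((convex_Icc _ _).prod (convex_Icc _ _))
    (f := fun x : ℝ × ℝ => γ x.1 - (γ s + x.2 * exp (φ * I))) (by fun_prop)
    (fun x hx => hfar x.2 hx.2 x.1 hx.1)
  have hend1 : s + d ∈ Icc (s + d) (s - d + T) := ⟨le_rfl, by linarith⟩
  have hend2 : s - d + T ∈ Icc (s + d) (s - d + T) := ⟨by linarith, le_rfl⟩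
  have hendo : s + d ∈ Icc (s - d) (s + d) := ⟨by linarith, le_rfl⟩
  have hendi : s - d ∈ Icc (s - d) (s + d) := ⟨le_rfl, by linarith⟩
  have hdd : d ∈ Icc 0 d := ⟨hd0.le, le_rfl⟩
  let G : ℝ → ℂ := fun ρ => M (s - d + T, ρ) - M (s + d, ρ) + (N ρ (s + d) - N ρ (s - d))
  have hGc : ContinuousOn G (Icc 0 (ε / 2)) := by
    have c1 : ContinuousOn (fun ρ : ℝ => M (s - d + T, ρ)) (Icc 0 (ε / 2)) :=
      hM.comp (by fun_prop) fun x hx => ⟨hend2, hx⟩
    have c2 : ContinuousOn (fun ρ : ℝ => M (s + d, ρ)) (Icc 0 (ε / 2)) :=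
      hM.comp (by fun_prop) fun x hx => ⟨hend1, hx⟩
    have c3 : ContinuousOn (fun ρ : ℝ => N ρ (s + d)) (Icc 0 (ε / 2)) := by
      refine ContinuousOn.clog (by fun_prop) fun ρ hρ => ?_
      exact hslo ρ d hρ.1 hdd (Or.inr hd0)
    have c4 : ContinuousOn (fun ρ : ℝ => N ρ (s - d)) (Icc 0 (ε / 2)) := by
      refine ContinuousOn.clog (by fun_prop) fun ρ hρ => ?_
      exact hsli ρ d hρ.1 hdd (Or.inr hd0)
    exact (c1.sub c2).add (c3.sub c4)
  have hexpN : ∀ ρ t : ℝ, -(γ t - (γ s + ρ * exp (φ * I))) * exp (-(φ * I)) ∈ slitPlane →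
      exp (N ρ t) = -(γ t - (γ s + ρ * exp (φ * I))) * exp (-(φ * I)) := by
    intro ρ t h
    exact exp_log (slitPlane_ne_zero h)
  have hGe : ∀ ρ ∈ Icc 0 (ε / 2), exp (G ρ) = 1 := by
    intro ρ hρ
    have n1 := hslo ρ d hρ.1 hdd (Or.inr hd0)
    have n2 := hsli ρ d hρ.1 hdd (Or.inr hd0)
    simp only [G]
    rw [exp_add, exp_sub, exp_sub, hMf _ ⟨hend2, hρ⟩, hMf _ ⟨hend1, hρ⟩, hexpN _ _ n1,
      hexpN _ _ n2]
    simp only
    have e1 : γ (s - d + T) = γ (s - d) := hγ.per _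
    have z1 := hfar ρ hρ _ hend1
    have z2 := hfar ρ hρ _ hend2
    rw [e1] at z2 ⊢
    have z3 := exp_ne_zero (-(φ * I))
    field_simp
  have hG : ∀ ρ ∈ Icc 0 (ε / 2), G ρ = G 0 := by
    intro ρ hρ
    exact const_of_exp (convex_Icc _ _).isPreconnected hGc 1 hGe hρ ⟨le_rfl, by linarith⟩
  -- the value G 0
  have hG0 : G 0 = j * (2 * Real.pi * I) := by
    obtain ⟨L, hL, hLf, hLm⟩ := hm
    have hLm' := hLm (s - d) s (by linarith) (by linarith)
    -- the far part
    have f1 : M (s - d + T, 0) - M (s + d, 0) = L (s, s - d + T) - L (s, s + d) := by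
      refine lift_unique (S := Icc (s + d) (s - d + T)) (L := fun t => M (t, 0))
        (L' := fun t => L (s, t)) (convex_Icc _ _).isPreconnected ?_ ?_ ?_ hend2 hend1
      · exact hM.comp (by fun_prop) fun x hx => ⟨hx, ⟨le_rfl, by linarith⟩⟩
      · refine hL.comp (by fun_prop) fun x hx => ?_
        exact mem_strip (by linarith [hx.1]) (by linarith [hx.2])
      · intro t ht
        rw [hMf _ ⟨ht, ⟨le_rfl, by linarith⟩⟩, hLf _ (mem_strip (by linarith [ht.1])
          (by linarith [ht.2]))]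
        simp
    -- the near part
    have hα1 : -Real.pi < θi - θo - Real.pi := by linarith
    have hα2 : θi - θo - Real.pi < Real.pi := by linarith
    have hCf : ∀ x ∈ Icc 0 d, ∃ a b : ℝ, 0 ≤ a ∧ 0 ≤ b ∧ 0 < a + b ∧
        (γ (s + x) - γ (s - d + x)) * exp (-(θo * I)) =
          a + b * exp (((θi - θo - Real.pi : ℝ) : ℂ) * I) := by
      intro x hx
      obtain ⟨a, ha, ha', ea⟩ := ho' x hx
      obtain ⟨b, hb, hb', eb⟩ := hi' (d - x) ⟨by linarith [hx.2], by linarith [hx.1]⟩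
      refine ⟨a, b, ha, hb, ?_, ?_⟩
      · rcases hx.1.eq_or_lt with h | h
        · have := hb' (by linarith)
          linarith
        · have := ha' h
          linarith
      · have e1 : s - d + x = s - (d - x) := by ring
        rw [e1, ea, eb, ← hneg', ← hexp]
        have : exp (θo * I) * exp (-(θo * I)) = 1 := by rw [← exp_add]; simp
        linear_combination (a : ℂ) * this
    have hCs : ∀ x ∈ Icc 0 d, (γ (s + x) - γ (s - d + x)) * exp (-(θo * I)) ∈ slitPlane := by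
      intro x hx
      obtain ⟨a, b, ha, hb, hab, e⟩ := hCf x hx
      rw [e]
      exact comb_slit ha hb hab hα1 hα2
    have h0d : (0 : ℝ) ∈ Icc 0 d := ⟨le_rfl, hd0.le⟩
    have f2 : L (s, s + d) - L (s - d, s) =
        (log ((γ (s + d) - γ (s - d + d)) * exp (-(θo * I))) + θo * I) -
          (log ((γ (s + 0) - γ (s - d + 0)) * exp (-(θo * I))) + θo * I) := by
      have := lift_unique (S := Icc 0 d) (L := fun x => L (s - d + x, s + x))
        (L' := fun x => log ((γ (s + x) - γ (s - d + x)) * exp (-(θo * I))) + θo * I)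
        (convex_Icc _ _).isPreconnected ?_ ?_ ?_ hdd h0d
      · simp only [sub_add_cancel, add_zero] at this ⊢
        exact this
      · refine hL.comp (by fun_prop) fun x hx => ?_
        exact mem_strip (by linarith) (by linarith)
      · exact (ContinuousOn.clog (by fun_prop) hCs).add continuousOn_const
      · intro x hx
        rw [hLf _ (mem_strip (by linarith) (by linarith)), exp_add,
          exp_log (slitPlane_ne_zero (hCs x hx))]
        simp only
        have : exp (-(θo * I)) * exp (θo * I) = 1 := by rw [← exp_add]; simp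
        linear_combination -(γ (s + x) - γ (s - d + x)) * this
    have g1 : log ((γ (s + d) - γ (s - d + d)) * exp (-(θo * I))) = Real.log ro := by
      have : (γ (s + d) - γ (s - d + d)) * exp (-(θo * I)) = ro := by
        rw [sub_add_cancel, ero]
        have : exp (θo * I) * exp (-(θo * I)) = 1 := by rw [← exp_add]; simp
        linear_combination (ro : ℂ) * this
      rw [this, ofReal_log hro.le]
    have g2 : log ((γ (s + 0) - γ (s - d + 0)) * exp (-(θo * I))) =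
        Real.log ri + ((θi - θo - Real.pi : ℝ) : ℂ) * I := by
      have : (γ (s + 0) - γ (s - d + 0)) * exp (-(θo * I)) =
          ri * exp (((θi - θo - Real.pi : ℝ) : ℂ) * I) := by
        rw [add_zero, add_zero, eri, ← hneg', ← hexp]
        ring
      rw [this, log_ray hri hα1 hα2.le]
    have g3 : N 0 (s + d) = Real.log ro + ((θo - φ + Real.pi : ℝ) : ℂ) * I := by
      have : -(γ (s + d) - (γ s + (0 : ℝ) * exp (φ * I))) * exp (-(φ * I)) =
          ro * exp (((θo - φ + Real.pi : ℝ) : ℂ) * I) := by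
        rw [ero, ← hneg, ← hexp]
        push_cast
        ring
      simp only [N]
      rw [this, log_ray hro (by linarith) (by linarith)]
    have g4 : N 0 (s - d) = Real.log ri + (β : ℂ) * I := by
      have : -(γ (s - d) - (γ s + (0 : ℝ) * exp (φ * I))) * exp (-(φ * I)) =
          ri * exp ((β : ℂ) * I) := by
        rw [eri, ← hnβ, ← hexp]
        push_cast
        ring
      simp only [N]
      rw [this, log_ray hri hβ1 hβ2.le]
    simp only [G]
    rw [f1, g3, g4]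
    rw [g1, g2] at f2
    rcases hβ with ⟨rfl, rfl⟩ | ⟨rfl, rfl⟩
    · push_cast at f2 ⊢
      linear_combination hLm' - f2
    · push_cast at f2 ⊢
      linear_combination hLm' - f2
  -- conclusion
  refine ⟨ε / 2, by linarith, fun ρ hρ => ?_⟩
  have hρ' : ρ ∈ Icc 0 (ε / 2) := ⟨hρ.1.le, hρ.2.le⟩
  have hz : γ s + ρ * exp (φ * I) ∉ range γ := by
    rintro ⟨t, ht⟩
    have hp : Function.Periodic γ T := hγ.per
    obtain ⟨y, hy, e⟩ := hp.exists_mem_Ico hγ.pos t (s - d)
    rw [e] at ht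
    rcases le_total y (s + d) with h | h
    · have := slitPlane_ne_zero (hsl ρ y hρ.1 ⟨hy.1, h⟩)
      rw [ht] at this
      simp at this
    · exact hfar ρ hρ' y ⟨h, hy.2.le⟩ (sub_eq_zero.2 ht)
  obtain ⟨n, hn⟩ := exists_isWind hγ hz
  have hnj : n = j := by
    obtain ⟨L, hL, hLf, hLn⟩ := hn
    have a1 : L (s - d + T) - L (s + d) = M (s - d + T, ρ) - M (s + d, ρ) := by
      refine lift_unique (S := Icc (s + d) (s - d + T)) (L' := fun t => M (t, ρ))
        (convex_Icc _ _).isPreconnected hL.continuousOn ?_ ?_ hend2 hend1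
      · exact hM.comp (by fun_prop) fun x hx => ⟨hx, hρ'⟩
      · intro t ht
        rw [hMf _ ⟨ht, hρ'⟩, hLf]
    have a2 : L (s + d) - L (s - d) = N ρ (s + d) - N ρ (s - d) := by
      have := lift_unique (S := Icc (s - d) (s + d)) (L := L)
        (L' := fun t => N ρ t + (φ * I + Real.pi * I))
        (convex_Icc _ _).isPreconnected hL.continuousOn ?_ ?_ hendo hendi
      · rw [this]
        ring
      · refine ContinuousOn.add ?_ continuousOn_const
        refine ContinuousOn.clog (by fun_prop) fun t ht => ?_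
        exact hsl ρ t hρ.1 ht
      · intro t ht
        rw [exp_add, hexpN _ _ (hsl ρ t hρ.1 ht), hLf, exp_add, exp_pi_mul_I]
        have : exp (-(φ * I)) * exp (φ * I) = 1 := by rw [← exp_add]; simp
        linear_combination -(γ t - (γ s + ρ * exp (φ * I))) * this
    have a3 : (n : ℂ) * (2 * Real.pi * I) = G ρ := by
      simp only [G]
      rw [← a1, ← a2, ← hLn (s - d)]
      ring
    rw [hG ρ hρ', hG0] at a3
    have h2 : (2 * Real.pi * I : ℂ) ≠ 0 := two_pi_I_ne_zero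
    exact_mod_cast mul_right_cancel₀ h2 a3
  rw [← hnj]
  exact hn

end Pool.MP_b347ba_lc.J
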