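import Pool.Agent.Lib.MP_b347ba_lc_h80.Fence

/-!
# Edges at the hubs do not cross
-/

namespace Pool.MP_b347ba_lc

open Set Filter Topology

variable {X : Type} {lev : X → ℕ} {lv : List X} {up dn : X → List X}
variable (D : GoodDrawing (hubRot lv up dn))

theorem hub_noncross (h : IsLeveled lev lv up dn) {z w : X} (hzw : z ≠ w) {s t : ℝ}
    (hs : s ∈ Icc (0 : ℝ) 1) (ht : t ∈ Icc (0 : ℝ) 1) :
    D.arc .P (.x w) s ≠ D.arc .Q (.x z) t := by
  intro he
  have hsy := hub_symm h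
  have hPQ : HV.Q ∈ hubRot lv up dn .P := adj_PQ
  have hQP : HV.P ∈ hubRot lv up dn .Q := adj_QP
  have hPw := adj_Pz h w
  have hQw := adj_Qz h w
  have hPz := adj_Pz h z
  have hQz := adj_Qz h z
  have hzP : HV.P ∈ hubRot lv up dn (.x z) := adj_zP z
  have hwP : HV.P ∈ hubRot lv up dn (.x w) := adj_zP w
  have hxx : HV.x w ≠ HV.x z := by simpa using hzw.symm
  obtain ⟨hsI, htI⟩ := D.meet_indep hsy hPw hQz (by simp) (by simp) (by simp) hxx hs ht he
  obtain ⟨χ, hχ⟩ := exists_fence D h z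
  -- the common colour of the germs at the hubs
  obtain ⟨v₀, hvP, hvQ⟩ : ∃ v₀ : Bool, Lim χ (D.arc .P (.x w)) v₀ ∧ Lim χ (D.arc .Q (.x w)) v₀ := by
    rcases lt_trichotomy (lev w) (lev z) with hlt | heq | hgt
    · exact ⟨true, hχ.low w hlt⟩
    · exfalso
      have hne : ∀ l : List X, (l.Pairwise fun a b => lev a < lev b) → w ∈ l → z ∈ l → False := by
        intro l
        induction l with
        | nil => intro _ hw; simp at hw
        | cons c l ih =>
          intro hp hw hz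
          rw [List.pairwise_cons] at hp
          rcases List.mem_cons.1 hw with e1 | h1
          · rcases List.mem_cons.1 hz with e2 | h2
            · exact hzw (e2.trans e1.symm)
            · have := hp.1 z h2
              rw [← e1] at this
              omega
          · rcases List.mem_cons.1 hz with e2 | h2
            · have := hp.1 w h1
              rw [← e2] at this
              omega
            · exact ih hp.2 h1 h2
      exact hne lv h.sorted (h.all w) (h.all z)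
    · exact ⟨false, hχ.high w hgt⟩
  have hQzs : ∀ r ∈ Icc (0 : ℝ) 1, ∀ r' ∈ Icc (0 : ℝ) 1,
      D.arc .P (.x w) r = D.arc .Q (.x z) r' → r = s ∧ r' = t := by
    intro r hr r' hr' he'
    exact D.once' hPw hQz (by simp) hr hr' hs ht he' he
  -- Pw changes the side
  have eP : χ (D.pos (.x w)) = !v₀ := by
    have hav : ∀ r ∈ Icc (0 : ℝ) 1, r ≠ 0 → r ≠ s → D.arc .P (.x w) r ∉ fence D z := by
      rintro r hr h0 h1 ((⟨r', hr', e⟩ | ⟨r', hr', e⟩) | ⟨r', hr', e⟩)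
      · exact h0 (D.meet_src hPw hPQ (by simp) hr hr' e.symm).1
      · exact h1 (hQzs r hr r' hr' e.symm).1
      · rw [D.rev' hzP hr'] at e
        exact h0 (D.meet_src hPw hPz hxx hr ⟨by linarith [hr'.2], by linarith [hr'.1]⟩ e.symm).1
    have hmid : s / 2 ∈ Icc (0 : ℝ) 1 := ⟨by linarith [hsI.1], by linarith [hsI.1, hsI.2]⟩
    have l0 : Lim χ (dir (D.arc .P (.x w)) 0 (s / 2)) (χ (D.arc .P (.x w) (s / 2))) := by
      refine hχ.col.lim (D.contOn hPw i0 hmid) (fun r hr hne => ?_) (by linarith [hsI.1])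
      rw [uIcc_of_le (by linarith [hsI.1])] at hr
      exact hav r ⟨hr.1, by linarith [hr.2, hsI.1, hsI.2]⟩ hne (by
        rintro rfl
        linarith [hr.2, hsI.1])
    have l1 : Lim χ (dir (D.arc .P (.x w)) 0 (s / 2)) v₀ := by
      refine hvP.along ?_
      have := dir_along_dir (g := D.arc .P (.x w)) (a := 0) (c := s / 2) (c' := 1)
        (by nlinarith [hsI.1])
      rwa [dir_zero_one] at this
    have hX := hχ.cross .P (.x w) hPw (by simp) (by simp) (by simpa using hxx) s (s / 2) 1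
      (by linarith [hsI.1]) (by linarith [hsI.1]) hsI.2 le_rfl
      (Or.inl (Or.inr ⟨t, ht, he.symm⟩))
    have := flip_rule hχ.col (D.contOn hPw hs hmid) (D.contOn hPw hs i1)
      (by linarith [hsI.1]) hsI.2 hX
      (fun r hr => hav r ⟨by linarith [hr.1, hsI.1], by linarith [hr.2, hsI.2]⟩
        (by linarith [hr.1, hsI.1]) hr.2.ne)
      (fun r hr => hav r ⟨by linarith [hr.1, hsI.1], hr.2⟩
        (by linarith [hr.1, hsI.1]) hr.1.ne')
    rw [D.tgt hsy hPw, l0.unique l1] at this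
    exact this
  -- hence Qw meets Pz
  obtain ⟨s', hs', t', ht', he'⟩ : ∃ s' ∈ Icc (0 : ℝ) 1, ∃ t' ∈ Icc (0 : ℝ) 1,
      D.arc .Q (.x w) s' = D.arc (.x z) .P t' := by
    by_contra hcon
    push Not at hcon
    have l0 : Lim χ (dir (D.arc .Q (.x w)) 0 1) (χ (D.arc .Q (.x w) 1)) := by
      refine hχ.col.lim (D.contOn hQw i0 i1) (fun r hr hne => ?_) zero_ne_one
      rw [uIcc01] at hr
      rintro ((⟨r', hr', e⟩ | ⟨r', hr', e⟩) | ⟨r', hr', e⟩)
      · rw [D.rev' hPQ hr'] at e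
        exact hne (D.meet_src hQw hQP (by simp) hr ⟨by linarith [hr'.2], by linarith [hr'.1]⟩
          e.symm).1
      · exact hne (D.meet_src hQw hQz hxx hr hr' e.symm).1
      · exact hcon r hr r' hr' e.symm
    rw [dir_zero_one, D.tgt hsy hQw, eP] at l0
    have := l0.unique hvQ
    simp at this
  obtain ⟨hsI', htI'⟩ := D.meet_indep hsy hQw hzP (by simp) (by simp) hxx (by simp) hs' ht' he'
  -- the closed curve P, crossing point, z, P
  have hzPw : ∀ r ∈ Icc (0 : ℝ) 1, ∀ r' ∈ Icc (0 : ℝ) 1,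
      D.arc (.x z) .P r = D.arc .P (.x w) r' → r = 1 ∧ r' = 0 := by
    intro r hr r' hr' e
    exact D.meet_tgt_src hsy hzP hPw hxx.symm hr hr' e
  have hQzP : ∀ r ∈ Icc (0 : ℝ) 1, ∀ r' ∈ Icc (0 : ℝ) 1,
      D.arc .Q (.x z) r = D.arc (.x z) .P r' → r = 1 ∧ r' = 0 := by
    intro r hr r' hr' e
    exact D.meet_tgt_src hsy hQz hzP (by simp) hr hr' e
  have sub1 : uIcc 0 s ⊆ Icc (0 : ℝ) 1 := uIcc_subset_Icc i0 hs
  have sub2 : uIcc t 1 ⊆ Icc (0 : ℝ) 1 := uIcc_subset_Icc ht i1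
  obtain ⟨χ', h1, ⟨h2, h3, h4⟩, h5, h6, h7⟩ := tri (g₁ := D.arc .P (.x w))
    (g₂ := D.arc .Q (.x z)) (g₃ := D.arc (.x z) .P) (a₁ := 0) (b₁ := s) (a₂ := t) (b₂ := 1)
    (a₃ := 0) (b₃ := 1) hsI.1.ne htI.2.ne zero_ne_one (D.contOn hPw i0 hs)
    (D.contOn hQz ht i1) (D.contOn hzP i0 i1) (D.injOn hPw i0 hs) (D.injOn hQz ht i1)
    (D.injOn hzP i0 i1) he (by rw [D.tgt hsy hQz, D.src _ _ hzP])
    (by rw [D.tgt hsy hzP, D.src _ _ hPw])
    (fun r hr r' hr' e => (hQzs r (sub1 hr) r' (sub2 hr') e).1)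
    (fun r hr r' hr' e => (hQzP r (sub2 hr) r' (uIcc01 ▸ hr') e).1)
    (fun r hr r' hr' e => (hzPw r (uIcc01 ▸ hr) r' (sub1 hr') e).1)
  rw [uIcc_of_le hsI.1.le, uIcc_of_le htI.2.le, uIcc01] at h1
  -- w and Q are on the same side
  obtain ⟨v, hv1, hv2⟩ : ∃ v : Bool, Lim χ' (dir (D.arc .P (.x w)) s 1) v ∧
      Lim χ' (dir (D.arc .Q (.x z)) t 0) v := by
    have hX : Sep _ _ _ _ _ := D.proper .P (.x w) .Q (.x z) hPw hQz (by simp) s hsI t htI he
    have hX2 := hX.rot.rot.flip.along (dir_along_sub hsI.1) (dir_along_add htI.2)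
      (dir_along_add hsI.2) (dir_along_sub htI.1)
    rw [he] at hX2
    refine h3.same hX2 ?_ (dir_tendsto (D.contOn hQz ht i0))
    rw [← he]
    exact dir_tendsto (D.contOn hPw hs i1)
  have e1 : χ' (D.pos (.x w)) = v := by
    have l0 : Lim χ' (dir (D.arc .P (.x w)) s 1) (χ' (D.arc .P (.x w) 1)) := by
      refine h1.lim (D.contOn hPw hs i1) (fun r hr hne => ?_) hsI.2.ne
      rw [uIcc_of_le hsI.2.le] at hr
      have hr' : r ∈ Icc (0 : ℝ) 1 := ⟨by linarith [hr.1, hsI.1], hr.2⟩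
      rintro ((⟨r', hr'', e⟩ | ⟨r', hr'', e⟩) | ⟨r', hr'', e⟩)
      · have := D.inj _ _ hPw ⟨hr''.1, by linarith [hr''.2, hsI.2]⟩ hr' e
        apply hne
        linarith [hr''.2, hr.1]
      · exact hne (hQzs r hr' r' ⟨by linarith [hr''.1, htI.1], hr''.2⟩ e.symm).1
      · have := (hzPw r' hr'' r hr' e).2
        linarith [hr.1, hsI.1]
    rw [D.tgt hsy hPw] at l0
    exact l0.unique hv1
  have e2 : χ' (D.pos .Q) = v := by
    have l0 : Lim χ' (dir (D.arc .Q (.x z)) t 0) (χ' (D.arc .Q (.x z) 0)) := by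
      refine h1.lim (D.contOn hQz ht i0) (fun r hr hne => ?_) htI.1.ne'
      rw [uIcc_of_ge htI.1.le] at hr
      have hr' : r ∈ Icc (0 : ℝ) 1 := ⟨hr.1, by linarith [hr.2, htI.2]⟩
      rintro ((⟨r', hr'', e⟩ | ⟨r', hr'', e⟩) | ⟨r', hr'', e⟩)
      · exact hne (hQzs r' ⟨hr''.1, by linarith [hr''.2, hsI.2]⟩ r hr' e).2
      · have := D.inj _ _ hQz ⟨by linarith [hr''.1, htI.1], hr''.2⟩ hr' e
        apply hne
        linarith [hr''.1, hr.2]
      · have := (hQzP r hr' r' hr'' e.symm).1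
        linarith [hr.2, htI.2]
    rw [D.src _ _ hQz] at l0
    exact l0.unique hv2
  -- but Qw crosses the curve exactly once
  have e3 : χ' (D.arc .Q (.x w) 1) = !χ' (D.arc .Q (.x w) 0) := by
    have hBr := h7 t' (uIcc01 ▸ ht') htI'.1.ne' htI'.2.ne
    have hX := cross_rule (D.proper (.x z) .P .Q (.x w) hzP hQw (by simp) t' htI' s' hsI' he'.symm)
      hBr (Or.inl ⟨htI'.1, htI'.2⟩) he' (D.contOn hQw hs' i0) (D.contOn hQw hs' i1) hsI'.1 hsI'.2
    have hav : ∀ r ∈ Icc (0 : ℝ) 1, r ≠ s' → D.arc .Q (.x w) r ∉ D.arc .P (.x w) '' Icc 0 s ∪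
        D.arc .Q (.x z) '' Icc t 1 ∪ D.arc (.x z) .P '' Icc 0 1 := by
      rintro r hr hne ((⟨r', hr'', e⟩ | ⟨r', hr'', e⟩) | ⟨r', hr'', e⟩)
      · have := (D.meet_tgt hsy hPw hQw (by simp) ⟨hr''.1, by linarith [hr''.2, hsI.2]⟩ hr e).1
        linarith [hr''.2, hsI.2]
      · have := (D.meet_src hQz hQw hxx.symm ⟨by linarith [hr''.1, htI.1], hr''.2⟩ hr e).1
        linarith [hr''.1, htI.1]
      · exact hne (D.once' hQw hzP (by simp [hxx]) hr hr'' hs' ht' e.symm he').1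
    exact flip_rule h1 (D.contOn hQw hs' i0) (D.contOn hQw hs' i1) hsI'.1 hsI'.2 hX
      (fun r hr => hav r ⟨hr.1, by linarith [hr.2, hsI'.2]⟩ hr.2.ne)
      (fun r hr => hav r ⟨by linarith [hr.1, hsI'.1], hr.2⟩ hr.1.ne')
  rw [D.tgt hsy hQw, D.src _ _ hQw, e1, e2] at e3
  simp at e3

end Pool.MP_b347ba_lc
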