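import Pool.Agent.Lib.MP_b347ba_lc_h80.Tri

/-!
# Elementary properties of good drawings
-/

namespace Pool.MP_b347ba_lc

open Set Filter Topology

theorem Lim.along {χ : ℂ → Bool} {g g' : ℝ → ℂ} {v : Bool} (h : Lim χ g v) (ha : Along g' g) :
    Lim χ g' v := by
  rw [Lim, eventually_nhdsWithin_iff, Metric.eventually_nhds_iff] at h
  obtain ⟨δ, hδ, h⟩ := h
  obtain ⟨δ', hδ', h'⟩ := ha δ hδ
  have : ∀ᶠ t in 𝓝[>] (0 : ℝ), t ∈ Ioo (0 : ℝ) δ' := Ioo_mem_nhdsGT hδ'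
  filter_upwards [this] with t ht
  obtain ⟨t', ht', e⟩ := h' t ht
  rw [e]
  refine h ?_ ht'.1
  rw [Real.dist_eq, sub_zero, abs_of_pos ht'.1]
  exact ht'.2

theorem dir_along_add {g : ℝ → ℂ} {a c : ℝ} (h : a < c) :
    Along (dir g a c) fun t => g (a + t) :=
  Along.of_scale (c := c - a) (by linarith) ⟨1, one_pos, fun t _ => rfl⟩

theorem dir_along_sub {g : ℝ → ℂ} {a c : ℝ} (h : c < a) :
    Along (dir g a c) fun t => g (a - t) :=
  Along.of_scale (c := a - c) (by linarith) ⟨1, one_pos, fun t _ => by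
    simp only [dir]
    congr 1
    ring⟩

theorem dir_along_dir {g : ℝ → ℂ} {a c c' : ℝ} (h : 0 < (c - a) * (c' - a)) :
    Along (dir g a c) (dir g a c') := by
  have hne : c' - a ≠ 0 := by
    intro h0
    rw [h0, mul_zero] at h
    exact lt_irrefl _ h
  have h2 : 0 < (c - a) / (c' - a) := by
    have : (c - a) / (c' - a) = (c - a) * (c' - a) / (c' - a) ^ 2 := by
      field_simp
    rw [this]
    have := sq_pos_of_ne_zero hne
    positivity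
  refine Along.of_scale h2 ⟨1, one_pos, fun t _ => ?_⟩
  simp only [dir]
  congr 1
  field_simp

/-- An arc passing from one side of `Γ` to the other side. -/
theorem cross_rule {χ : ℂ → Bool} {g e : ℝ → ℂ} {r s a c s₀ s₁ : ℝ} (hX : Crosses g r e s)
    (hBr : Br χ (g r) (dir g r a) (dir g r c)) (hac : (a < r ∧ r < c) ∨ (c < r ∧ r < a))
    (he : e s = g r) (hc₀ : ContinuousOn e (uIcc s s₀)) (hc₁ : ContinuousOn e (uIcc s s₁))
    (hs₀ : s₀ < s) (hs₁ : s < s₁) :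
    ∃ v : Bool, Lim χ (dir e s s₁) v ∧ Lim χ (dir e s s₀) (!v) := by
  have t0 := dir_tendsto hc₀
  have t1 := dir_tendsto hc₁
  rw [he] at t0 t1
  have hS : Sep (g r) (fun t => g (r + t)) (fun t => e (s + t)) (fun t => g (r - t))
    (fun t => e (s - t)) := hX
  rcases hac with ⟨h1, h2⟩ | ⟨h1, h2⟩
  · have h3 : Sep (g r) (dir g r a) (dir e s s₁) (dir g r c) (dir e s s₀) :=
      hS.rot.rot.flip.along (dir_along_sub h1) (dir_along_add hs₁) (dir_along_add h2)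
        (dir_along_sub hs₀)
    exact hBr.opp h3 t1 t0
  · have h3 : Sep (g r) (dir g r a) (dir e s s₁) (dir g r c) (dir e s s₀) :=
      hS.along (dir_along_add h2) (dir_along_add hs₁) (dir_along_sub h1)
        (dir_along_sub hs₀)
    exact hBr.opp h3 t1 t0

theorem flip_rule {Γ : Set ℂ} {χ : ℂ → Bool} (hcol : Col Γ χ) {e : ℝ → ℂ} {s s₀ s₁ : ℝ}
    (hc₀ : ContinuousOn e (uIcc s s₀)) (hc₁ : ContinuousOn e (uIcc s s₁))
    (hs₀ : s₀ < s) (hs₁ : s < s₁)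
    (h : ∃ v : Bool, Lim χ (dir e s s₁) v ∧ Lim χ (dir e s s₀) (!v))
    (ha₀ : ∀ r ∈ Ico s₀ s, e r ∉ Γ) (ha₁ : ∀ r ∈ Ioc s s₁, e r ∉ Γ) :
    χ (e s₁) = !χ (e s₀) := by
  obtain ⟨v, h1, h2⟩ := h
  have l1 : Lim χ (dir e s s₁) (χ (e s₁)) := by
    refine hcol.lim hc₁ (fun r hr hne => ha₁ r ?_) hs₁.ne
    rw [uIcc_of_le hs₁.le] at hr
    exact ⟨lt_of_le_of_ne hr.1 (Ne.symm hne), hr.2⟩
  have l0 : Lim χ (dir e s s₀) (χ (e s₀)) := by
    refine hcol.lim hc₀ (fun r hr hne => ha₀ r ?_) hs₀.ne'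
    rw [uIcc_of_ge hs₀.le] at hr
    exact ⟨hr.1, lt_of_le_of_ne hr.2 hne⟩
  rw [l1.unique h1, l0.unique h2, Bool.not_not]

namespace GoodDrawing

variable {V : Type} {rot : V → List V} (D : GoodDrawing rot)

theorem tgt (hs : ∀ u v, v ∈ rot u → u ∈ rot v) {u v : V} (h : v ∈ rot u) :
    D.arc u v 1 = D.pos v := by
  have := D.rev u v h 0 ⟨le_rfl, zero_le_one⟩
  rw [sub_zero] at this
  rw [← this, D.src v u (hs u v h)]

theorem rev' {u v : V} (h : v ∈ rot u) {t : ℝ} (ht : t ∈ Icc (0 : ℝ) 1) :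
    D.arc u v t = D.arc v u (1 - t) := by
  rw [D.rev u v h (1 - t) ⟨by linarith [ht.2], by linarith [ht.1]⟩, sub_sub_cancel]

/-- Two different edges have at most one common point. -/
theorem once' {u v x y : V} (h : v ∈ rot u) (h' : y ∈ rot x) (hne : s(u, v) ≠ s(x, y))
    {s t s' t' : ℝ} (hs : s ∈ Icc (0 : ℝ) 1) (ht : t ∈ Icc (0 : ℝ) 1) (hs' : s' ∈ Icc (0 : ℝ) 1)
    (ht' : t' ∈ Icc (0 : ℝ) 1) (he : D.arc u v s = D.arc x y t)
    (he' : D.arc u v s' = D.arc x y t') : s = s' ∧ t = t' := by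
  have h1 : D.arc u v s = D.arc u v s' :=
    D.once u v x y h h' hne ⟨⟨s, hs, rfl⟩, ⟨t, ht, he.symm⟩⟩ ⟨⟨s', hs', rfl⟩, ⟨t', ht', he'.symm⟩⟩
  refine ⟨D.inj u v h hs hs' h1, D.inj x y h' ht ht' ?_⟩
  rw [← he, ← he', h1]

/-- Two edges with the same source. -/
theorem meet_src {u v w : V} (h : v ∈ rot u) (h' : w ∈ rot u) (hne : v ≠ w) {s t : ℝ}
    (hs : s ∈ Icc (0 : ℝ) 1) (ht : t ∈ Icc (0 : ℝ) 1) (he : D.arc u v s = D.arc u w t) :
    s = 0 ∧ t = 0 := by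
  refine D.once' h h' ?_ hs ht ⟨le_rfl, zero_le_one⟩ ⟨le_rfl, zero_le_one⟩ he ?_
  · intro hcon
    exact hne (Sym2.congr_right.1 hcon)
  · rw [D.src u v h, D.src u w h']

theorem meet_tgt_src (hsy : ∀ u v, v ∈ rot u → u ∈ rot v) {u v w : V} (h : v ∈ rot u)
    (h' : w ∈ rot v) (hne : u ≠ w) {s t : ℝ} (hs : s ∈ Icc (0 : ℝ) 1) (ht : t ∈ Icc (0 : ℝ) 1)
    (he : D.arc u v s = D.arc v w t) : s = 1 ∧ t = 0 := by
  rw [D.rev' h hs] at he
  have := D.meet_src (hsy u v h) h' hne ⟨by linarith [hs.2], by linarith [hs.1]⟩ ht he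
  exact ⟨by linarith [this.1], this.2⟩

theorem meet_tgt (hsy : ∀ u v, v ∈ rot u → u ∈ rot v) {u v w : V} (h : v ∈ rot u)
    (h' : v ∈ rot w) (hne : u ≠ w) {s t : ℝ} (hs : s ∈ Icc (0 : ℝ) 1) (ht : t ∈ Icc (0 : ℝ) 1)
    (he : D.arc u v s = D.arc w v t) : s = 1 ∧ t = 1 := by
  rw [D.rev' h hs, D.rev' h' ht] at he
  have := D.meet_src (hsy u v h) (hsy w v h') hne ⟨by linarith [hs.2], by linarith [hs.1]⟩
    ⟨by linarith [ht.2], by linarith [ht.1]⟩ he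
  exact ⟨by linarith [this.1], by linarith [this.2]⟩

theorem eq_pos (hsy : ∀ u v, v ∈ rot u → u ∈ rot v) {u v w : V} (h : v ∈ rot u) {s : ℝ}
    (hs : s ∈ Icc (0 : ℝ) 1) (he : D.arc u v s = D.pos w) : (s = 0 ∧ w = u) ∨ (s = 1 ∧ w = v) := by
  rcases hs.1.eq_or_lt with h0 | h0
  · left
    subst h0
    rw [D.src u v h] at he
    exact ⟨rfl, (D.pos_inj he).symm⟩
  · rcases hs.2.eq_or_lt with h1 | h1
    · right
      subst h1
      rw [D.tgt hsy h] at he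
      exact ⟨rfl, (D.pos_inj he).symm⟩
    · exact absurd he (D.avoid u v h s ⟨h0, h1⟩ w)

/-- A common point of two independent edges is an interior point. -/
theorem meet_indep (hsy : ∀ u v, v ∈ rot u → u ∈ rot v) {u v x y : V} (h : v ∈ rot u)
    (h' : y ∈ rot x) (h1 : u ≠ x) (h2 : u ≠ y) (h3 : v ≠ x) (h4 : v ≠ y) {s t : ℝ}
    (hs : s ∈ Icc (0 : ℝ) 1) (ht : t ∈ Icc (0 : ℝ) 1) (he : D.arc u v s = D.arc x y t) :
    s ∈ Ioo (0 : ℝ) 1 ∧ t ∈ Ioo (0 : ℝ) 1 := by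
  have s0 : s ≠ 0 := by
    rintro rfl
    rw [D.src u v h] at he
    rcases D.eq_pos hsy h' ht he.symm with ⟨-, h⟩ | ⟨-, h⟩
    · exact h1 h
    · exact h2 h
  have s1 : s ≠ 1 := by
    rintro rfl
    rw [D.tgt hsy h] at he
    rcases D.eq_pos hsy h' ht he.symm with ⟨-, h⟩ | ⟨-, h⟩
    · exact h3 h
    · exact h4 h
  have t0 : t ≠ 0 := by
    rintro rfl
    rw [D.src x y h'] at he
    rcases D.eq_pos hsy h hs he with ⟨-, h⟩ | ⟨-, h⟩
    · exact h1 h.symm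
    · exact h3 h.symm
  have t1 : t ≠ 1 := by
    rintro rfl
    rw [D.tgt hsy h'] at he
    rcases D.eq_pos hsy h hs he with ⟨-, h⟩ | ⟨-, h⟩
    · exact h2 h.symm
    · exact h4 h.symm
  exact ⟨⟨lt_of_le_of_ne hs.1 s0.symm, lt_of_le_of_ne hs.2 s1⟩,
    ⟨lt_of_le_of_ne ht.1 t0.symm, lt_of_le_of_ne ht.2 t1⟩⟩

theorem contOn {u v : V} (h : v ∈ rot u) {a b : ℝ} (ha : a ∈ Icc (0 : ℝ) 1)
    (hb : b ∈ Icc (0 : ℝ) 1) : ContinuousOn (D.arc u v) (uIcc a b) :=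
  (D.cont u v h).mono (uIcc_subset_Icc ha hb)

theorem injOn {u v : V} (h : v ∈ rot u) {a b : ℝ} (ha : a ∈ Icc (0 : ℝ) 1)
    (hb : b ∈ Icc (0 : ℝ) 1) : InjOn (D.arc u v) (uIcc a b) :=
  (D.inj u v h).mono (uIcc_subset_Icc ha hb)

theorem tendsto_src {u v : V} (h : v ∈ rot u) :
    Tendsto (D.arc u v) (𝓝[>] 0) (𝓝 (D.pos u)) := by
  have := dir_tendsto (D.contOn h (a := 0) (b := 1) (by simp) (by simp))
  rw [dir_zero_one, D.src u v h] at this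
  exact this

end GoodDrawing

end Pool.MP_b347ba_lc
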