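import Pool.Agent.Lib.MP_b347ba_lc_h80.Draw
import Pool.Agent.Lib.MP_b347ba_lc.LevelData

/-!
# The closed curves through the two hubs and an inner vertex
-/

namespace Pool.MP_b347ba_lc

open Set Filter Topology

section lists

variable {X : Type} {lev : X → ℕ} {lv : List X} {up dn : X → List X}

theorem hub_symm (h : IsLeveled lev lv up dn) :
    ∀ u v, v ∈ hubRot lv up dn u → u ∈ hubRot lv up dn v := by
  intro u v
  cases u <;> cases v <;> simp [hubRot, h.all]
  rename_i a b
  rintro (h1 | h1)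
  · exact Or.inr ((h.symm _ _).1 h1)
  · exact Or.inl ((h.symm _ _).2 h1)

theorem pair_sublist : ∀ {l : List X}, (l.Pairwise fun a b => lev a < lev b) → ∀ {a b : X},
    a ∈ l → b ∈ l → lev a < lev b → [a, b].Sublist l := by
  intro l
  induction l with
  | nil => intro _ a b ha; simp at ha
  | cons c l ih =>
    intro hs a b ha hb hab
    rw [List.pairwise_cons] at hs
    rcases List.mem_cons.1 ha with rfl | ha'
    · rcases List.mem_cons.1 hb with rfl | hb'
      · exact absurd hab (lt_irrefl _)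
      · exact List.Sublist.cons_cons _ (List.singleton_sublist.2 hb')
    · rcases List.mem_cons.1 hb with rfl | hb'
      · have := hs.1 a ha'
        omega
      · exact List.Sublist.cons _ (ih hs.2 ha' hb' hab)

end lists

section fence

variable {X : Type} {lev : X → ℕ} {lv : List X} {up dn : X → List X}

theorem adj_PQ : HV.Q ∈ hubRot lv up dn .P := by simp [hubRot]

theorem adj_QP : HV.P ∈ hubRot lv up dn .Q := by simp [hubRot]

theorem adj_Pz (h : IsLeveled lev lv up dn) (z : X) : HV.x z ∈ hubRot lv up dn .P := by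
  simp [hubRot, h.all]

theorem adj_Qz (h : IsLeveled lev lv up dn) (z : X) : HV.x z ∈ hubRot lv up dn .Q := by
  simp [hubRot, h.all]

theorem adj_zP (z : X) : HV.P ∈ hubRot lv up dn (.x z) := by simp [hubRot]

theorem adj_zQ (z : X) : HV.Q ∈ hubRot lv up dn (.x z) := by simp [hubRot]

theorem adj_up {z w : X} (hw : w ∈ up z) : HV.x w ∈ hubRot lv up dn (.x z) := by
  simp [hubRot, hw]

theorem adj_dn {z w : X} (hw : w ∈ dn z) : HV.x w ∈ hubRot lv up dn (.x z) := by
  simp [hubRot, hw]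

variable (D : GoodDrawing (hubRot lv up dn))

theorem i0 : (0 : ℝ) ∈ Icc (0 : ℝ) 1 := ⟨le_rfl, zero_le_one⟩

theorem i1 : (1 : ℝ) ∈ Icc (0 : ℝ) 1 := ⟨zero_le_one, le_rfl⟩

theorem uIcc01 : uIcc (0 : ℝ) 1 = Icc 0 1 := uIcc_of_le zero_le_one

/-- The closed curve through the two hubs and `z`. -/
def fence (z : X) : Set ℂ :=
  D.arc .P .Q '' Icc 0 1 ∪ D.arc .Q (.x z) '' Icc 0 1 ∪ D.arc (.x z) .P '' Icc 0 1

theorem dir_rev {u v : HV X} (h : v ∈ hubRot lv up dn u) : Along (dir (D.arc v u) 1 0) (D.arc u v) := by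
  refine Along.of_eq ⟨1, one_pos, fun t ht => ?_⟩
  rw [D.rev' h ⟨ht.1.le, ht.2.le⟩]
  simp only [dir]
  congr 1
  ring

/-- Properties of the two sides of the fence. -/
structure FenceCol (lev : X → ℕ) (z : X) (χ : ℂ → Bool) : Prop where
  col : Col (fence D z) χ
  low : ∀ w, lev w < lev z → Lim χ (D.arc .P (.x w)) true ∧ Lim χ (D.arc .Q (.x w)) true
  high : ∀ w, lev z < lev w → Lim χ (D.arc .P (.x w)) false ∧ Lim χ (D.arc .Q (.x w)) false
  dnv : ∀ y ∈ dn z, Lim χ (D.arc (.x z) (.x y)) true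
  cross : ∀ a b, b ∈ hubRot lv up dn a → s(a, b) ≠ s(.P, .Q) → s(a, b) ≠ s(.Q, .x z) →
    s(a, b) ≠ s(.x z, .P) → ∀ s s₀ s₁ : ℝ, 0 ≤ s₀ → s₀ < s → s < s₁ → s₁ ≤ 1 →
    D.arc a b s ∈ fence D z →
    ∃ v : Bool, Lim χ (dir (D.arc a b) s s₁) v ∧ Lim χ (dir (D.arc a b) s s₀) (!v)

theorem exists_fence (h : IsLeveled lev lv up dn) (z : X) : ∃ χ, FenceCol D lev z χ := by
  have hsy := hub_symm h
  have hPQ : HV.Q ∈ hubRot lv up dn .P := adj_PQ
  have hQz := adj_Qz h z
  have hzP : HV.P ∈ hubRot lv up dn (.x z) := adj_zP z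
  obtain ⟨χ, h1, ⟨h2, h3, h4⟩, h5, h6, h7⟩ := tri (g₁ := D.arc .P .Q) (g₂ := D.arc .Q (.x z))
    (g₃ := D.arc (.x z) .P) (a₁ := 0) (b₁ := 1) (a₂ := 0) (b₂ := 1) (a₃ := 0) (b₃ := 1)
    zero_ne_one zero_ne_one zero_ne_one (D.contOn hPQ i0 i1) (D.contOn hQz i0 i1)
    (D.contOn hzP i0 i1) (D.injOn hPQ i0 i1) (D.injOn hQz i0 i1) (D.injOn hzP i0 i1)
    (by rw [D.tgt hsy hPQ, D.src _ _ hQz]) (by rw [D.tgt hsy hQz, D.src _ _ hzP])
    (by rw [D.tgt hsy hzP, D.src _ _ hPQ])
    (by
      intro s hs t ht he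
      rw [uIcc01] at hs ht
      exact (D.meet_tgt_src hsy hPQ hQz (by simp) hs ht he).1)
    (by
      intro s hs t ht he
      rw [uIcc01] at hs ht
      exact (D.meet_tgt_src hsy hQz hzP (by simp) hs ht he).1)
    (by
      intro s hs t ht he
      rw [uIcc01] at hs ht
      exact (D.meet_tgt_src hsy hzP hPQ (by simp) hs ht he).1)
  rw [D.src _ _ hPQ] at h2
  rw [D.src _ _ hQz] at h3
  rw [D.src _ _ hzP] at h4
  simp only [dir_zero_one] at h2 h3 h4
  have b2 : Br χ (D.pos .P) (D.arc .P (.x z)) (D.arc .P .Q) :=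
    h2.along (dir_rev D (adj_Pz h z)) (Along.refl _)
  have b3 : Br χ (D.pos .Q) (D.arc .Q .P) (D.arc .Q (.x z)) :=
    h3.along (dir_rev D adj_QP) (Along.refl _)
  have b4 : Br χ (D.pos (.x z)) (D.arc (.x z) .Q) (D.arc (.x z) .P) :=
    h4.along (dir_rev D (adj_zQ z)) (Along.refl _)
  have rP := D.rotation .P
  have rQ := D.rotation .Q
  have rz := D.rotation (.x z)
  simp only [uIcc01] at h1 h5 h6 h7
  refine ⟨χ, h1, ?_, ?_, ?_, ?_⟩
  · intro w hw
    have hl : [w, z].Sublist lv := pair_sublist h.sorted (h.all w) (h.all z) hw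
    constructor
    · refine (b2 _ (D.tendsto_src (adj_Pz h w))).1 ?_
      have hl2 : [HV.x z, .x w, .Q].Sublist (hubRot lv up dn .P) := by
        have := (hl.reverse.map HV.x).append_right [HV.Q]
        simpa [hubRot] using this
      simpa using rP.sublist (hl2.map (D.arc .P))
    · refine (b3 _ (D.tendsto_src (adj_Qz h w))).1 ?_
      have hl2 : [HV.x w, .x z, .P].Sublist (hubRot lv up dn .Q) := by
        have := (hl.map HV.x).append_right [HV.P]
        simpa [hubRot] using this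
      have h3 := rQ.sublist (hl2.map (D.arc .Q))
      exact h3.turn.turn
  · intro w hw
    have hl : [z, w].Sublist lv := pair_sublist h.sorted (h.all z) (h.all w) hw
    constructor
    · refine (b2 _ (D.tendsto_src (adj_Pz h w))).2 ?_
      have hl2 : [HV.x w, .x z, .Q].Sublist (hubRot lv up dn .P) := by
        have := (hl.reverse.map HV.x).append_right [HV.Q]
        simpa [hubRot] using this
      have h3 := rP.sublist (hl2.map (D.arc .P))
      exact h3.turn.turn
    · refine (b3 _ (D.tendsto_src (adj_Qz h w))).2 ?_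
      have hl2 : [HV.x z, .x w, .P].Sublist (hubRot lv up dn .Q) := by
        have := (hl.map HV.x).append_right [HV.P]
        simpa [hubRot] using this
      simpa using rQ.sublist (hl2.map (D.arc .Q))
  · intro y hy
    refine (b4 _ (D.tendsto_src (adj_dn hy))).1 ?_
    have hl2 : [HV.Q, .x y, .P].Sublist (hubRot lv up dn (.x z)) := by
      have h1 : [HV.x y, .P].Sublist ((dn z).reverse.map .x ++ [.P]) := by
        have : [HV.x y].Sublist ((dn z).reverse.map .x) := by
          rw [List.singleton_sublist]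
          simpa using hy
        simpa using this.append_right [HV.P]
      have h2 := List.Sublist.cons_cons HV.Q h1
      exact h2.trans (List.sublist_append_right _ _)
    simpa using rz.sublist (hl2.map (D.arc (.x z)))
  · intro a b hab n1 n2 n3 s s₀ s₁ hs₀ hs hs' hs₁ hmem
    have hsI : s ∈ Ioo (0 : ℝ) 1 := ⟨by linarith, by linarith⟩
    have hsI' : s ∈ Icc (0 : ℝ) 1 := ⟨by linarith, by linarith⟩
    have hI0 : s₀ ∈ Icc (0 : ℝ) 1 := ⟨by linarith, by linarith⟩
    have hI1 : s₁ ∈ Icc (0 : ℝ) 1 := ⟨by linarith, by linarith⟩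
    have key : ∀ u v, v ∈ hubRot lv up dn u → s(a, b) ≠ s(u, v) →
        (∀ r ∈ Icc (0 : ℝ) 1, r ≠ 0 → r ≠ 1 →
          Br χ (D.arc u v r) (dir (D.arc u v) r 0) (dir (D.arc u v) r 1)) →
        ∀ r ∈ Icc (0 : ℝ) 1, D.arc u v r = D.arc a b s →
        ∃ v : Bool, Lim χ (dir (D.arc a b) s s₁) v ∧ Lim χ (dir (D.arc a b) s s₀) (!v) := by
      intro u v huv hne hBr r hr he
      have r0 : r ≠ 0 := by
        rintro rfl
        rw [D.src u v huv] at he
        exact D.avoid a b hab s hsI u he.symm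
      have r1 : r ≠ 1 := by
        rintro rfl
        rw [D.tgt hsy huv] at he
        exact D.avoid a b hab s hsI v he.symm
      have hrI : r ∈ Ioo (0 : ℝ) 1 :=
        ⟨lt_of_le_of_ne hr.1 r0.symm, lt_of_le_of_ne hr.2 r1⟩
      exact cross_rule (D.proper u v a b huv hab hne.symm r hrI s hsI he) (hBr r hr r0 r1)
        (Or.inl ⟨hrI.1, hrI.2⟩) he.symm (D.contOn hab hsI' hI0) (D.contOn hab hsI' hI1) hs hs'
    rcases hmem with (⟨r, hr, he⟩ | ⟨r, hr, he⟩) | ⟨r, hr, he⟩
    · exact key _ _ hPQ n1 h5 r hr he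
    · exact key _ _ hQz n2 h6 r hr he
    · exact key _ _ hzP n3 h7 r hr he

end fence

end Pool.MP_b347ba_lc
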