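import Pool.Agent.Lib.MP_b347ba_lc_h80.Assemble
import Pool.Agent.Lib.MP_b347ba_lc_h74.Program

/-!
# Good rotation realizability is NP-hard
-/

namespace Pool.MP_b347ba_lc

/-- Good rotation realizability is NP-hard. -/
theorem npHard_GRR : NPHard GRR := by
  intro L hL
  obtain ⟨f, hf, h⟩ := program L hL
  refine ⟨f, hf, fun x => ?_⟩
  obtain ⟨n, m, cl, hn, hfx, hx⟩ := h x
  rw [hx, hfx, code_iff_sat hn cl]

end Pool.MP_b347ba_lc
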