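import Pool.Agent.Lib.MP_b347ba_lc_h80.Jordan

/-!
# Germs of curves and the two sides of a closed curve
-/

namespace Pool.MP_b347ba_lc

open Set Filter Topology

/-- The germ `g'` runs along the germ `g`. -/
def Along (g' g : ℝ → ℂ) : Prop :=
  ∀ δ : ℝ, 0 < δ → ∃ δ' : ℝ, 0 < δ' ∧ ∀ t ∈ Ioo 0 δ', ∃ t' ∈ Ioo 0 δ, g' t = g t'

theorem Along.refl (g : ℝ → ℂ) : Along g g := fun δ hδ => ⟨δ, hδ, fun t ht => ⟨t, ht, rfl⟩⟩

theorem Along.trans {g g' g'' : ℝ → ℂ} (h : Along g g') (h' : Along g' g'') : Along g g'' := by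
  intro δ hδ
  obtain ⟨δ', hδ', h1⟩ := h' δ hδ
  obtain ⟨δ'', hδ'', h2⟩ := h δ' hδ'
  refine ⟨δ'', hδ'', fun t ht => ?_⟩
  obtain ⟨t', ht', e⟩ := h2 t ht
  obtain ⟨t'', ht'', e'⟩ := h1 t' ht'
  exact ⟨t'', ht'', e.trans e'⟩

theorem Along.of_scale {g g' : ℝ → ℂ} {c : ℝ} (hc : 0 < c)
    (h : ∃ δ : ℝ, 0 < δ ∧ ∀ t ∈ Ioo 0 δ, g' t = g (c * t)) : Along g' g := by
  intro δ hδ
  obtain ⟨δ₀, hδ₀, h⟩ := h
  refine ⟨min δ₀ (δ / c), lt_min hδ₀ (div_pos hδ hc), fun t ht => ?_⟩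
  have h1 := lt_of_lt_of_le ht.2 (min_le_left _ _)
  have h2 := lt_of_lt_of_le ht.2 (min_le_right _ _)
  rw [lt_div_iff₀ hc] at h2
  exact ⟨c * t, ⟨mul_pos hc ht.1, by linarith⟩, h t ⟨ht.1, h1⟩⟩

theorem Along.of_eq {g g' : ℝ → ℂ} (h : ∃ δ : ℝ, 0 < δ ∧ ∀ t ∈ Ioo 0 δ, g' t = g t) :
    Along g' g := by
  refine Along.of_scale (c := 1) one_pos ?_
  simpa using h

theorem LeaveCW.along {p : ℂ} {l l' : List (ℝ → ℂ)} (h : LeaveCW p l)
    (hl : List.Forall₂ Along l' l) : LeaveCW p l' := by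
  obtain ⟨f, θ, δ, hf, hδ, hθ, hr⟩ := h
  have hlen : l'.length = l.length := hl.length_eq
  have key : ∃ δ' : ℝ, 0 < δ' ∧ ∀ (i : ℕ) (g' : ℝ → ℂ), l'[i]? = some g' → ∀ t ∈ Ioo 0 δ',
      ∃ g : ℝ → ℂ, l[i]? = some g ∧ ∃ t' ∈ Ioo 0 δ, g' t = g t' := by
    clear hθ hr hlen
    induction hl with
    | nil => exact ⟨1, one_pos, fun i g' h => by simp at h⟩
    | @cons a b l₁ l₂ hab _ ih =>
      obtain ⟨δ₁, hδ₁, h₁⟩ := ih
      obtain ⟨δ₂, hδ₂, h₂⟩ := hab δ hδ
      refine ⟨min δ₁ δ₂, lt_min hδ₁ hδ₂, fun i g' h t ht => ?_⟩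
      have t1 : t ∈ Ioo 0 δ₁ := ⟨ht.1, lt_of_lt_of_le ht.2 (min_le_left _ _)⟩
      have t2 : t ∈ Ioo 0 δ₂ := ⟨ht.1, lt_of_lt_of_le ht.2 (min_le_right _ _)⟩
      cases i with
      | zero =>
        simp only [List.getElem?_cons_zero, Option.some.injEq] at h
        subst h
        exact ⟨b, by simp, h₂ t t2⟩
      | succ i =>
        simp only [List.getElem?_cons_succ] at h ⊢
        exact h₁ i g' h t t1
  obtain ⟨δ', hδ', h'⟩ := key
  refine ⟨f, θ, δ', hf, hδ', fun i j hij hj => hθ i j hij (hlen ▸ hj), fun i g' hg' t ht => ?_⟩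
  obtain ⟨g, hg, t', ht', e⟩ := h' i g' hg' t ht
  rw [e]
  exact hr i g hg t' ht'

theorem LeaveCW.sublist {p : ℂ} {l l' : List (ℝ → ℂ)} (h : LeaveCW p l) (hl : l'.Sublist l) :
    LeaveCW p l' := by
  obtain ⟨f, θ, δ, hf, hδ, hθ, hr⟩ := h
  obtain ⟨e, he⟩ := List.sublist_iff_exists_orderEmbedding_getElem?_eq.1 hl
  refine ⟨f, fun i => θ (e i), δ, hf, hδ, fun i j hij hj => ?_, fun i g hg t ht => ?_⟩
  · refine hθ _ _ (e.strictMono hij) ?_
    have h1 := he j
    rw [List.getElem?_eq_getElem hj] at h1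
    by_contra hcon
    push Not at hcon
    rw [List.getElem?_eq_none hcon] at h1
    exact Option.some_ne_none _ h1
  · exact hr (e i) g (by rw [← he, hg]) t ht

theorem LeaveCW.turn {p : ℂ} {a : ℝ → ℂ} {l : List (ℝ → ℂ)} (h : LeaveCW p (a :: l)) :
    LeaveCW p (l ++ [a]) := by
  obtain ⟨f, θ, δ, hf, hδ, hθ, hr⟩ := h
  refine ⟨f, fun i => if i < l.length then θ (i + 1) else θ 0 - 2 * Real.pi, δ, hf, hδ,
    fun i j hij hj => ?_, fun i g hg t ht => ?_⟩
  · simp only [List.length_append, List.length_cons, List.length_nil, zero_add] at hj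
    have hi : i < l.length := by omega
    simp only [hi, if_true]
    by_cases hj' : j < l.length
    · simp only [hj', if_true]
      exact hθ _ _ (by omega) (by simpa using hj')
    · simp only [hj', if_false]
      have := hθ 0 (i + 1) (by omega) (by simpa using hi)
      constructor
      · linarith [this.2]
      · linarith [this.1]
  · by_cases hi : i < l.length
    · simp only [hi, if_true]
      rw [List.getElem?_append_left hi] at hg
      exact hr (i + 1) g (by simpa using hg) t ht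
    · simp only [hi, if_false]
      have hi' : i = l.length := by
        by_contra hne
        have : l.length + 1 ≤ i := by omega
        rw [List.getElem?_eq_none (by simpa using this)] at hg
        simp at hg
      subst hi'
      simp only [List.getElem?_concat_length, Option.some.injEq] at hg
      subst hg
      have he : Complex.exp (((θ 0 - 2 * Real.pi : ℝ) : ℂ) * Complex.I) =
          Complex.exp (θ 0 * Complex.I) := by
        push_cast
        rw [sub_mul, Complex.exp_sub, Complex.exp_two_pi_mul_I, div_one]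
      rw [he]
      exact hr 0 a rfl t ht

/-- Four germs which leave `p` in this cyclic order, clockwise or counterclockwise. -/
def Sep (p : ℂ) (a b c d : ℝ → ℂ) : Prop := LeaveCW p [a, b, c, d] ∨ LeaveCW p [a, d, c, b]

theorem Sep.rot {p : ℂ} {a b c d : ℝ → ℂ} (h : Sep p a b c d) : Sep p b c d a := by
  rcases h with h | h
  · exact Or.inl h.turn
  · exact Or.inr h.turn.turn.turn

theorem Sep.flip {p : ℂ} {a b c d : ℝ → ℂ} (h : Sep p a b c d) : Sep p a d c b := by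
  rcases h with h | h
  · exact Or.inr h
  · exact Or.inl h

theorem Sep.along {p : ℂ} {a b c d a' b' c' d' : ℝ → ℂ} (h : Sep p a b c d) (ha : Along a' a)
    (hb : Along b' b) (hc : Along c' c) (hd : Along d' d) : Sep p a' b' c' d' := by
  rcases h with h | h
  · exact Or.inl (h.along (.cons ha (.cons hb (.cons hc (.cons hd .nil)))))
  · exact Or.inr (h.along (.cons ha (.cons hd (.cons hc (.cons hb .nil)))))

/-- `χ` is a colouring of the complement of `Γ` which is locally constant. -/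
def Col (Γ : Set ℂ) (χ : ℂ → Bool) : Prop := ∀ z, z ∉ Γ → ∀ᶠ w in 𝓝 z, χ w = χ z

theorem Col.path {Γ : Set ℂ} {χ : ℂ → Bool} (h : Col Γ χ) {g : ℝ → ℂ} {S : Set ℝ}
    (hS : IsPreconnected S) (hg : ContinuousOn g S) (hd : ∀ t ∈ S, g t ∉ Γ) {s t : ℝ}
    (hs : s ∈ S) (ht : t ∈ S) : χ (g s) = χ (g t) := by
  have hc : ContinuousOn (fun t => χ (g t)) S := by
    intro x hx
    have h1 : Tendsto g (𝓝[S] x) (𝓝 (g x)) := hg x hx
    have h2 : ∀ᶠ y in 𝓝[S] x, χ (g y) = χ (g x) := h1 (h _ (hd x hx))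
    exact (tendsto_const_nhds (x := χ (g x))).congr' (h2.mono fun y hy => hy.symm)
  exact hS.constant_of_mapsTo (IsDiscrete.univ (X := Bool)) hc (mapsTo_univ _ _) hs ht

/-- The colour of a germ. -/
def Lim (χ : ℂ → Bool) (g : ℝ → ℂ) (c : Bool) : Prop := ∀ᶠ t in 𝓝[>] (0 : ℝ), χ (g t) = c

theorem Lim.unique {χ : ℂ → Bool} {g : ℝ → ℂ} {c c' : Bool} (h : Lim χ g c) (h' : Lim χ g c') :
    c = c' := by
  obtain ⟨t, h1, h2⟩ := (h.and h').exists
  rw [← h1, h2]

/-- The germ of `g` at `s` in the direction of `b`. -/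
def dir (g : ℝ → ℂ) (s b : ℝ) : ℝ → ℂ := fun t => g (s + (b - s) * t)

theorem dir_zero (g : ℝ → ℂ) (s b : ℝ) : dir g s b 0 = g s := by simp [dir]

theorem dir_one (g : ℝ → ℂ) (s b : ℝ) : dir g s b 1 = g b := by simp [dir]

theorem dir_zero_one (g : ℝ → ℂ) : dir g 0 1 = g := by
  funext t
  simp [dir]

theorem dir_sub (g : ℝ → ℂ) (s b t : ℝ) : dir g s b (1 - t) = dir g b s t := by
  simp only [dir]
  congr 1
  ring

theorem dir_mem_uIcc {s b t : ℝ} (ht : t ∈ Icc (0 : ℝ) 1) : s + (b - s) * t ∈ uIcc s b := by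
  rcases le_total s b with h | h
  · rw [uIcc_of_le h]
    constructor <;> nlinarith [ht.1, ht.2]
  · rw [uIcc_of_ge h]
    constructor <;> nlinarith [ht.1, ht.2]

theorem exists_of_mem_uIcc {s b r : ℝ} (hr : r ∈ uIcc s b) (h : s ≠ b) :
    ∃ t ∈ Icc (0 : ℝ) 1, r = s + (b - s) * t := by
  have hb : b - s ≠ 0 := sub_ne_zero.2 h.symm
  refine ⟨(r - s) / (b - s), ?_, by field_simp; ring⟩
  rcases lt_or_gt_of_ne h with h | h
  · rw [uIcc_of_le h.le] at hr
    have : 0 < b - s := by linarith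
    exact ⟨div_nonneg (by linarith [hr.1]) this.le, (div_le_one this).2 (by linarith [hr.2])⟩
  · rw [uIcc_of_ge h.le] at hr
    have : b - s < 0 := by linarith
    exact ⟨div_nonneg_of_nonpos (by linarith [hr.2]) this.le,
      (div_le_one_of_neg this).2 (by linarith [hr.1])⟩

theorem dir_continuousOn {g : ℝ → ℂ} {s b : ℝ} (hg : ContinuousOn g (uIcc s b)) :
    ContinuousOn (dir g s b) (Icc 0 1) :=
  hg.comp (by fun_prop) fun _ ht => dir_mem_uIcc ht

theorem dir_tendsto {g : ℝ → ℂ} {s b : ℝ} (hg : ContinuousOn g (uIcc s b)) :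
    Tendsto (dir g s b) (𝓝[>] 0) (𝓝 (g s)) := by
  have h := dir_continuousOn hg 0 ⟨le_rfl, zero_le_one⟩
  have h2 : Tendsto (dir g s b) (𝓝[Icc 0 1] 0) (𝓝 (dir g s b 0)) := h
  rw [dir_zero] at h2
  refine h2.mono_left ?_
  rw [← nhdsWithin_Ioo_eq_nhdsGT (zero_lt_one (α := ℝ))]
  exact nhdsWithin_mono _ Ioo_subset_Icc_self

theorem dir_injOn {g : ℝ → ℂ} {s b : ℝ} (hg : InjOn g (uIcc s b)) (h : s ≠ b) :
    InjOn (dir g s b) (Icc 0 1) := by
  intro x hx y hy he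
  have := hg (dir_mem_uIcc hx) (dir_mem_uIcc hy) he
  have hb : b - s ≠ 0 := sub_ne_zero.2 h.symm
  have h2 : (b - s) * x = (b - s) * y := by linarith
  exact mul_left_cancel₀ hb h2

theorem dir_image {g : ℝ → ℂ} {s b : ℝ} (h : s ≠ b) : dir g s b '' Icc 0 1 = g '' uIcc s b := by
  apply Subset.antisymm
  · rintro _ ⟨t, ht, rfl⟩
    exact ⟨_, dir_mem_uIcc ht, rfl⟩
  · rintro _ ⟨r, hr, rfl⟩
    obtain ⟨t, ht, e⟩ := exists_of_mem_uIcc hr h
    exact ⟨t, ht, by rw [e]; rfl⟩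

/-- The colour of the germ of a path avoiding `Γ`. -/
theorem Col.lim {Γ : Set ℂ} {χ : ℂ → Bool} (h : Col Γ χ) {g : ℝ → ℂ} {s b : ℝ}
    (hg : ContinuousOn g (uIcc s b)) (hd : ∀ r ∈ uIcc s b, r ≠ s → g r ∉ Γ) (hsb : s ≠ b) :
    Lim χ (dir g s b) (χ (g b)) := by
  have hIoc : ∀ t ∈ Ioc (0 : ℝ) 1, dir g s b t ∉ Γ := by
    intro t ht
    refine hd _ (dir_mem_uIcc ⟨ht.1.le, ht.2⟩) ?_
    have hb : b - s ≠ 0 := sub_ne_zero.2 hsb.symm
    have := mul_ne_zero hb ht.1.ne'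
    intro he
    apply this
    linarith
  have : ∀ᶠ t in 𝓝[>] (0 : ℝ), t ∈ Ioo (0 : ℝ) 1 := Ioo_mem_nhdsGT one_pos
  filter_upwards [this] with t ht
  rw [← dir_one g s b]
  exact h.path isPreconnected_Ioc ((dir_continuousOn hg).mono Ioc_subset_Icc_self) hIoc
    ⟨ht.1, ht.2.le⟩ ⟨one_pos, le_rfl⟩

/-- Colours on both sides of a branch of `Γ`: `a` is the backward and `c` is the forward germ
at `p`. -/
def Br (χ : ℂ → Bool) (p : ℂ) (a c : ℝ → ℂ) : Prop :=
  ∀ g : ℝ → ℂ, Tendsto g (𝓝[>] 0) (𝓝 p) →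
    (LeaveCW p [a, g, c] → Lim χ g true) ∧ (LeaveCW p [c, g, a] → Lim χ g false)

theorem Br.along {χ : ℂ → Bool} {p : ℂ} {a c a' c' : ℝ → ℂ} (h : Br χ p a c) (ha : Along a a')
    (hc : Along c c') : Br χ p a' c' := by
  intro g hg
  exact ⟨fun h' => (h g hg).1 (h'.along (.cons ha (.cons (Along.refl g) (.cons hc .nil)))),
    fun h' => (h g hg).2 (h'.along (.cons hc (.cons (Along.refl g) (.cons ha .nil))))⟩

theorem Br.opp {χ : ℂ → Bool} {p : ℂ} {a b c d : ℝ → ℂ} (h : Br χ p a c) (hs : Sep p a b c d)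
    (hb : Tendsto b (𝓝[>] 0) (𝓝 p)) (hd : Tendsto d (𝓝[>] 0) (𝓝 p)) :
    ∃ v : Bool, Lim χ b v ∧ Lim χ d (!v) := by
  rcases hs with hs | hs
  · refine ⟨true, (h b hb).1 (hs.sublist ?_), (h d hd).2 (hs.turn.turn.sublist ?_)⟩
    · exact List.Sublist.cons_cons _ (List.Sublist.cons_cons _ (List.Sublist.cons_cons _
        (List.nil_sublist _)))
    · exact List.Sublist.cons_cons _ (List.Sublist.cons_cons _ (List.Sublist.cons_cons _
        (List.nil_sublist _)))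
  · refine ⟨false, (h b hb).2 (hs.turn.turn.sublist ?_), (h d hd).1 (hs.sublist ?_)⟩
    · exact List.Sublist.cons_cons _ (List.Sublist.cons_cons _ (List.Sublist.cons_cons _
        (List.nil_sublist _)))
    · exact List.Sublist.cons_cons _ (List.Sublist.cons_cons _ (List.Sublist.cons_cons _
        (List.nil_sublist _)))

theorem Br.same {χ : ℂ → Bool} {p : ℂ} {a b c d : ℝ → ℂ} (h : Br χ p a c) (hs : Sep p a c b d)
    (hb : Tendsto b (𝓝[>] 0) (𝓝 p)) (hd : Tendsto d (𝓝[>] 0) (𝓝 p)) :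
    ∃ v : Bool, Lim χ b v ∧ Lim χ d v := by
  rcases hs with hs | hs
  · have h1 : LeaveCW p [c, b, d, a] := hs.turn
    refine ⟨false, (h b hb).2 (h1.sublist ?_), (h d hd).2 (h1.sublist ?_)⟩
    · exact List.Sublist.cons_cons _ (List.Sublist.cons_cons _ (List.Sublist.cons _
        (List.Sublist.cons_cons _ (List.nil_sublist _))))
    · exact List.Sublist.cons_cons _ (List.Sublist.cons _ (List.Sublist.cons_cons _
        (List.Sublist.cons_cons _ (List.nil_sublist _))))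
  · refine ⟨true, (h b hb).1 (hs.sublist ?_), (h d hd).1 (hs.sublist ?_)⟩
    · exact List.Sublist.cons_cons _ (List.Sublist.cons _ (List.Sublist.cons_cons _
        (List.Sublist.cons_cons _ (List.nil_sublist _))))
    · exact List.Sublist.cons_cons _ (List.Sublist.cons_cons _ (List.Sublist.cons _
        (List.Sublist.cons_cons _ (List.nil_sublist _))))

end Pool.MP_b347ba_lc
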