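import Pool.Agent.Lib.MP_b347ba_lc_h80.Core

/-!
# The sides of a simple closed curve
-/

namespace Pool.MP_b347ba_lc

open Set Filter Topology Complex

theorem J.Loop.mk' {γ : ℝ → ℂ} {T : ℝ} (hT : 0 < T) (hc : Continuous γ)
    (hp : ∀ t, γ (t + T) = γ t) (hi : InjOn γ (Ico 0 T)) : J.Loop γ T where
  pos := hT
  cont := hc
  per := hp
  inj := by
    intro s t h1 h2 he
    have hper : Function.Periodic γ T := hp
    have e1 : γ (toIcoMod hT 0 s) = γ s := by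
      rw [← self_sub_toIcoDiv_zsmul hT 0 s, hper.sub_zsmul_eq]
    have e2 : γ (toIcoMod hT 0 t) = γ t := by
      rw [← self_sub_toIcoDiv_zsmul hT 0 t, hper.sub_zsmul_eq]
    have m1 := toIcoMod_mem_Ico hT 0 s
    have m2 := toIcoMod_mem_Ico hT 0 t
    rw [zero_add] at m1 m2
    have := hi m1 m2 (by rw [e1, e2, he])
    rw [← self_sub_toIcoDiv_zsmul hT 0 s, ← self_sub_toIcoDiv_zsmul hT 0 t] at this
    have h3 : t - s = ((toIcoDiv hT 0 t - toIcoDiv hT 0 s : ℤ) : ℝ) * T := by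
      simp only [zsmul_eq_mul] at this
      push_cast
      linarith
    have h4 : 0 < (toIcoDiv hT 0 t - toIcoDiv hT 0 s : ℤ) := by
      by_contra hcon
      push Not at hcon
      have : ((toIcoDiv hT 0 t - toIcoDiv hT 0 s : ℤ) : ℝ) ≤ 0 := by exact_mod_cast hcon
      nlinarith
    have h5 : (toIcoDiv hT 0 t - toIcoDiv hT 0 s : ℤ) < 1 := by
      by_contra hcon
      push Not at hcon
      have : (1 : ℝ) ≤ ((toIcoDiv hT 0 t - toIcoDiv hT 0 s : ℤ) : ℝ) := by exact_mod_cast hcon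
      nlinarith
    omega

/-- A simple closed curve has a left side `A` and a right side `B`. -/
theorem jordan_side {γ : ℝ → ℂ} {T : ℝ} (hT : 0 < T) (hc : Continuous γ)
    (hp : ∀ t, γ (t + T) = γ t) (hi : InjOn γ (Ico 0 T)) :
    ∃ A B : Set ℂ, IsOpen A ∧ IsOpen B ∧ Disjoint A B ∧ A ∪ B = (range γ)ᶜ ∧
      (∀ s g, Tendsto g (𝓝[>] 0) (𝓝 (γ s)) →
        LeaveCW (γ s) [fun t => γ (s - t), g, fun t => γ (s + t)] →
        ∀ᶠ t in 𝓝[>] (0 : ℝ), g t ∈ A) ∧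
      (∀ s g, Tendsto g (𝓝[>] 0) (𝓝 (γ s)) →
        LeaveCW (γ s) [fun t => γ (s + t), g, fun t => γ (s - t)] →
        ∀ᶠ t in 𝓝[>] (0 : ℝ), g t ∈ B) := by
  have hγ : J.Loop γ T := J.Loop.mk' hT hc hp hi
  obtain ⟨m, hm⟩ := J.exists_isTurn hγ
  have hopen : ∀ n, IsOpen {z | J.IsWind γ T z n} := J.isOpen_isWind hγ
  have hπ := Real.pi_pos
  -- the common part of the two germ statements
  have key : ∀ (s : ℝ) (g : ℝ → ℂ), Tendsto g (𝓝[>] 0) (𝓝 (γ s)) →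
      ∀ (h : ℂ ≃ₜ ℂ) (δ φ : ℝ) (j : ℤ), OP h → 0 < δ →
      (∀ t ∈ Ioo 0 δ, ∃ r : ℝ, 0 < r ∧ h (g t) = h (γ s) + r * exp (φ * I)) →
      (∃ ε : ℝ, 0 < ε ∧ ∀ ρ ∈ Ioo 0 ε,
        J.IsWind (fun t => h (γ t)) T (h (γ s) + ρ * exp (φ * I)) j) →
      ∀ᶠ t in 𝓝[>] (0 : ℝ), J.IsWind γ T (g t) j := by
    intro s g hg h δ φ j hh hδ hray ⟨ε, hε, hW⟩
    have h1 : Tendsto (fun t => h (g t)) (𝓝[>] 0) (𝓝 (h (γ s))) :=
      (h.continuous.tendsto _).comp hg
    have h2 : ∀ᶠ t in 𝓝[>] (0 : ℝ), h (g t) ∈ Metric.ball (h (γ s)) ε :=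
      h1 (Metric.ball_mem_nhds _ hε)
    have h3 : ∀ᶠ t in 𝓝[>] (0 : ℝ), t ∈ Ioo 0 δ := Ioo_mem_nhdsGT hδ
    filter_upwards [h2, h3] with t ht2 ht3
    obtain ⟨r, hr, e⟩ := hray t ht3
    rw [mem_ball_iff_norm, e, add_sub_cancel_left, norm_mul, norm_exp_ofReal_mul_I, mul_one,
      norm_real, Real.norm_eq_abs, abs_of_pos hr] at ht2
    have w1 := hW r ⟨hr, ht2⟩
    rw [← e] at w1
    have hn : g t ∉ range γ := by
      rintro ⟨u, hu⟩
      exact w1.notMem ⟨u, by simp only [hu]⟩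
    obtain ⟨n, hn⟩ := J.exists_isWind hγ hn
    have w2 := hn.map hγ hh
    have : n = j := w2.unique w1
    rw [← this]
    exact hn
  refine ⟨{z | J.IsWind γ T z m}, ⋃ n ∈ {n : ℤ | n ≠ m}, {z | J.IsWind γ T z n}, hopen m,
    isOpen_biUnion fun n _ => hopen n, ?_, ?_, ?_, ?_⟩
  · rw [Set.disjoint_left]
    intro z hz hz'
    simp only [mem_iUnion] at hz'
    obtain ⟨n, hn, hz'⟩ := hz'
    exact hn (J.Wn.unique hz' hz)
  · apply Subset.antisymm
    · rintro z (hz | hz)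
      · exact J.IsWind.notMem hz
      · simp only [mem_iUnion] at hz
        obtain ⟨n, hn, hz⟩ := hz
        exact J.IsWind.notMem hz
    · intro z hz
      obtain ⟨n, hn⟩ := J.exists_isWind hγ hz
      rcases eq_or_ne n m with rfl | h
      · exact Or.inl hn
      · refine Or.inr ?_
        simp only [mem_iUnion]
        exact ⟨n, h, hn⟩
  · intro s g hg hL
    obtain ⟨h, θ, δ, hh, hδ, hθ, hr⟩ := hL
    refine key s g hg h δ (θ 1) m hh hδ (hr 1 g rfl) ?_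
    have h01 := hθ 0 1 (by norm_num) (by simp)
    have h02 := hθ 0 2 (by norm_num) (by simp)
    have h12 := hθ 1 2 (by norm_num) (by simp)
    exact J.core (hγ.map h) (hm.map hγ hh) (s := s) (δ := δ) (θo := θ 2) (θi := θ 0)
      hδ (hr 2 _ rfl) (hr 0 _ rfl) h02.1 h02.2 (θ 0 - θ 1 - Real.pi) m (Or.inl ⟨rfl, rfl⟩)
      (by linarith) (by linarith) h12.1 h12.2
  · intro s g hg hL
    obtain ⟨h, θ, δ, hh, hδ, hθ, hr⟩ := hL
    have h01 := hθ 0 1 (by norm_num) (by simp)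
    have h02 := hθ 0 2 (by norm_num) (by simp)
    have h12 := hθ 1 2 (by norm_num) (by simp)
    have he : exp (((θ 0 - 2 * Real.pi : ℝ) : ℂ) * I) = exp (θ 0 * I) := by
      push_cast
      rw [sub_mul, exp_sub, exp_two_pi_mul_I, div_one]
    have hcore := J.core (hγ.map h) (hm.map hγ hh) (s := s) (δ := δ) (θo := θ 0 - 2 * Real.pi)
      (θi := θ 2) (φ := θ 1) hδ
      (by
        intro t ht
        rw [he]
        exact hr 0 _ rfl t ht) (hr 2 _ rfl) (by linarith) (by linarith)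
      (θ 2 - θ 1 + Real.pi) (m - 1) (Or.inr ⟨rfl, rfl⟩)
      (by linarith) (by linarith) (by linarith) (by linarith)
    have := key s g hg h δ (θ 1) (m - 1) hh hδ (hr 1 g rfl) hcore
    filter_upwards [this] with t ht
    simp only [mem_iUnion]
    exact ⟨m - 1, by simp, ht⟩

end Pool.MP_b347ba_lc
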