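import Pool.Agent.Lib.MP_b347ba_lc_h80.Cross

/-!
# Levels and the edges passing them
-/

namespace Pool.MP_b347ba_lc

open Set Filter Topology

variable {X : Type} {lev : X → ℕ} {lv : List X} {up dn : X → List X}

/-- The two hubs in some order. -/
def Hubs (H K : HV X) : Prop := (H = .P ∧ K = .Q) ∨ (H = .Q ∧ K = .P)

theorem Hubs.symm {H K : HV X} (h : Hubs H K) : Hubs K H := by
  rcases h with ⟨rfl, rfl⟩ | ⟨rfl, rfl⟩
  · exact Or.inr ⟨rfl, rfl⟩
  · exact Or.inl ⟨rfl, rfl⟩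

theorem Hubs.ne {H K : HV X} (h : Hubs H K) : H ≠ K := by
  rcases h with ⟨rfl, rfl⟩ | ⟨rfl, rfl⟩ <;> simp

theorem Hubs.ne_x {H K : HV X} (h : Hubs H K) (z : X) : H ≠ .x z := by
  rcases h with ⟨rfl, rfl⟩ | ⟨rfl, rfl⟩ <;> simp

theorem Hubs.adj {H K : HV X} (hH : Hubs H K) (h : IsLeveled lev lv up dn) (z : X) :
    HV.x z ∈ hubRot lv up dn H := by
  rcases hH with ⟨rfl, rfl⟩ | ⟨rfl, rfl⟩
  · exact adj_Pz h z
  · exact adj_Qz h z

theorem Hubs.adj' {H K : HV X} (hH : Hubs H K) (z : X) : H ∈ hubRot lv up dn (.x z) := by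
  rcases hH with ⟨rfl, rfl⟩ | ⟨rfl, rfl⟩
  · exact adj_zP z
  · exact adj_zQ z

theorem lev_inj (h : IsLeveled lev lv up dn) {z w : X} (he : lev z = lev w) : z = w := by
  by_contra hzw
  have hne : ∀ l : List X, (l.Pairwise fun a b => lev a < lev b) → w ∈ l → z ∈ l → False := by
    intro l
    induction l with
    | nil => intro _ hw; simp at hw
    | cons c l ih =>
      intro hp hw hz
      rw [List.pairwise_cons] at hp
      rcases List.mem_cons.1 hw with e1 | h1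
      · rcases List.mem_cons.1 hz with e2 | h2
        · exact hzw (e2.trans e1.symm)
        · have := hp.1 z h2
          rw [← e1] at this
          omega
      · rcases List.mem_cons.1 hz with e2 | h2
        · have := hp.1 w h1
          rw [← e2] at this
          omega
        · exact ih hp.2 h1 h2
  exact hne lv h.sorted (h.all w) (h.all z)

variable (D : GoodDrawing (hubRot lv up dn))

/-- The path from the hub `H` through `z` to the hub `K`. -/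
noncomputable def lam (H K : HV X) (z : X) (t : ℝ) : ℂ :=
  if t ≤ 1 then D.arc H (.x z) t else D.arc (.x z) K (t - 1)

theorem lam_left {H K : HV X} {z : X} {t : ℝ} (ht : t ≤ 1) :
    lam D H K z t = D.arc H (.x z) t := by
  simp [lam, ht]

theorem lam_right (h : IsLeveled lev lv up dn) {H K : HV X} (hH : Hubs H K) {z : X} {t : ℝ}
    (ht : 1 ≤ t) : lam D H K z t = D.arc (.x z) K (t - 1) := by
  rcases ht.eq_or_lt with h1 | h1
  · rw [← h1, lam_left D le_rfl, sub_self, D.tgt (hub_symm h) (hH.adj h z),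
      D.src _ _ (hH.symm.adj' z)]
  · simp [lam, h1]

theorem lam_right' (h : IsLeveled lev lv up dn) {H K : HV X} (hH : Hubs H K) {z : X} {t : ℝ}
    (ht : 1 ≤ t) (ht' : t ≤ 2) : lam D H K z t = D.arc K (.x z) (2 - t) := by
  rw [lam_right D h hH ht, D.rev' (hH.symm.adj' z) ⟨by linarith, by linarith⟩]
  congr 1
  ring

theorem lam_rev (h : IsLeveled lev lv up dn) {H K : HV X} (hH : Hubs H K) {z : X} {t : ℝ}
    (ht : 0 ≤ t) (ht' : t ≤ 2) : lam D K H z t = lam D H K z (2 - t) := by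
  rcases le_total t 1 with h1 | h1
  · rw [lam_left D h1, lam_right' D h hH (by linarith) (by linarith), sub_sub_cancel]
  · rw [lam_right' D h hH.symm h1 ht', lam_left D (by linarith)]

theorem lam_zero (h : IsLeveled lev lv up dn) {H K : HV X} (hH : Hubs H K) (z : X) :
    lam D H K z 0 = D.pos H := by
  rw [lam_left D zero_le_one, D.src _ _ (hH.adj h z)]

theorem lam_one (h : IsLeveled lev lv up dn) {H K : HV X} (hH : Hubs H K) (z : X) :
    lam D H K z 1 = D.pos (.x z) := by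
  rw [lam_left D le_rfl, D.tgt (hub_symm h) (hH.adj h z)]

theorem lam_two (h : IsLeveled lev lv up dn) {H K : HV X} (hH : Hubs H K) (z : X) :
    lam D H K z 2 = D.pos K := by
  rw [lam_right' D h hH one_le_two le_rfl, sub_self, D.src _ _ (hH.symm.adj h z)]

theorem lam_cont (h : IsLeveled lev lv up dn) {H K : HV X} (hH : Hubs H K) (z : X) :
    ContinuousOn (lam D H K z) (Icc 0 2) := by
  have h1 : ContinuousOn (lam D H K z) (Icc 0 1) :=
    (D.cont _ _ (hH.adj h z)).congr fun t ht => lam_left D ht.2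
  have h2 : ContinuousOn (lam D H K z) (Icc 1 2) := by
    have : ContinuousOn (fun t : ℝ => D.arc (.x z) K (t - 1)) (Icc 1 2) :=
      (D.cont _ _ (hH.symm.adj' z)).comp (by fun_prop)
        fun t ht => ⟨by linarith [ht.1], by linarith [ht.2]⟩
    exact this.congr fun t ht => lam_right D h hH ht.1
  have := h1.union_of_isClosed h2 isClosed_Icc isClosed_Icc
  rwa [Icc_union_Icc_eq_Icc zero_le_one one_le_two] at this

theorem lam_inj (h : IsLeveled lev lv up dn) {H K : HV X} (hH : Hubs H K) (z : X) :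
    InjOn (lam D H K z) (Icc 0 2) := by
  have key : ∀ s ∈ Icc (0 : ℝ) 2, ∀ t ∈ Icc (0 : ℝ) 2, s ≤ t →
      lam D H K z s = lam D H K z t → s = t := by
    intro s hs t ht hst he
    rcases le_total t 1 with h1 | h1
    · rw [lam_left D h1, lam_left D (hst.trans h1)] at he
      exact D.inj _ _ (hH.adj h z) ⟨hs.1, hst.trans h1⟩ ⟨ht.1, h1⟩ he
    · rcases le_total s 1 with h2 | h2
      · rw [lam_left D h2, lam_right D h hH h1] at he
        have := D.meet_tgt_src (hub_symm h) (hH.adj h z) (hH.symm.adj' z) hH.ne ⟨hs.1, h2⟩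
          ⟨by linarith, by linarith [ht.2]⟩ he
        linarith [this.1, this.2]
      · rw [lam_right D h hH h2, lam_right D h hH h1] at he
        have := D.inj _ _ (hH.symm.adj' z) ⟨by linarith, by linarith [hs.2]⟩
          ⟨by linarith, by linarith [ht.2]⟩ he
        linarith
  intro s hs t ht he
  rcases le_total s t with hst | hst
  · exact key s hs t ht hst he
  · exact (key t ht s hs hst he.symm).symm

theorem hubs_noncross (h : IsLeveled lev lv up dn) {H K : HV X} (hH : Hubs H K) {z w : X}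
    (hzw : z ≠ w) {s t : ℝ} (hs : s ∈ Icc (0 : ℝ) 1) (ht : t ∈ Icc (0 : ℝ) 1) :
    D.arc H (.x w) s ≠ D.arc K (.x z) t := by
  rcases hH with ⟨rfl, rfl⟩ | ⟨rfl, rfl⟩
  · exact hub_noncross D h hzw hs ht
  · exact (hub_noncross D h hzw.symm ht hs).symm

theorem lam_meet_H (h : IsLeveled lev lv up dn) {H K : HV X} (hH : Hubs H K) {z w : X}
    (hzw : z ≠ w) {s t : ℝ} (hs : s ∈ Icc (0 : ℝ) 2) (ht : t ∈ Icc (0 : ℝ) 1)
    (he : lam D H K z s = D.arc H (.x w) t) : s = 0 ∧ t = 0 := by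
  rcases le_total s 1 with h1 | h1
  · rw [lam_left D h1] at he
    exact D.meet_src (hH.adj h z) (hH.adj h w) (by simpa using hzw) ⟨hs.1, h1⟩ ht he
  · rw [lam_right' D h hH h1 hs.2] at he
    exact absurd he.symm (hubs_noncross D h hH hzw ht ⟨by linarith [hs.2], by linarith⟩)

theorem lam_meet_K (h : IsLeveled lev lv up dn) {H K : HV X} (hH : Hubs H K) {z w : X}
    (hzw : z ≠ w) {s t : ℝ} (hs : s ∈ Icc (0 : ℝ) 2) (ht : t ∈ Icc (0 : ℝ) 1)
    (he : lam D H K z s = D.arc K (.x w) t) : s = 2 ∧ t = 0 := by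
  have e : lam D K H z (2 - s) = D.arc K (.x w) t := by
    rw [lam_rev D h hH (by linarith [hs.2]) (by linarith [hs.1]), sub_sub_cancel]
    exact he
  have := lam_meet_H D h hH.symm hzw ⟨by linarith [hs.2], by linarith [hs.1]⟩ ht e
  exact ⟨by linarith [this.1], this.2⟩

theorem lam_meet (h : IsLeveled lev lv up dn) {H K : HV X} (hH : Hubs H K) {z w : X}
    (hzw : z ≠ w) {s t : ℝ} (hs : s ∈ Icc (0 : ℝ) 2) (ht : t ∈ Icc (0 : ℝ) 2)
    (he : lam D H K z s = lam D H K w t) : (s = 0 ∧ t = 0) ∨ (s = 2 ∧ t = 2) := by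
  rcases le_total t 1 with h1 | h1
  · rw [lam_left D h1] at he
    exact Or.inl (lam_meet_H D h hH hzw hs ⟨ht.1, h1⟩ he)
  · rw [lam_right' D h hH h1 ht.2] at he
    have := lam_meet_K D h hH hzw hs ⟨by linarith [ht.2], by linarith⟩ he
    exact Or.inr ⟨this.1, by linarith [this.2]⟩

theorem mem_fence (h : IsLeveled lev lv up dn) (z : X) (p : ℂ) :
    p ∈ fence D z ↔ (∃ r ∈ Icc (0 : ℝ) 1, D.arc .P .Q r = p) ∨
      ∃ t ∈ Icc (0 : ℝ) 2, lam D .P .Q z t = p := by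
  have hH : Hubs (X := X) .P .Q := Or.inl ⟨rfl, rfl⟩
  constructor
  · rintro ((⟨r, hr, e⟩ | ⟨r, hr, e⟩) | ⟨r, hr, e⟩)
    · exact Or.inl ⟨r, hr, e⟩
    · refine Or.inr ⟨2 - r, ⟨by linarith [hr.2], by linarith [hr.1]⟩, ?_⟩
      rw [lam_right' D h hH (by linarith [hr.2]) (by linarith [hr.1]), sub_sub_cancel]
      exact e
    · refine Or.inr ⟨1 - r, ⟨by linarith [hr.2], by linarith [hr.1]⟩, ?_⟩
      rw [lam_left D (by linarith [hr.1]), ← D.rev' (adj_zP z) hr]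
      exact e
  · rintro (⟨r, hr, e⟩ | ⟨t, ht, e⟩)
    · exact Or.inl (Or.inl ⟨r, hr, e⟩)
    · rcases le_total t 1 with h1 | h1
      · refine Or.inr ⟨1 - t, ⟨by linarith, by linarith [ht.1]⟩, ?_⟩
        rw [lam_left D h1] at e
        rw [← D.rev' (adj_Pz h z) ⟨ht.1, h1⟩]
        exact e
      · refine Or.inl (Or.inr ⟨2 - t, ⟨by linarith [ht.2], by linarith⟩, ?_⟩)
        rw [lam_right' D h hH h1 ht.2] at e
        exact e

theorem side {z w : X} (h : IsLeveled lev lv up dn) (hzw : z ≠ w) {χ : ℂ → Bool}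
    (hχ : FenceCol D lev z χ) {v : Bool} (hP : Lim χ (D.arc .P (.x w)) v)
    (hQ : Lim χ (D.arc .Q (.x w)) v) :
    (∀ r ∈ Ioc (0 : ℝ) 1, χ (D.arc .P (.x w) r) = v) ∧
    (∀ r ∈ Ioc (0 : ℝ) 1, χ (D.arc .Q (.x w) r) = v) ∧ χ (D.pos (.x w)) = v ∧
    ∀ t ∈ Ioo (0 : ℝ) 2, χ (lam D .P .Q w t) = v := by
  have hH : Hubs (X := X) .P .Q := Or.inl ⟨rfl, rfl⟩
  have hsy := hub_symm h
  have hPw := adj_Pz h w
  have hQw := adj_Qz h w
  have hPQ : HV.Q ∈ hubRot lv up dn .P := adj_PQ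
  have hP' : ∀ r ∈ Ioc (0 : ℝ) 1, χ (D.arc .P (.x w) r) = v := by
    intro r hr
    have hr' : r ∈ Icc (0 : ℝ) 1 := ⟨hr.1.le, hr.2⟩
    have l0 : Lim χ (dir (D.arc .P (.x w)) 0 r) (χ (D.arc .P (.x w) r)) := by
      refine hχ.col.lim (D.contOn hPw i0 hr') (fun s hs hne => ?_) hr.1.ne
      rw [uIcc_of_le hr.1.le] at hs
      have hs' : s ∈ Icc (0 : ℝ) 1 := ⟨hs.1, hs.2.trans hr.2⟩
      rw [mem_fence D h]
      rintro (⟨r', hr', e⟩ | ⟨t, ht, e⟩)
      · exact hne (D.meet_src hPw hPQ (by simp) hs' hr' e.symm).1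
      · exact hne (lam_meet_H D h hH hzw ht hs' e).2
    refine l0.unique (hP.along ?_)
    have := dir_along_dir (g := D.arc .P (.x w)) (a := 0) (c := r) (c' := 1)
      (by nlinarith [hr.1])
    rwa [dir_zero_one] at this
  have hQ' : ∀ r ∈ Ioc (0 : ℝ) 1, χ (D.arc .Q (.x w) r) = v := by
    intro r hr
    have hr' : r ∈ Icc (0 : ℝ) 1 := ⟨hr.1.le, hr.2⟩
    have l0 : Lim χ (dir (D.arc .Q (.x w)) 0 r) (χ (D.arc .Q (.x w) r)) := by
      refine hχ.col.lim (D.contOn hQw i0 hr') (fun s hs hne => ?_) hr.1.ne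
      rw [uIcc_of_le hr.1.le] at hs
      have hs' : s ∈ Icc (0 : ℝ) 1 := ⟨hs.1, hs.2.trans hr.2⟩
      rw [mem_fence D h]
      rintro (⟨r', hr', e⟩ | ⟨t, ht, e⟩)
      · exact hne (D.meet_tgt_src hsy hPQ hQw (by simp) hr' hs' e).2
      · exact hne (lam_meet_K D h hH hzw ht hs' e).2
    refine l0.unique (hQ.along ?_)
    have := dir_along_dir (g := D.arc .Q (.x w)) (a := 0) (c := r) (c' := 1)
      (by nlinarith [hr.1])
    rwa [dir_zero_one] at this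
  refine ⟨hP', hQ', ?_, ?_⟩
  · have := hP' 1 ⟨one_pos, le_rfl⟩
    rwa [D.tgt hsy hPw] at this
  · intro t ht
    rcases le_total t 1 with h1 | h1
    · rw [lam_left D h1]
      exact hP' t ⟨ht.1, h1⟩
    · rw [lam_right' D h hH h1 ht.2.le]
      exact hQ' _ ⟨by linarith [ht.2], by linarith⟩

theorem ne_of_lev {z w : X} (h : lev w < lev z) : z ≠ w := by
  rintro rfl
  exact lt_irrefl _ h

theorem ne_of_lev' {z w : X} (h : lev z < lev w) : z ≠ w := by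
  rintro rfl
  exact lt_irrefl _ h

theorem side_low {z w : X} (h : IsLeveled lev lv up dn) (hzw : lev w < lev z) {χ : ℂ → Bool}
    (hχ : FenceCol D lev z χ) :
    (∀ r ∈ Ioc (0 : ℝ) 1, χ (D.arc .P (.x w) r) = true) ∧
    (∀ r ∈ Ioc (0 : ℝ) 1, χ (D.arc .Q (.x w) r) = true) ∧ χ (D.pos (.x w)) = true ∧
    ∀ t ∈ Ioo (0 : ℝ) 2, χ (lam D .P .Q w t) = true :=
  side D h (ne_of_lev hzw) hχ (hχ.low w hzw).1 (hχ.low w hzw).2

theorem side_high {z w : X} (h : IsLeveled lev lv up dn) (hzw : lev z < lev w) {χ : ℂ → Bool}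
    (hχ : FenceCol D lev z χ) :
    (∀ r ∈ Ioc (0 : ℝ) 1, χ (D.arc .P (.x w) r) = false) ∧
    (∀ r ∈ Ioc (0 : ℝ) 1, χ (D.arc .Q (.x w) r) = false) ∧ χ (D.pos (.x w)) = false ∧
    ∀ t ∈ Ioo (0 : ℝ) 2, χ (lam D .P .Q w t) = false :=
  side D h (ne_of_lev' hzw) hχ (hχ.high w hzw).1 (hχ.high w hzw).2

/-- Inner edges do not cross the edge between the hubs. -/
theorem edge_PQ (h : IsLeveled lev lv up dn) {x y : X} (hy : y ∈ dn x) {r t : ℝ}
    (hr : r ∈ Icc (0 : ℝ) 1) (ht : t ∈ Icc (0 : ℝ) 1) :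
    D.arc (.x x) (.x y) r ≠ D.arc .P .Q t := by
  intro he
  have hsy := hub_symm h
  have hxy : HV.x y ∈ hubRot lv up dn (.x x) := adj_dn hy
  have hPQ : HV.Q ∈ hubRot lv up dn .P := adj_PQ
  have hQx := adj_Qz h x
  have hxP : HV.P ∈ hubRot lv up dn (.x x) := adj_zP x
  obtain ⟨hrI, htI⟩ := D.meet_indep hsy hxy hPQ (by simp) (by simp) (by simp) (by simp) hr ht he
  obtain ⟨χ, hχ⟩ := exists_fence D h x
  have hlev : lev y < lev x := h.mono _ _ ((h.symm _ _).2 hy)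
  have hav : ∀ s ∈ Icc (0 : ℝ) 1, s ≠ 0 → s ≠ r → D.arc (.x x) (.x y) s ∉ fence D x := by
    rintro s hs h0 h1 ((⟨r', hr', e⟩ | ⟨r', hr', e⟩) | ⟨r', hr', e⟩)
    · exact h1 (D.once' hxy hPQ (by simp) hs hr' hr ht e.symm he).1
    · exact h0 (D.meet_tgt_src hsy hQx hxy (by simp) hr' hs e).2
    · exact h0 (D.meet_src hxy hxP (by simp) hs hr' e.symm).1
  have hmid : r / 2 ∈ Icc (0 : ℝ) 1 := ⟨by linarith [hrI.1], by linarith [hrI.1, hrI.2]⟩
  have l0 : Lim χ (dir (D.arc (.x x) (.x y)) 0 (r / 2)) (χ (D.arc (.x x) (.x y) (r / 2))) := by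
    refine hχ.col.lim (D.contOn hxy i0 hmid) (fun s hs hne => ?_) (by linarith [hrI.1])
    rw [uIcc_of_le (by linarith [hrI.1])] at hs
    exact hav s ⟨hs.1, by linarith [hs.2, hrI.1, hrI.2]⟩ hne (by
      rintro rfl
      linarith [hs.2, hrI.1])
  have l1 : Lim χ (dir (D.arc (.x x) (.x y)) 0 (r / 2)) true := by
    refine (hχ.dnv y hy).along ?_
    have := dir_along_dir (g := D.arc (.x x) (.x y)) (a := 0) (c := r / 2) (c' := 1)
      (by nlinarith [hrI.1])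
    rwa [dir_zero_one] at this
  have hX := hχ.cross (.x x) (.x y) hxy (by simp) (by simp) (by simp) r (r / 2) 1
    (by linarith [hrI.1]) (by linarith [hrI.1]) hrI.2 le_rfl (Or.inl (Or.inl ⟨t, ht, he.symm⟩))
  have := flip_rule hχ.col (D.contOn hxy hr hmid) (D.contOn hxy hr i1)
    (by linarith [hrI.1]) hrI.2 hX
    (fun s hs => hav s ⟨by linarith [hs.1, hrI.1], by linarith [hs.2, hrI.2]⟩
      (by linarith [hs.1, hrI.1]) hs.2.ne)
    (fun s hs => hav s ⟨by linarith [hs.1, hrI.1], hs.2⟩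
      (by linarith [hs.1, hrI.1]) hs.1.ne')
  rw [D.tgt hsy hxy, l0.unique l1, (side_low D h hlev hχ).2.2.1] at this
  simp at this

/-- Where the edge from `y` to `x` passes the level of `z`. -/
structure Pass (lev : X → ℕ) (z y x : X) (s τ : ℝ) : Prop where
  s_mem : s ∈ Ioo (0 : ℝ) 1
  t_mem : τ ∈ Ioo (0 : ℝ) 2
  ne_one : τ ≠ 1
  eq : D.arc (.x y) (.x x) s = lam D .P .Q z τ
  uniq : ∀ s' ∈ Icc (0 : ℝ) 1, ∀ τ' ∈ Icc (0 : ℝ) 2,
    D.arc (.x y) (.x x) s' = lam D .P .Q z τ' → s' = s ∧ τ' = τ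
  before : ∀ χ, FenceCol D lev z χ → ∀ r ∈ Ico 0 s, χ (D.arc (.x y) (.x x) r) = true
  after : ∀ χ, FenceCol D lev z χ → ∀ r ∈ Ioc s 1, χ (D.arc (.x y) (.x x) r) = false

theorem exists_pass (h : IsLeveled lev lv up dn) {z y x : X} (hx : x ∈ up y)
    (hyz : lev y < lev z) (hzx : lev z < lev x) : ∃ s τ : ℝ, Pass D lev z y x s τ := by
  have hsy := hub_symm h
  have hH : Hubs (X := X) .P .Q := Or.inl ⟨rfl, rfl⟩
  have hyx : HV.x x ∈ hubRot lv up dn (.x y) := adj_up hx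
  have hxy : HV.x y ∈ hubRot lv up dn (.x x) := adj_dn ((h.symm _ _).1 hx)
  have hPz := adj_Pz h z
  have hzQ : HV.Q ∈ hubRot lv up dn (.x z) := adj_zQ z
  have nzy : z ≠ y := ne_of_lev hyz
  have nzx : z ≠ x := ne_of_lev' hzx
  have hPQe : ∀ r ∈ Icc (0 : ℝ) 1, ∀ t ∈ Icc (0 : ℝ) 1,
      D.arc (.x y) (.x x) r ≠ D.arc .P .Q t := by
    intro r hr t ht he
    rw [D.rev' hyx hr] at he
    exact edge_PQ D h ((h.symm _ _).1 hx) ⟨by linarith [hr.2], by linarith [hr.1]⟩ ht he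
  have hmem : ∀ r ∈ Icc (0 : ℝ) 1, D.arc (.x y) (.x x) r ∈ fence D z →
      ∃ t ∈ Icc (0 : ℝ) 2, lam D .P .Q z t = D.arc (.x y) (.x x) r := by
    intro r hr hm
    rw [mem_fence D h] at hm
    rcases hm with ⟨t, ht, e⟩ | h1
    · exact absurd e.symm (hPQe r hr t ht)
    · exact h1
  obtain ⟨χ₀, hχ₀⟩ := exists_fence D h z
  -- a common point
  have hex : ∃ s ∈ Icc (0 : ℝ) 1, ∃ τ ∈ Icc (0 : ℝ) 2,
      D.arc (.x y) (.x x) s = lam D .P .Q z τ := by
    by_contra hcon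
    push Not at hcon
    have := hχ₀.col.path (isPreconnected_Icc (a := (0 : ℝ)) (b := 1)) (D.cont _ _ hyx)
      (fun r hr hm => by
        obtain ⟨t, ht, e⟩ := hmem r hr hm
        exact hcon r hr t ht e.symm) i0 i1
    rw [D.src _ _ hyx, D.tgt hsy hyx, (side_low D h hyz hχ₀).2.2.1,
      (side_high D h hzx hχ₀).2.2.1] at this
    simp at this
  -- common points are interior
  have hint : ∀ s ∈ Icc (0 : ℝ) 1, ∀ τ ∈ Icc (0 : ℝ) 2,
      D.arc (.x y) (.x x) s = lam D .P .Q z τ → s ∈ Ioo (0 : ℝ) 1 ∧ τ ∈ Ioo (0 : ℝ) 2 ∧ τ ≠ 1 := by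
    intro s hs τ hτ he
    have h2 : ∀ (u v : HV X), v ∈ hubRot lv up dn u → HV.x y ≠ u → HV.x y ≠ v → HV.x x ≠ u →
        HV.x x ≠ v → ∀ r ∈ Icc (0 : ℝ) 1, D.arc (.x y) (.x x) s = D.arc u v r →
        s ∈ Ioo (0 : ℝ) 1 ∧ r ∈ Ioo (0 : ℝ) 1 := by
      intro u v huv a1 a2 a3 a4 r hr e
      exact D.meet_indep hsy hyx huv a1 a2 a3 a4 hs hr e
    rcases le_total τ 1 with h1 | h1
    · rw [lam_left D h1] at he
      obtain ⟨b1, b2⟩ := h2 _ _ hPz (by simp) (by simpa using nzy.symm) (by simp)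
        (by simpa using nzx.symm) τ ⟨hτ.1, h1⟩ he
      exact ⟨b1, ⟨b2.1, by linarith [b2.2]⟩, b2.2.ne⟩
    · rw [lam_right D h hH h1] at he
      obtain ⟨b1, b2⟩ := h2 _ _ hzQ (by simpa using nzy.symm) (by simp)
        (by simpa using nzx.symm) (by simp) (τ - 1) ⟨by linarith, by linarith [hτ.2]⟩ he
      exact ⟨b1, ⟨by linarith [b2.1], by linarith [b2.2]⟩, by
        intro h3
        linarith [b2.1]⟩
  -- two common points on the same side of z
  have hsame : ∀ s ∈ Icc (0 : ℝ) 1, ∀ τ ∈ Icc (0 : ℝ) 2, ∀ s' ∈ Icc (0 : ℝ) 1,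
      ∀ τ' ∈ Icc (0 : ℝ) 2, D.arc (.x y) (.x x) s = lam D .P .Q z τ →
      D.arc (.x y) (.x x) s' = lam D .P .Q z τ' → (τ ≤ 1 ∧ τ' ≤ 1) ∨ (1 ≤ τ ∧ 1 ≤ τ') →
      s = s' ∧ τ = τ' := by
    rintro s hs τ hτ s' hs' τ' hτ' e e' (⟨h1, h2⟩ | ⟨h1, h2⟩)
    · rw [lam_left D h1] at e
      rw [lam_left D h2] at e'
      exact D.once' hyx hPz (by simp) hs ⟨hτ.1, h1⟩ hs' ⟨hτ'.1, h2⟩ e e'
    · rw [lam_right D h hH h1] at e
      rw [lam_right D h hH h2] at e'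
      have := D.once' hyx hzQ (by simp) hs ⟨by linarith, by linarith [hτ.2]⟩ hs'
        ⟨by linarith, by linarith [hτ'.2]⟩ e e'
      exact ⟨this.1, by linarith [this.2]⟩
  have hcr : ∀ χ, FenceCol D lev z χ → ∀ s s₀ s₁ : ℝ, 0 ≤ s₀ → s₀ < s → s < s₁ → s₁ ≤ 1 →
      (∃ τ ∈ Icc (0 : ℝ) 2, D.arc (.x y) (.x x) s = lam D .P .Q z τ) →
      (∀ r ∈ Ico s₀ s, D.arc (.x y) (.x x) r ∉ fence D z) →
      (∀ r ∈ Ioc s s₁, D.arc (.x y) (.x x) r ∉ fence D z) →
      χ (D.arc (.x y) (.x x) s₁) = !χ (D.arc (.x y) (.x x) s₀) := by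
    rintro χ hχ s s₀ s₁ h0 h1 h2 h3 ⟨τ, hτ, e⟩ a0 a1
    have hX := hχ.cross (.x y) (.x x) hyx (by simp) (by simp) (by simp) s s₀ s₁ h0 h1 h2 h3
      ((mem_fence D h z _).2 (Or.inr ⟨τ, hτ, e.symm⟩))
    exact flip_rule hχ.col
      (D.contOn hyx ⟨by linarith, by linarith⟩ ⟨by linarith, by linarith⟩)
      (D.contOn hyx ⟨by linarith, by linarith⟩ ⟨by linarith, by linarith⟩) h1 h2 hX a0 a1
  -- two different common points are impossible
  have htwo : ∀ s ∈ Icc (0 : ℝ) 1, ∀ τ ∈ Icc (0 : ℝ) 2, ∀ s' ∈ Icc (0 : ℝ) 1,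
      ∀ τ' ∈ Icc (0 : ℝ) 2, D.arc (.x y) (.x x) s = lam D .P .Q z τ →
      D.arc (.x y) (.x x) s' = lam D .P .Q z τ' → s < s' → False := by
    intro s hs τ hτ s' hs' τ' hτ' e e' hlt
    have I := hint s hs τ hτ e
    have I' := hint s' hs' τ' hτ' e'
    have hav : ∀ r ∈ Icc (0 : ℝ) 1, r ≠ s → r ≠ s' → D.arc (.x y) (.x x) r ∉ fence D z := by
      intro r hr n1 n2 hm
      obtain ⟨t, ht, e''⟩ := hmem r hr hm
      have I'' := hint r hr t ht e''.symm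
      rcases lt_or_gt_of_ne I.2.2 with g1 | g1
      · rcases lt_or_gt_of_ne I''.2.2 with g2 | g2
        · exact n1 (hsame r hr t ht s hs τ hτ e''.symm e (Or.inl ⟨g2.le, g1.le⟩)).1
        · rcases lt_or_gt_of_ne I'.2.2 with g3 | g3
          · exact hlt.ne (hsame s hs τ hτ s' hs' τ' hτ' e e' (Or.inl ⟨g1.le, g3.le⟩)).1
          · exact n2 (hsame r hr t ht s' hs' τ' hτ' e''.symm e' (Or.inr ⟨g2.le, g3.le⟩)).1
      · rcases lt_or_gt_of_ne I''.2.2 with g2 | g2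
        · rcases lt_or_gt_of_ne I'.2.2 with g3 | g3
          · exact n2 (hsame r hr t ht s' hs' τ' hτ' e''.symm e' (Or.inl ⟨g2.le, g3.le⟩)).1
          · exact hlt.ne (hsame s hs τ hτ s' hs' τ' hτ' e e' (Or.inr ⟨g1.le, g3.le⟩)).1
        · exact n1 (hsame r hr t ht s hs τ hτ e''.symm e (Or.inr ⟨g2.le, g1.le⟩)).1
    have k1 := hcr χ₀ hχ₀ s 0 ((s + s') / 2) le_rfl I.1.1 (by linarith) (by linarith [I'.1.2])
      ⟨τ, hτ, e⟩ (fun r hr => hav r ⟨hr.1, by linarith [hr.2, I.1.2]⟩ hr.2.ne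
        (by linarith [hr.2]))
      (fun r hr => hav r ⟨by linarith [hr.1, I.1.1], by linarith [hr.2, I'.1.2]⟩ hr.1.ne'
        (by linarith [hr.2]))
    have k2 := hcr χ₀ hχ₀ s' ((s + s') / 2) 1 (by linarith [I.1.1]) (by linarith)
      I'.1.2 le_rfl
      ⟨τ', hτ', e'⟩ (fun r hr => hav r ⟨by linarith [hr.1, I.1.1], by linarith [hr.2, I'.1.2]⟩
        (by linarith [hr.1]) hr.2.ne)
      (fun r hr => hav r ⟨by linarith [hr.1, I'.1.1], hr.2⟩ (by linarith [hr.1]) hr.1.ne')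
    rw [k1, D.src _ _ hyx, D.tgt hsy hyx, (side_low D h hyz hχ₀).2.2.1,
      (side_high D h hzx hχ₀).2.2.1] at k2
    simp at k2
  obtain ⟨s, hs, τ, hτ, he⟩ := hex
  have huniq : ∀ s' ∈ Icc (0 : ℝ) 1, ∀ τ' ∈ Icc (0 : ℝ) 2,
      D.arc (.x y) (.x x) s' = lam D .P .Q z τ' → s' = s ∧ τ' = τ := by
    intro s' hs' τ' hτ' e'
    have hss : s' = s := by
      rcases lt_trichotomy s' s with h1 | h1 | h1
      · exact (htwo s' hs' τ' hτ' s hs τ hτ e' he h1).elim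
      · exact h1
      · exact (htwo s hs τ hτ s' hs' τ' hτ' he e' h1).elim
    refine ⟨hss, lam_inj D h hH z hτ' hτ ?_⟩
    rw [← e', ← he, hss]
  obtain ⟨I1, I2, I3⟩ := hint s hs τ hτ he
  have hav : ∀ r ∈ Icc (0 : ℝ) 1, r ≠ s → D.arc (.x y) (.x x) r ∉ fence D z := by
    intro r hr hne hm
    obtain ⟨t, ht, e'⟩ := hmem r hr hm
    exact hne (huniq r hr t ht e'.symm).1
  refine ⟨s, τ, I1, I2, I3, he, huniq, ?_, ?_⟩
  · intro χ hχ r hr
    have := hχ.col.path (isPreconnected_Ico (a := (0 : ℝ)) (b := s))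
      ((D.cont _ _ hyx).mono fun q hq => ⟨hq.1, by linarith [hq.2, I1.2]⟩)
      (fun q hq => hav q ⟨hq.1, by linarith [hq.2, I1.2]⟩ hq.2.ne) hr ⟨le_rfl, I1.1⟩
    rw [this, D.src _ _ hyx]
    exact (side_low D h hyz hχ).2.2.1
  · intro χ hχ r hr
    have := hχ.col.path (isPreconnected_Ioc (a := s) (b := 1))
      ((D.cont _ _ hyx).mono fun q hq => ⟨by linarith [hq.1, I1.1], hq.2⟩)
      (fun q hq => hav q ⟨by linarith [hq.1, I1.1], hq.2⟩ hq.1.ne') hr ⟨I1.2, le_rfl⟩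
    rw [this, D.tgt hsy hyx]
    exact (side_high D h hzx hχ).2.2.1

end Pool.MP_b347ba_lc
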