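import Mathlib

/-!
# Continuous logarithms
-/

namespace Pool.MP_b347ba_lc.J

open Set Complex

section

variable {E : Type*} [AddCommGroup E] [Module ℝ E] [TopologicalSpace E] [IsTopologicalAddGroup E]
  [ContinuousSMul ℝ E]

/-- A nonvanishing continuous function on a convex set has a continuous logarithm. -/
theorem exists_log [LocallyConvexSpace ℝ E] {S : Set E} (hS : Convex ℝ S) {f : E → ℂ}
    (hf : ContinuousOn f S) (h0 : ∀ x ∈ S, f x ≠ 0) :
    ∃ L : E → ℂ, ContinuousOn L S ∧ ∀ x ∈ S, exp (L x) = f x := by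
  classical
  rcases S.eq_empty_or_nonempty with rfl | hne
  · exact ⟨fun _ => 0, continuousOn_empty _, fun x hx => absurd hx (notMem_empty x)⟩
  have := hS.contractibleSpace hne
  have := hS.locallyPathConnectedSpace
  obtain ⟨x₀, hx₀⟩ := hne
  obtain ⟨F, ⟨-, hF⟩, -⟩ := isCoveringMapOn_exp.existsUnique_continuousMap_lifts
    (⟨fun x : S => f x, continuousOn_iff_continuous_domRestrict.1 hf⟩ : C(S, ℂ)) (a₀ := ⟨x₀, hx₀⟩)
    (e₀ := Complex.log (f x₀)) (exp_log (h0 x₀ hx₀)) (fun t => by simpa using h0 t t.2)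
  refine ⟨fun x => if hx : x ∈ S then F ⟨x, hx⟩ else 0, ?_, ?_⟩
  · rw [continuousOn_iff_continuous_domRestrict]
    convert F.continuous using 1
    ext x
    simp
  · intro x hx
    have := congrFun hF ⟨x, hx⟩
    simp only [hx, dite_true]
    exact this

end

/-- A continuous function whose exponential is constant is constant. -/
theorem const_of_exp {E : Type*} [TopologicalSpace E] {S : Set E} (hS : IsPreconnected S)
    {g : E → ℂ} (hg : ContinuousOn g S) (c : ℂ) (h : ∀ x ∈ S, exp (g x) = c) {x y : E}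
    (hx : x ∈ S) (hy : y ∈ S) : g x = g y := by
  refine (isCoveringMap_exp.eqOn_of_comp_eqOn hS hg (continuousOn_const (c := g y)) ?_ hy
    rfl hx)
  intro z hz
  apply Subtype.ext
  simp [h z hz, h y hy]

theorem lift_unique {E : Type*} [TopologicalSpace E] {S : Set E} (hS : IsPreconnected S)
    {L L' : E → ℂ} (hL : ContinuousOn L S) (hL' : ContinuousOn L' S)
    (h : ∀ x ∈ S, exp (L x) = exp (L' x)) {x y : E} (hx : x ∈ S) (hy : y ∈ S) :
    L x - L y = L' x - L' y := by
  have : (fun z => L z - L' z) x = (fun z => L z - L' z) y :=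
    const_of_exp hS (hL.sub hL') 1
      (fun z hz => by
        show exp (L z - L' z) = 1
        rw [exp_sub, h z hz, div_self (exp_ne_zero _)]) hx hy
  simp only at this
  linear_combination this

theorem exp_eq_one {w : ℂ} (h : exp w = 1) : ∃ n : ℤ, w = n * (2 * Real.pi * I) :=
  exp_eq_one_iff.1 h

theorem exp_eq_neg_one {w : ℂ} (h : exp w = -1) : ∃ m : ℤ, w = (2 * m - 1) * (Real.pi * I) := by
  have : exp (w + Real.pi * I) = 1 := by rw [exp_add, h, exp_pi_mul_I]; ring
  obtain ⟨n, hn⟩ := exp_eq_one this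
  exact ⟨n, by linear_combination hn⟩

end Pool.MP_b347ba_lc.J
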