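import Pool.Agent.Lib.MP_b347ba_lc_h80.Germ

/-!
# Closed curves composed of arcs
-/

namespace Pool.MP_b347ba_lc

open Set Filter Topology

theorem closedCurve {α : ℤ → ℝ → ℂ} {k : ℕ} (hk : 0 < k) (hper : ∀ i, α (i + k) = α i)
    (hc : ∀ i, ContinuousOn (α i) (Icc 0 1)) (he : ∀ i, α i 1 = α (i + 1) 0)
    (hinj : ∀ i j, ∀ s ∈ Ico (0 : ℝ) 1, ∀ t ∈ Ico (0 : ℝ) 1, α i s = α j t →
      s = t ∧ (k : ℤ) ∣ i - j) :
    ∃ χ : ℂ → Bool, Col (⋃ i, α i '' Icc 0 1) χ ∧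
      (∀ i, Br χ (α i 0) (fun t => α (i - 1) (1 - t)) (α i)) ∧
      ∀ i, ∀ s ∈ Ioo (0 : ℝ) 1, Br χ (α i s) (fun t => α i (s - t)) fun t => α i (s + t) := by
  classical
  let γ : ℝ → ℂ := fun t => α ⌊t⌋ (Int.fract t)
  have hγIco : ∀ (i : ℤ) (t : ℝ), t ∈ Ico (i : ℝ) (i + 1) → γ t = α i (t - i) := by
    intro i t ht
    have hf : ⌊t⌋ = i := Int.floor_eq_iff.2 ht
    simp only [γ, Int.fract, hf]
  have hγIcc : ∀ (i : ℤ) (t : ℝ), t ∈ Icc (i : ℝ) (i + 1) → γ t = α i (t - i) := by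
    intro i t ht
    rcases ht.2.lt_or_eq with h | h
    · exact hγIco i t ⟨ht.1, h⟩
    · subst h
      have := hγIco (i + 1) (i + 1) ⟨by push_cast; exact le_rfl, by push_cast; linarith⟩
      rw [this]
      push_cast
      rw [sub_self, ← he i, add_sub_cancel_left]
  have hcont : Continuous γ := by
    have hon : ∀ i : ℤ, ContinuousOn γ (Icc (i : ℝ) (i + 1)) := by
      intro i
      have h1 : ContinuousOn (fun t : ℝ => α i (t - i)) (Icc (i : ℝ) (i + 1)) :=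
        (hc i).comp (by fun_prop) fun t ht => ⟨by linarith [ht.1], by linarith [ht.2]⟩
      exact h1.congr fun t ht => hγIcc i t ht
    rw [continuous_iff_continuousAt]
    intro t
    rw [continuousAt_iff_continuous_left_right]
    constructor
    · have h1 := Int.ceil_lt_add_one t
      have h2 := Int.le_ceil t
      have := hon (⌈t⌉ - 1) t ⟨by push_cast; linarith, by push_cast; linarith⟩
      refine this.mono_of_mem_nhdsWithin ?_
      rw [mem_nhdsWithin]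
      refine ⟨Ioi ((⌈t⌉ : ℝ) - 1), isOpen_Ioi, by simp only [mem_Ioi]; linarith, ?_⟩
      intro y hy
      simp only [mem_inter_iff, mem_Ioi, mem_Iic] at hy
      exact ⟨by push_cast; linarith, by push_cast; linarith⟩
    · have h1 := Int.floor_le t
      have h2 := Int.lt_floor_add_one t
      have := hon ⌊t⌋ t ⟨h1, h2.le⟩
      refine this.mono_of_mem_nhdsWithin ?_
      rw [mem_nhdsWithin]
      refine ⟨Iio ((⌊t⌋ : ℝ) + 1), isOpen_Iio, h2, ?_⟩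
      intro y hy
      simp only [mem_inter_iff, mem_Iio, mem_Ici] at hy
      exact ⟨by linarith, by linarith⟩
  have hperγ : ∀ t, γ (t + k) = γ t := by
    intro t
    simp only [γ, Int.floor_add_natCast, Int.fract_add_natCast, hper]
  have hk' : (0 : ℝ) < k := by exact_mod_cast hk
  have hinjγ : InjOn γ (Ico 0 (k : ℝ)) := by
    intro s hs t ht hst
    obtain ⟨h1, h2⟩ := hinj ⌊s⌋ ⌊t⌋ (Int.fract s) ⟨Int.fract_nonneg s, Int.fract_lt_one s⟩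
      (Int.fract t) ⟨Int.fract_nonneg t, Int.fract_lt_one t⟩ hst
    have a1 : 0 ≤ ⌊s⌋ := Int.floor_nonneg.2 hs.1
    have a2 : 0 ≤ ⌊t⌋ := Int.floor_nonneg.2 ht.1
    have a3 : ⌊s⌋ < k := Int.floor_lt.2 (by exact_mod_cast hs.2)
    have a4 : ⌊t⌋ < k := Int.floor_lt.2 (by exact_mod_cast ht.2)
    have h3 : ⌊s⌋ = ⌊t⌋ := by
      have : ⌊s⌋ - ⌊t⌋ = 0 := Int.eq_zero_of_abs_lt_dvd h2 (by rw [abs_lt]; omega)
      omega
    rw [← Int.floor_add_fract s, ← Int.floor_add_fract t, h1, h3]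
  have hrange : (⋃ i, α i '' Icc 0 1) = range γ := by
    apply Subset.antisymm
    · intro z hz
      obtain ⟨i, t, ht, rfl⟩ := mem_iUnion.1 hz
      refine ⟨i + t, ?_⟩
      rw [hγIcc i (i + t) ⟨by linarith [ht.1], by linarith [ht.2]⟩, add_sub_cancel_left]
    · rintro _ ⟨t, rfl⟩
      exact mem_iUnion.2 ⟨⌊t⌋, Int.fract t, ⟨Int.fract_nonneg t, (Int.fract_lt_one t).le⟩, rfl⟩
  obtain ⟨A, B, hA, hB, hAB, hU, hL, hR⟩ := jordan_side hk' hcont hperγ hinjγ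
  have hBr : ∀ s, Br (fun z => decide (z ∈ A)) (γ s) (fun t => γ (s - t)) fun t => γ (s + t) := by
    intro s g hg
    constructor
    · intro h
      filter_upwards [hL s g hg h] with t ht
      simpa using ht
    · intro h
      filter_upwards [hR s g hg h] with t ht
      have : g t ∉ A := fun h' => Set.disjoint_left.1 hAB h' ht
      simpa using this
  refine ⟨fun z => decide (z ∈ A), ?_, ?_, ?_⟩
  · intro z hz
    rw [hrange] at hz
    have hz' : z ∈ A ∪ B := by rw [hU]; exact hz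
    rcases hz' with h | h
    · filter_upwards [hA.mem_nhds h] with w hw
      simp [hw, h]
    · filter_upwards [hB.mem_nhds h] with w hw
      have h1 : w ∉ A := fun h' => Set.disjoint_left.1 hAB h' hw
      have h2 : z ∉ A := fun h' => Set.disjoint_left.1 hAB h' h
      simp [h1, h2]
  · intro i
    have h := hBr (i : ℝ)
    have e : γ i = α i 0 := by
      rw [hγIcc i i ⟨le_rfl, by linarith⟩, sub_self]
    rw [e] at h
    refine h.along (Along.of_eq ⟨1, one_pos, fun t ht => ?_⟩)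
      (Along.of_eq ⟨1, one_pos, fun t ht => ?_⟩)
    · rw [hγIcc (i - 1) _ ⟨by push_cast; linarith [ht.2], by push_cast; linarith [ht.1]⟩]
      congr 1
      push_cast
      ring
    · rw [hγIcc i _ ⟨by linarith [ht.1], by linarith [ht.2]⟩]
      congr 1
      ring
  · intro i s hs
    have h := hBr (i + s : ℝ)
    have e : γ (i + s) = α i s := by
      rw [hγIcc i (i + s) ⟨by linarith [hs.1], by linarith [hs.2]⟩, add_sub_cancel_left]
    rw [e] at h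
    refine h.along (Along.of_eq ⟨s, hs.1, fun t ht => ?_⟩)
      (Along.of_eq ⟨1 - s, by linarith [hs.2], fun t ht => ?_⟩)
    · rw [hγIcc i _ ⟨by linarith [ht.2], by linarith [ht.1, hs.2]⟩]
      congr 1
      ring
    · rw [hγIcc i _ ⟨by linarith [ht.1, hs.1], by linarith [ht.2]⟩]
      congr 1
      ring

theorem tri₀ {α β γ : ℝ → ℂ} (cα : ContinuousOn α (Icc 0 1)) (cβ : ContinuousOn β (Icc 0 1))
    (cγ : ContinuousOn γ (Icc 0 1)) (iα : InjOn α (Icc 0 1)) (iβ : InjOn β (Icc 0 1))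
    (iγ : InjOn γ (Icc 0 1)) (e₁ : α 1 = β 0) (e₂ : β 1 = γ 0) (e₃ : γ 1 = α 0)
    (d₁ : ∀ s ∈ Icc (0 : ℝ) 1, ∀ t ∈ Icc (0 : ℝ) 1, α s = β t → s = 1)
    (d₂ : ∀ s ∈ Icc (0 : ℝ) 1, ∀ t ∈ Icc (0 : ℝ) 1, β s = γ t → s = 1)
    (d₃ : ∀ s ∈ Icc (0 : ℝ) 1, ∀ t ∈ Icc (0 : ℝ) 1, γ s = α t → s = 1) :
    ∃ χ : ℂ → Bool, Col (α '' Icc 0 1 ∪ β '' Icc 0 1 ∪ γ '' Icc 0 1) χ ∧
      (Br χ (α 0) (fun t => γ (1 - t)) α ∧ Br χ (β 0) (fun t => α (1 - t)) β ∧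
        Br χ (γ 0) (fun t => β (1 - t)) γ) ∧
      (∀ s ∈ Ioo (0 : ℝ) 1, Br χ (α s) (fun t => α (s - t)) fun t => α (s + t)) ∧
      (∀ s ∈ Ioo (0 : ℝ) 1, Br χ (β s) (fun t => β (s - t)) fun t => β (s + t)) ∧
      (∀ s ∈ Ioo (0 : ℝ) 1, Br χ (γ s) (fun t => γ (s - t)) fun t => γ (s + t)) := by
  let δ : ℤ → ℝ → ℂ := fun i => if i % 3 = 0 then α else if i % 3 = 1 then β else γ
  have δ0 : ∀ i : ℤ, i % 3 = 0 → δ i = α := fun i hi => if_pos hi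
  have δ1 : ∀ i : ℤ, i % 3 = 1 → δ i = β := fun i hi => by
    have h0 : ¬ i % 3 = 0 := by omega
    simp only [δ]
    rw [if_neg h0, if_pos hi]
  have δ2 : ∀ i : ℤ, i % 3 = 2 → δ i = γ := fun i hi => by
    have h0 : ¬ i % 3 = 0 := by omega
    have h1 : ¬ i % 3 = 1 := by omega
    simp only [δ]
    rw [if_neg h0, if_neg h1]
  have h3 : ∀ i : ℤ, i % 3 = 0 ∨ i % 3 = 1 ∨ i % 3 = 2 := fun i => by omega
  have m3 : ∀ s : ℝ, s ∈ Ico (0 : ℝ) 1 → s ∈ Icc (0 : ℝ) 1 := fun s hs => ⟨hs.1, hs.2.le⟩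
  obtain ⟨χ, h1, h2, h4⟩ := closedCurve (α := δ) (k := 3) (by norm_num)
    (by
      intro i
      simp only [δ]
      have : (i + (3 : ℕ)) % 3 = i % 3 := by push_cast; omega
      rw [this])
    (by
      intro i
      rcases h3 i with h | h | h
      · rw [δ0 i h]; exact cα
      · rw [δ1 i h]; exact cβ
      · rw [δ2 i h]; exact cγ)
    (by
      intro i
      rcases h3 i with h | h | h
      · rw [δ0 i h, δ1 (i + 1) (by omega)]; exact e₁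
      · rw [δ1 i h, δ2 (i + 1) (by omega)]; exact e₂
      · rw [δ2 i h, δ0 (i + 1) (by omega)]; exact e₃)
    (by
      intro i j s hs t ht he
      push_cast
      rcases h3 i with h | h | h <;> rcases h3 j with h' | h' | h'
      · rw [δ0 i h, δ0 j h'] at he
        exact ⟨iα (m3 s hs) (m3 t ht) he, by omega⟩
      · rw [δ0 i h, δ1 j h'] at he
        exact absurd (d₁ s (m3 s hs) t (m3 t ht) he) hs.2.ne
      · rw [δ0 i h, δ2 j h'] at he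
        exact absurd (d₃ t (m3 t ht) s (m3 s hs) he.symm) ht.2.ne
      · rw [δ1 i h, δ0 j h'] at he
        exact absurd (d₁ t (m3 t ht) s (m3 s hs) he.symm) ht.2.ne
      · rw [δ1 i h, δ1 j h'] at he
        exact ⟨iβ (m3 s hs) (m3 t ht) he, by omega⟩
      · rw [δ1 i h, δ2 j h'] at he
        exact absurd (d₂ s (m3 s hs) t (m3 t ht) he) hs.2.ne
      · rw [δ2 i h, δ0 j h'] at he
        exact absurd (d₃ s (m3 s hs) t (m3 t ht) he) hs.2.ne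
      · rw [δ2 i h, δ1 j h'] at he
        exact absurd (d₂ t (m3 t ht) s (m3 s hs) he.symm) ht.2.ne
      · rw [δ2 i h, δ2 j h'] at he
        exact ⟨iγ (m3 s hs) (m3 t ht) he, by omega⟩)
  refine ⟨χ, ?_, ⟨?_, ?_, ?_⟩, ?_, ?_, ?_⟩
  · have : (⋃ i, δ i '' Icc 0 1) = α '' Icc 0 1 ∪ β '' Icc 0 1 ∪ γ '' Icc 0 1 := by
      apply Subset.antisymm
      · intro z hz
        obtain ⟨i, hi⟩ := mem_iUnion.1 hz
        rcases h3 i with h | h | h
        · rw [δ0 i h] at hi; exact Or.inl (Or.inl hi)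
        · rw [δ1 i h] at hi; exact Or.inl (Or.inr hi)
        · rw [δ2 i h] at hi; exact Or.inr hi
      · rintro z ((hz | hz) | hz)
        · exact mem_iUnion.2 ⟨0, by rw [δ0 0 (by norm_num)]; exact hz⟩
        · exact mem_iUnion.2 ⟨1, by rw [δ1 1 (by norm_num)]; exact hz⟩
        · exact mem_iUnion.2 ⟨2, by rw [δ2 2 (by norm_num)]; exact hz⟩
    rw [this] at h1
    exact h1
  · have := h2 0
    rw [δ0 0 (by norm_num), δ2 (0 - 1) (by norm_num)] at this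
    exact this
  · have := h2 1
    rw [δ1 1 (by norm_num), δ0 (1 - 1) (by norm_num)] at this
    exact this
  · have := h2 2
    rw [δ2 2 (by norm_num), δ1 (2 - 1) (by norm_num)] at this
    exact this
  · have := h4 0
    rw [δ0 0 (by norm_num)] at this
    exact this
  · have := h4 1
    rw [δ1 1 (by norm_num)] at this
    exact this
  · have := h4 2
    rw [δ2 2 (by norm_num)] at this
    exact this

theorem Br.dir_interior {χ : ℂ → Bool} {g : ℝ → ℂ} {a b : ℝ} (hab : a ≠ b)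
    (h : ∀ s ∈ Ioo (0 : ℝ) 1, Br χ (dir g a b s) (fun t => dir g a b (s - t))
      fun t => dir g a b (s + t)) {s : ℝ} (hs : s ∈ uIcc a b) (hsa : s ≠ a) (hsb : s ≠ b) :
    Br χ (g s) (dir g s a) (dir g s b) := by
  obtain ⟨σ, hσ, rfl⟩ := exists_of_mem_uIcc hs hab
  have h0 : 0 < σ := by
    rcases hσ.1.eq_or_lt with h | h
    · exact absurd (by rw [← h]; ring) hsa
    · exact h
  have h1 : σ < 1 := by
    rcases hσ.2.eq_or_lt with h | h
    · exact absurd (by rw [h]; ring) hsb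
    · exact h
  refine (h σ ⟨h0, h1⟩).along (Along.of_scale (c := 1 / σ) (by positivity)
    ⟨1, one_pos, fun t _ => ?_⟩) (Along.of_scale (c := 1 / (1 - σ))
      (by have : 0 < 1 - σ := by linarith
          positivity) ⟨1, one_pos, fun t _ => ?_⟩)
  · simp only [dir]
    congr 1
    field_simp
    ring
  · simp only [dir]
    congr 1
    have : 1 - σ ≠ 0 := by linarith
    field_simp
    ring

/-- The sides of a closed curve composed of three arcs. -/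
theorem tri {g₁ g₂ g₃ : ℝ → ℂ} {a₁ b₁ a₂ b₂ a₃ b₃ : ℝ} (n₁ : a₁ ≠ b₁) (n₂ : a₂ ≠ b₂)
    (n₃ : a₃ ≠ b₃) (c₁ : ContinuousOn g₁ (uIcc a₁ b₁)) (c₂ : ContinuousOn g₂ (uIcc a₂ b₂))
    (c₃ : ContinuousOn g₃ (uIcc a₃ b₃)) (i₁ : InjOn g₁ (uIcc a₁ b₁))
    (i₂ : InjOn g₂ (uIcc a₂ b₂)) (i₃ : InjOn g₃ (uIcc a₃ b₃)) (e₁ : g₁ b₁ = g₂ a₂)
    (e₂ : g₂ b₂ = g₃ a₃) (e₃ : g₃ b₃ = g₁ a₁)
    (d₁ : ∀ s ∈ uIcc a₁ b₁, ∀ t ∈ uIcc a₂ b₂, g₁ s = g₂ t → s = b₁)
    (d₂ : ∀ s ∈ uIcc a₂ b₂, ∀ t ∈ uIcc a₃ b₃, g₂ s = g₃ t → s = b₂)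
    (d₃ : ∀ s ∈ uIcc a₃ b₃, ∀ t ∈ uIcc a₁ b₁, g₃ s = g₁ t → s = b₃) :
    ∃ χ : ℂ → Bool, Col (g₁ '' uIcc a₁ b₁ ∪ g₂ '' uIcc a₂ b₂ ∪ g₃ '' uIcc a₃ b₃) χ ∧
      (Br χ (g₁ a₁) (dir g₃ b₃ a₃) (dir g₁ a₁ b₁) ∧ Br χ (g₂ a₂) (dir g₁ b₁ a₁) (dir g₂ a₂ b₂) ∧
        Br χ (g₃ a₃) (dir g₂ b₂ a₂) (dir g₃ a₃ b₃)) ∧
      (∀ s ∈ uIcc a₁ b₁, s ≠ a₁ → s ≠ b₁ → Br χ (g₁ s) (dir g₁ s a₁) (dir g₁ s b₁)) ∧
      (∀ s ∈ uIcc a₂ b₂, s ≠ a₂ → s ≠ b₂ → Br χ (g₂ s) (dir g₂ s a₂) (dir g₂ s b₂)) ∧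
      (∀ s ∈ uIcc a₃ b₃, s ≠ a₃ → s ≠ b₃ → Br χ (g₃ s) (dir g₃ s a₃) (dir g₃ s b₃)) := by
  have key : ∀ {g g' : ℝ → ℂ} {a b a' b' : ℝ}, a ≠ b →
      (∀ s ∈ uIcc a b, ∀ t ∈ uIcc a' b', g s = g' t → s = b) →
      ∀ s ∈ Icc (0 : ℝ) 1, ∀ t ∈ Icc (0 : ℝ) 1, dir g a b s = dir g' a' b' t → s = 1 := by
    intro g g' a b a' b' hab h s hs t ht he
    have := h _ (dir_mem_uIcc hs) _ (dir_mem_uIcc ht) he
    have hb : b - a ≠ 0 := sub_ne_zero.2 hab.symm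
    have h2 : (b - a) * s = (b - a) * 1 := by linarith
    exact mul_left_cancel₀ hb h2
  obtain ⟨χ, h1, ⟨h2, h3, h4⟩, h5, h6, h7⟩ := tri₀ (dir_continuousOn c₁) (dir_continuousOn c₂)
    (dir_continuousOn c₃) (dir_injOn i₁ n₁) (dir_injOn i₂ n₂) (dir_injOn i₃ n₃)
    (by rw [dir_one, dir_zero]; exact e₁) (by rw [dir_one, dir_zero]; exact e₂)
    (by rw [dir_one, dir_zero]; exact e₃) (key n₁ d₁) (key n₂ d₂) (key n₃ d₃)
  simp only [dir_sub, dir_zero, dir_image n₁, dir_image n₂, dir_image n₃] at h1 h2 h3 h4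
  exact ⟨χ, h1, ⟨h2, h3, h4⟩, fun s hs ha hb => Br.dir_interior n₁ h5 hs ha hb,
    fun s hs ha hb => Br.dir_interior n₂ h6 hs ha hb,
    fun s hs ha hb => Br.dir_interior n₃ h7 hs ha hb⟩

end Pool.MP_b347ba_lc
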