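import Pool.Agent.Lib.MP_b347ba_lc_h80.Lift
import Pool.Agent.Lib.MP_b347ba_lc.Defs

/-!
# Winding numbers and turning numbers of simple closed curves
-/

namespace Pool.MP_b347ba_lc.J

open Set Complex

/-- A simple closed curve with period `T`. -/
structure Loop (γ : ℝ → ℂ) (T : ℝ) : Prop where
  pos : 0 < T
  cont : Continuous γ
  per : ∀ t, γ (t + T) = γ t
  inj : ∀ s t, s < t → t < s + T → γ s ≠ γ t

/-- Change of the logarithm of `f` over a period. -/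
def Wn (f : ℝ → ℂ) (T : ℝ) (n : ℤ) : Prop :=
  ∃ L : ℝ → ℂ, Continuous L ∧ (∀ t, exp (L t) = f t) ∧
    ∀ t, L (t + T) - L t = n * (2 * Real.pi * I)

theorem Wn.unique {f : ℝ → ℂ} {T : ℝ} {n n' : ℤ} (h : Wn f T n) (h' : Wn f T n') : n = n' := by
  obtain ⟨L, hL, hLf, hLn⟩ := h
  obtain ⟨L', hL', hLf', hLn'⟩ := h'
  have := lift_unique (S := univ) isPreconnected_univ hL.continuousOn hL'.continuousOn
    (fun x _ => by rw [hLf, hLf']) (mem_univ (0 + T)) (mem_univ 0)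
  rw [hLn, hLn'] at this
  have h2 : (2 * Real.pi * I : ℂ) ≠ 0 := two_pi_I_ne_zero
  exact_mod_cast mul_right_cancel₀ h2 this

theorem exists_Wn {f : ℝ → ℂ} {T : ℝ} (hf : Continuous f) (h0 : ∀ t, f t ≠ 0)
    (hp : ∀ t, f (t + T) = f t) : ∃ n, Wn f T n := by
  obtain ⟨L, hL, hLf⟩ := exists_log (S := (univ : Set ℝ)) convex_univ hf.continuousOn
    (fun x _ => h0 x)
  have hL : Continuous L := continuousOn_univ.1 hL
  have hLf : ∀ t, exp (L t) = f t := fun t => hLf t (mem_univ t)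
  obtain ⟨n, hn⟩ := exp_eq_one (w := L (0 + T) - L 0) (by
    rw [exp_sub, hLf, hLf, hp, div_self (h0 _)])
  refine ⟨n, L, hL, hLf, fun t => ?_⟩
  rw [← hn]
  refine const_of_exp (g := fun t => L (t + T) - L t) isPreconnected_univ (by fun_prop) 1
    (fun x _ => ?_) (mem_univ t) (mem_univ 0)
  rw [exp_sub, hLf, hLf, hp, div_self (h0 _)]

theorem Wn.homotopy {F : ℝ × ℝ → ℂ} {T : ℝ} {n : ℤ} (hF : ContinuousOn F (Icc 0 1 ×ˢ univ))
    (h0 : ∀ u ∈ Icc (0 : ℝ) 1, ∀ t, F (u, t) ≠ 0)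
    (hp : ∀ u ∈ Icc (0 : ℝ) 1, ∀ t, F (u, t + T) = F (u, t))
    (h : Wn (fun t => F (0, t)) T n) : Wn (fun t => F (1, t)) T n := by
  have hS : Convex ℝ (Icc (0 : ℝ) 1 ×ˢ (univ : Set ℝ)) := (convex_Icc _ _).prod convex_univ
  obtain ⟨L, hL, hLF⟩ := exists_log hS hF (fun x hx => h0 x.1 hx.1 x.2)
  have i0 : (0 : ℝ) ∈ Icc (0 : ℝ) 1 := by simp
  have i1 : (1 : ℝ) ∈ Icc (0 : ℝ) 1 := by simp
  have hc : ∀ u ∈ Icc (0 : ℝ) 1, ∀ t, ∀ u' ∈ Icc (0 : ℝ) 1, ∀ t',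
      L (u, t + T) - L (u, t) = L (u', t' + T) - L (u', t') := by
    intro u hu t u' hu' t'
    refine const_of_exp (S := Icc (0 : ℝ) 1 ×ˢ (univ : Set ℝ))
      (g := fun x : ℝ × ℝ => L (x.1, x.2 + T) - L (x.1, x.2)) hS.isPreconnected ?_ 1
      ?_ (x := (u, t)) (y := (u', t')) ⟨hu, mem_univ _⟩ ⟨hu', mem_univ _⟩
    · refine ContinuousOn.sub (hL.comp (by fun_prop) fun x hx => ⟨hx.1, mem_univ _⟩) ?_
      exact hL.comp (by fun_prop) fun x hx => ⟨hx.1, mem_univ _⟩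
    · intro x hx
      rw [exp_sub, hLF (x.1, x.2 + T) ⟨hx.1, mem_univ _⟩, hLF (x.1, x.2) ⟨hx.1, mem_univ _⟩,
        hp _ hx.1, div_self (h0 _ hx.1 _)]
  obtain ⟨L₀, hL₀, hLf₀, hLn₀⟩ := h
  refine ⟨fun t => L (1, t), ?_, fun t => hLF _ ⟨i1, mem_univ _⟩, fun t => ?_⟩
  · rw [← continuousOn_univ]
    exact hL.comp (by fun_prop) fun x hx => ⟨i1, mem_univ _⟩
  · rw [hc 1 i1 t 0 i0 0, ← hLn₀ 0]
    refine lift_unique (S := univ) (L := fun t => L (0, t)) isPreconnected_univ ?_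
      hL₀.continuousOn (fun x _ => ?_) (mem_univ _) (mem_univ _)
    · exact hL.comp (by fun_prop) fun x hx => ⟨i0, mem_univ _⟩
    · rw [hLF _ ⟨i0, mem_univ _⟩, hLf₀]

/-- The winding number of a curve around a point. -/
def IsWind (γ : ℝ → ℂ) (T : ℝ) (z : ℂ) (n : ℤ) : Prop := Wn (fun t => γ t - z) T n

theorem IsWind.notMem {γ : ℝ → ℂ} {T : ℝ} {z : ℂ} {n : ℤ} (h : IsWind γ T z n) :
    z ∉ range γ := by
  rintro ⟨t, rfl⟩
  obtain ⟨L, -, hL, -⟩ := h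
  have := hL t
  simp only [sub_self] at this
  exact exp_ne_zero _ this

theorem Loop.isClosed {γ : ℝ → ℂ} {T : ℝ} (h : Loop γ T) : IsClosed (range γ) := by
  have : range γ = γ '' Icc 0 T := by
    apply Subset.antisymm
    · rintro _ ⟨t, rfl⟩
      have hp : Function.Periodic γ T := h.per
      obtain ⟨y, hy, e⟩ := hp.exists_mem_Ico₀ h.pos t
      exact ⟨y, ⟨hy.1, hy.2.le⟩, e.symm⟩
    · rintro _ ⟨t, -, rfl⟩
      exact mem_range_self t
  rw [this]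
  exact (isCompact_Icc.image h.cont).isClosed

theorem isOpen_isWind {γ : ℝ → ℂ} {T : ℝ} (h : Loop γ T) (n : ℤ) :
    IsOpen {z | IsWind γ T z n} := by
  rw [Metric.isOpen_iff]
  intro z hz
  have hz' : z ∈ (range γ)ᶜ := IsWind.notMem hz
  obtain ⟨ε, hε, hb⟩ := Metric.isOpen_iff.1 h.isClosed.isOpen_compl z hz'
  refine ⟨ε, hε, fun w hw => ?_⟩
  have key := Wn.homotopy (F := fun x : ℝ × ℝ => γ x.2 - (z + x.1 * (w - z))) (T := T) (n := n)
    ?_ ?_ ?_ ?_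
  · simpa [IsWind] using key
  · have := h.cont
    fun_prop
  · intro u hu t he
    have hm : z + u * (w - z) ∈ Metric.ball z ε := by
      rw [mem_ball_iff_norm] at hw ⊢
      have : ‖z + u * (w - z) - z‖ = |u| * ‖w - z‖ := by
        rw [add_sub_cancel_left, norm_mul, norm_real, Real.norm_eq_abs]
      rw [this, abs_of_nonneg hu.1]
      have := norm_nonneg (w - z)
      nlinarith [hu.2, hu.1]
    exact hb hm ⟨t, by simpa [sub_eq_zero] using he⟩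
  · intro u _ t
    simp only [h.per]
  · simpa [IsWind] using hz

/-- The parameters of pairs of different points on a simple closed curve. -/
def strip (T : ℝ) : Set (ℝ × ℝ) := {x | x.1 < x.2 ∧ x.2 < x.1 + T}

theorem convex_strip (T : ℝ) : Convex ℝ (strip T) := by
  intro x hx y hy a b ha hb hab
  simp only [strip, mem_ofPred_eq, Prod.fst_add, Prod.smul_fst, Prod.snd_add, Prod.smul_snd,
    smul_eq_mul] at *
  obtain ⟨h1, h2⟩ := hx
  obtain ⟨h3, h4⟩ := hy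
  rcases ha.eq_or_lt with rfl | ha
  · have : b = 1 := by linarith
    subst this
    constructor <;> nlinarith
  · have e : b = 1 - a := by linarith
    subst e
    constructor <;> nlinarith

/-- Change of the argument of the secant vector `F` when the endpoints of the secant are
exchanged. -/
def Tn (F : ℝ × ℝ → ℂ) (T : ℝ) (m : ℤ) : Prop :=
  ∃ L : ℝ × ℝ → ℂ, ContinuousOn L (strip T) ∧ (∀ x ∈ strip T, exp (L x) = F x) ∧
    ∀ s t, s < t → t < s + T → L (t, s + T) - L (s, t) = (2 * m - 1) * (Real.pi * I)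

theorem mem_strip {T s t : ℝ} (h : s < t) (h' : t < s + T) : (s, t) ∈ strip T := ⟨h, h'⟩

theorem mem_strip' {T s t : ℝ} (h : s < t) (h' : t < s + T) : (t, s + T) ∈ strip T :=
  ⟨h', by show s + T < t + T; linarith⟩

theorem exists_Tn {F : ℝ × ℝ → ℂ} {T : ℝ} (hT : 0 < T) (hF : ContinuousOn F (strip T))
    (h0 : ∀ x ∈ strip T, F x ≠ 0) (hp : ∀ s t, s < t → t < s + T → F (t, s + T) = - F (s, t)) :
    ∃ m, Tn F T m := by
  obtain ⟨L, hL, hLF⟩ := exists_log (convex_strip T) hF h0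
  have he : ∀ s t, s < t → t < s + T → exp (L (t, s + T) - L (s, t)) = -1 := by
    intro s t h h'
    rw [exp_sub, hLF _ (mem_strip h h'), hLF _ (mem_strip' h h'), hp _ _ h h', neg_div,
      div_self (h0 _ (mem_strip h h'))]
  obtain ⟨m, hm⟩ := exp_eq_neg_one (he 0 (T / 2) (by linarith) (by linarith))
  refine ⟨m, L, hL, hLF, fun s t h h' => ?_⟩
  rw [← hm]
  refine const_of_exp (S := strip T) (g := fun x : ℝ × ℝ => L (x.2, x.1 + T) - L (x.1, x.2))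
    (convex_strip T).isPreconnected ?_ (-1) ?_ (x := (s, t)) (y := (0, T / 2)) ⟨h, h'⟩
    ⟨by show (0 : ℝ) < T / 2; linarith, by show T / 2 < 0 + T; linarith⟩
  · exact (hL.comp (by fun_prop) fun x hx => mem_strip' hx.1 hx.2).sub
      (hL.comp (by fun_prop) fun x hx => hx)
  · intro x hx
    exact he _ _ hx.1 hx.2

theorem Tn.homotopy {F : ℝ × ℝ × ℝ → ℂ} {T : ℝ} {m : ℤ} (hT : 0 < T)
    (hF : ContinuousOn F (Icc 0 1 ×ˢ strip T))
    (h0 : ∀ u ∈ Icc (0 : ℝ) 1, ∀ x ∈ strip T, F (u, x) ≠ 0)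
    (hp : ∀ u ∈ Icc (0 : ℝ) 1, ∀ s t, s < t → t < s + T → F (u, t, s + T) = - F (u, s, t))
    (h : Tn (fun x => F (0, x)) T m) : Tn (fun x => F (1, x)) T m := by
  have hS : Convex ℝ (Icc (0 : ℝ) 1 ×ˢ strip T) := (convex_Icc _ _).prod (convex_strip T)
  obtain ⟨L, hL, hLF⟩ := exists_log hS hF (fun x hx => h0 x.1 hx.1 x.2 hx.2)
  have i0 : (0 : ℝ) ∈ Icc (0 : ℝ) 1 := by simp
  have i1 : (1 : ℝ) ∈ Icc (0 : ℝ) 1 := by simp
  have hc : ∀ u ∈ Icc (0 : ℝ) 1, ∀ s t, s < t → t < s + T → ∀ u' ∈ Icc (0 : ℝ) 1, ∀ s' t',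
      s' < t' → t' < s' + T →
      L (u, t, s + T) - L (u, s, t) = L (u', t', s' + T) - L (u', s', t') := by
    intro u hu s t h1 h2 u' hu' s' t' h1' h2'
    refine const_of_exp (S := Icc (0 : ℝ) 1 ×ˢ strip T)
      (g := fun x : ℝ × ℝ × ℝ => L (x.1, x.2.2, x.2.1 + T) - L (x.1, x.2.1, x.2.2))
      hS.isPreconnected ?_ (-1)
      ?_ (x := (u, s, t)) (y := (u', s', t')) ⟨hu, mem_strip h1 h2⟩ ⟨hu', mem_strip h1' h2'⟩
    · exact (hL.comp (by fun_prop) fun x hx => ⟨hx.1, mem_strip' hx.2.1 hx.2.2⟩).sub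
        (hL.comp (by fun_prop) fun x hx => hx)
    · intro x hx
      have hx1 : (x.1, x.2.2, x.2.1 + T) ∈ Icc (0 : ℝ) 1 ×ˢ strip T :=
        ⟨hx.1, mem_strip' hx.2.1 hx.2.2⟩
      have hx2 : (x.1, x.2.1, x.2.2) ∈ Icc (0 : ℝ) 1 ×ˢ strip T := hx
      rw [exp_sub, hLF _ hx1, hLF _ hx2, hp _ hx.1 _ _ hx.2.1 hx.2.2, neg_div,
        div_self (h0 _ hx.1 _ hx.2)]
  obtain ⟨L₀, hL₀, hLf₀, hLn₀⟩ := h
  refine ⟨fun t => L (1, t), ?_, fun x hx => hLF _ ⟨i1, hx⟩, fun s t h1 h2 => ?_⟩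
  · exact hL.comp (by fun_prop) fun x hx => ⟨i1, hx⟩
  · have hh : (0 : ℝ) < T / 2 := by linarith
    have hh' : T / 2 < 0 + T := by linarith
    simp only
    rw [hc 1 i1 s t h1 h2 0 i0 0 (T / 2) hh hh', ← hLn₀ 0 (T / 2) hh hh']
    refine lift_unique (S := strip T) (L := fun t => L (0, t)) (convex_strip T).isPreconnected ?_
      hL₀ (fun x hx => ?_) (mem_strip' hh hh') (mem_strip hh hh')
    · exact hL.comp (by fun_prop) fun x hx => ⟨i0, hx⟩
    · rw [hLF _ ⟨i0, hx⟩, hLf₀ x hx]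

/-- The turning number of a simple closed curve is `2 m - 1`. -/
def IsTurn (γ : ℝ → ℂ) (T : ℝ) (m : ℤ) : Prop := Tn (fun x => γ x.2 - γ x.1) T m

theorem exists_isTurn {γ : ℝ → ℂ} {T : ℝ} (h : Loop γ T) : ∃ m, IsTurn γ T m := by
  refine exists_Tn h.pos ?_ ?_ ?_
  · have := h.cont
    fun_prop
  · intro x hx he
    exact h.inj x.1 x.2 hx.1 hx.2 (sub_eq_zero.1 he).symm
  · intro s t _ _
    simp only [h.per]
    ring

theorem exists_isWind {γ : ℝ → ℂ} {T : ℝ} (h : Loop γ T) {z : ℂ} (hz : z ∉ range γ) :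
    ∃ n, IsWind γ T z n := by
  refine exists_Wn ?_ ?_ ?_
  · have := h.cont
    fun_prop
  · intro t he
    exact hz ⟨t, sub_eq_zero.1 he⟩
  · intro t
    simp only [h.per]

theorem Loop.map {γ : ℝ → ℂ} {T : ℝ} (h : Loop γ T) (f : ℂ ≃ₜ ℂ) :
    Loop (fun t => f (γ t)) T where
  pos := h.pos
  cont := f.continuous.comp h.cont
  per t := by simp only [h.per]
  inj s t h1 h2 he := h.inj s t h1 h2 (f.injective he)

theorem IsWind.map {γ : ℝ → ℂ} {T : ℝ} (hγ : Loop γ T) {z : ℂ} {n : ℤ} (h : IsWind γ T z n)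
    {f : ℂ ≃ₜ ℂ} (hf : OP f) : IsWind (fun t => f (γ t)) T (f z) n := by
  obtain ⟨H, hH, hH0, hH1⟩ := hf
  have key := Wn.homotopy (F := fun x : ℝ × ℝ => H x.1 (γ x.2) - H x.1 z) (T := T) (n := n)
    ?_ ?_ ?_ ?_
  · simpa only [hH1, IsWind] using key
  · have h1 : Continuous fun x : ℝ × ℝ => (x.1, γ x.2) := by
      have := hγ.cont
      fun_prop
    have h2 : Continuous fun x : ℝ × ℝ => (x.1, z) := by fun_prop
    exact (hH.comp h1.continuousOn fun x hx => ⟨hx.1, mem_univ _⟩).sub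
      (hH.comp h2.continuousOn fun x hx => ⟨hx.1, mem_univ _⟩)
  · intro u _ t he
    exact h.notMem ⟨t, (H u).injective (sub_eq_zero.1 he)⟩
  · intro u _ t
    simp only [hγ.per]
  · simpa only [hH0, IsWind] using h

theorem IsTurn.map {γ : ℝ → ℂ} {T : ℝ} (hγ : Loop γ T) {m : ℤ} (h : IsTurn γ T m)
    {f : ℂ ≃ₜ ℂ} (hf : OP f) : IsTurn (fun t => f (γ t)) T m := by
  obtain ⟨H, hH, hH0, hH1⟩ := hf
  have key := Tn.homotopy (F := fun x : ℝ × ℝ × ℝ => H x.1 (γ x.2.2) - H x.1 (γ x.2.1))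
    (T := T) (m := m) hγ.pos ?_ ?_ ?_ ?_
  · simpa only [hH1, IsTurn] using key
  · have h1 : Continuous fun x : ℝ × ℝ × ℝ => (x.1, γ x.2.1) := by
      have := hγ.cont
      fun_prop
    have h2 : Continuous fun x : ℝ × ℝ × ℝ => (x.1, γ x.2.2) := by
      have := hγ.cont
      fun_prop
    exact (hH.comp h2.continuousOn fun x hx => ⟨hx.1, mem_univ _⟩).sub
      (hH.comp h1.continuousOn fun x hx => ⟨hx.1, mem_univ _⟩)
  · intro u _ x hx he
    exact hγ.inj _ _ hx.1 hx.2 ((H u).injective (sub_eq_zero.1 he)).symm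
  · intro u _ s t _ _
    simp only [hγ.per]
    ring
  · simpa only [hH0, IsTurn] using h

end Pool.MP_b347ba_lc.J
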